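import Pool.Agent.TH68.Defs

set_option autoImplicit false
set_option linter.unusedSectionVars false

/-! Elementary tools in hyperbolic spaces. -/

namespace Pool.Agent.TH68

open Pool.Agent.Helper97.Hyp

section tool

variable {X : Type*} [PseudoMetricSpace X]

/-- the excess of `z` with respect to the pair `x`, `y` (twice the Gromov product at `z`) -/
def exc (x y z : X) : ℝ := dist x z + dist z y - dist x y

lemma exc_nonneg (x y z : X) : 0 ≤ exc x y z := by
  have := dist_triangle x z y
  unfold exc; linarith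

lemma exc_comm (x y z : X) : exc x y z = exc y x z := by
  unfold exc
  rw [dist_comm x z, dist_comm z y, dist_comm x y]; ring

lemma exc_left (x y : X) : exc x y x = 0 := by simp [exc]

lemma exc_right (x y : X) : exc x y y = 0 := by simp [exc]

lemma exc_le_two (x y z : X) : exc x y z ≤ 2 * dist x z := by
  have := dist_triangle z x y
  unfold exc
  rw [dist_comm z x] at this
  linarith

lemma exc_le_two' (x y z : X) : exc x y z ≤ 2 * dist z y := by
  have := dist_triangle x y z
  unfold exc
  rw [dist_comm y z] at this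
  linarith

/-- moving the point -/
lemma exc_move (x y z z' : X) : exc x y z' ≤ exc x y z + 2 * dist z z' := by
  have h1 := dist_triangle x z z'
  have h2 := dist_triangle z' z y
  rw [dist_comm z' z] at h2
  unfold exc; linarith

/-- moving the first endpoint -/
lemma exc_move_left (x x' y z : X) : exc x' y z ≤ exc x y z + 2 * dist x x' := by
  have h1 := dist_triangle x' x z
  have h2 := dist_triangle x x' y
  rw [dist_comm x' x] at h1
  unfold exc; linarith

/-- moving the second endpoint -/
lemma exc_move_right (x y y' z : X) : exc x y' z ≤ exc x y z + 2 * dist y y' := by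
  rw [exc_comm x y', exc_comm x y]; exact exc_move_left _ _ _ _

lemma exc_smul {Γ : Type*} [Group Γ] [MulAction Γ X] [IsIsometricSMul Γ X] (γ : Γ) (x y z : X) :
    exc (γ • x) (γ • y) (γ • z) = exc x y z := by
  simp only [exc, dist_smul]

/-- subdivision -/
lemma exc_zero_trans {x y z w : X} (h1 : exc x y z = 0) (h2 : exc z y w = 0) :
    exc x y w = 0 ∧ exc x w z = 0 := by
  have a := dist_triangle x z w
  have b := dist_triangle x w y
  unfold exc at *
  constructor <;> linarith

lemma exc_zero_trans' {x y z w : X} (h1 : exc x y z = 0) (h2 : exc x z w = 0) :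
    exc x y w = 0 ∧ exc w y z = 0 := by
  have a := dist_triangle w z y
  have b := dist_triangle x w y
  unfold exc at *
  constructor <;> linarith

variable {δ : ℝ}

lemma exc_split (h : GHyp X δ) (x y w z : X) :
    exc x w z ≤ exc x y z + 2 * δ ∨ exc w y z ≤ exc x y z + 2 * δ := by
  unfold exc
  rcases h.cases x y z w with h1 | h1
  · right
    rw [dist_comm z w, dist_comm y w] at h1
    linarith
  · left
    rw [dist_comm y z] at h1
    linarith

/-- polygons are thin -/
lemma exc_path (h : GHyp X δ) (v : ℕ → X) (z : X) (k : ℕ) (hk : 0 < k) :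
    ∃ i < k, exc (v i) (v (i + 1)) z ≤ exc (v 0) (v k) z + 2 * δ * k := by
  have hδ := h.nonneg z
  induction k with
  | zero => omega
  | succ k ih =>
    rcases Nat.eq_zero_or_pos k with rfl | hk
    · refine ⟨0, by omega, ?_⟩
      push_cast; linarith
    · rcases exc_split h (v 0) (v (k + 1)) (v k) z with h1 | h1
      · obtain ⟨i, hi, h2⟩ := ih hk
        refine ⟨i, by omega, ?_⟩
        push_cast; linarith
      · refine ⟨k, by omega, ?_⟩
        have hk' : (1 : ℝ) ≤ k := by exact_mod_cast hk
        push_cast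
        nlinarith

/-- points close to a geodesic at a similar distance from the origin are close -/
lemma order_close (h : GHyp X δ) {x y z t : X} {a : ℝ} (hz : exc x y z ≤ a) (ht : exc x y t ≤ a)  :
    dist z t ≤ |dist x z - dist x t| + a + 2 * δ := by
  unfold exc at *
  rcases h.cases x y z t with h1 | h1
  · have := le_abs_self (dist x z - dist x t)
    rw [dist_comm y t] at h1
    linarith
  · have := neg_le_abs (dist x z - dist x t)
    rw [dist_comm y z] at h1
    linarith

/-- broken geodesics: the one sided version -/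
lemma bg_one (h : GHyp X δ) {x : ℕ → X} {a : ℝ}
    (h1 : ∀ i, exc (x i) (x (i + 2)) (x (i + 1)) ≤ a)
    (h2 : ∀ i, a + 3 * δ < dist (x i) (x (i + 1))) (i k : ℕ) :
    exc (x i) (x (i + k + 2)) (x (i + k + 1)) ≤ a + 2 * δ := by
  have hδ := h.nonneg (x 0)
  induction k with
  | zero => have := h1 i; simp only [add_zero]; linarith
  | succ k ih =>
    rcases exc_split h (x (i + k + 1)) (x (i + k + 3)) (x i) (x (i + k + 2)) with h3 | h3
    · exfalso
      have h4 := h1 (i + k + 1)
      have h5 := h2 (i + k + 1)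
      rw [show i + k + 1 + 2 = i + k + 3 by ring, show i + k + 1 + 1 = i + k + 2 by ring] at h4
      rw [show i + k + 1 + 1 = i + k + 2 by ring] at h5
      unfold exc at h3 ih h4
      rw [dist_comm (x (i + k + 2)) (x i), dist_comm (x (i + k + 1)) (x i)] at h3
      linarith
    · have h4 := h1 (i + k + 1)
      rw [show i + k + 1 + 2 = i + k + 3 by ring, show i + k + 1 + 1 = i + k + 2 by ring] at h4
      rw [show i + (k + 1) + 2 = i + k + 3 by ring, show i + (k + 1) + 1 = i + k + 2 by ring]
      linarith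

/-- broken geodesics: the one sided version, backwards -/
lemma bg_two (h : GHyp X δ) {x : ℕ → X} {a : ℝ}
    (h1 : ∀ i, exc (x i) (x (i + 2)) (x (i + 1)) ≤ a)
    (h2 : ∀ i, a + 3 * δ < dist (x i) (x (i + 1))) (k i : ℕ) :
    exc (x i) (x (i + k + 2)) (x (i + 1)) ≤ a + 2 * δ := by
  have hδ := h.nonneg (x 0)
  induction k generalizing i with
  | zero => have := h1 i; simp only [add_zero]; linarith
  | succ k ih =>
    have h6 := ih (i + 1)
    rw [show i + 1 + k + 2 = i + k + 3 by ring, show i + 1 + 1 = i + 2 by ring] at h6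
    have h4 := h1 i
    have h5 := h2 (i + 1)
    rw [show i + 1 + 1 = i + 2 by ring] at h5
    rw [show i + (k + 1) + 2 = i + k + 3 by ring]
    rcases exc_split h (x i) (x (i + 2)) (x (i + k + 3)) (x (i + 1)) with h3 | h3
    · linarith
    · exfalso
      unfold exc at h3 h6 h4
      rw [dist_comm (x (i + k + 3)) (x (i + 1)), dist_comm (x (i + k + 3)) (x (i + 2))] at h3
      linarith

/-- broken geodesics -/
lemma bg (h : GHyp X δ) {x : ℕ → X} {a : ℝ} (ha : 0 ≤ a)
    (h1 : ∀ i, exc (x i) (x (i + 2)) (x (i + 1)) ≤ a)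
    (h2 : ∀ i, a + 3 * δ < dist (x i) (x (i + 1))) {i j k : ℕ} (hij : i ≤ j) (hjk : j ≤ k) :
    exc (x i) (x k) (x j) ≤ a + 4 * δ := by
  have hδ := h.nonneg (x 0)
  rcases hij.eq_or_lt with rfl | hij
  · rw [exc_left]; linarith
  rcases hjk.eq_or_lt with rfl | hjk
  · rw [exc_right]; linarith
  obtain ⟨p, rfl⟩ : ∃ p, j = i + p + 1 := ⟨j - i - 1, by omega⟩
  have h3 := bg_one h h1 h2 i p
  rcases (Nat.succ_le_of_lt hjk).eq_or_lt with h4 | h4
  · rw [← h4]
    change exc (x i) (x (i + p + 2)) (x (i + p + 1)) ≤ a + 4 * δ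
    linarith
  obtain ⟨q, rfl⟩ : ∃ q, k = i + p + 1 + q + 2 := ⟨k - (i + p + 1) - 2, by omega⟩
  have h5 := bg_two h h1 h2 q (i + p + 1)
  rw [show i + p + 1 + 1 = i + p + 2 by ring] at h5
  have h6 := h2 (i + p + 1)
  rw [show i + p + 1 + 1 = i + p + 2 by ring] at h6
  rcases exc_split h (x i) (x (i + p + 2)) (x (i + p + 1 + q + 2)) (x (i + p + 1)) with h7 | h7
  · linarith
  · exfalso
    have h8 := h7.trans (add_le_add_left h3 (2 * δ))
    unfold exc at h8 h5
    rw [dist_comm (x (i + p + 1 + q + 2)) (x (i + p + 1)),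
      dist_comm (x (i + p + 1 + q + 2)) (x (i + p + 2))] at h8
    linarith

/-- growth along broken geodesics -/
lemma bg_growth (h : GHyp X δ) {x : ℕ → X} {a L : ℝ}
    (h1 : ∀ i, exc (x i) (x (i + 2)) (x (i + 1)) ≤ a)
    (h2 : ∀ i, a + 3 * δ < dist (x i) (x (i + 1))) (hL : ∀ i, L ≤ dist (x i) (x (i + 1)))
    (i k : ℕ) : k * (L - a - 2 * δ) ≤ dist (x i) (x (i + k)) := by
  have hδ := h.nonneg (x 0)
  have ha : 0 ≤ a := (exc_nonneg _ _ _).trans (h1 0)
  induction k with
  | zero => simp
  | succ k ih =>
    rcases Nat.eq_zero_or_pos k with rfl | hk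
    · have := hL i
      simp only [zero_add, Nat.cast_one, one_mul]
      linarith
    · obtain ⟨m, rfl⟩ : ∃ m, k = m + 1 := ⟨k - 1, by omega⟩
      have h3 := bg_one h h1 h2 i m
      have h4 := hL (i + m + 1)
      rw [show i + m + 1 + 1 = i + m + 2 by ring] at h4
      rw [show i + (m + 1 + 1) = i + m + 2 by ring]
      rw [show i + (m + 1) = i + m + 1 by ring] at ih
      unfold exc at h3
      push_cast at ih ⊢
      linarith

end tool

section act

variable {X : Type*} [PseudoMetricSpace X] {Γ : Type*} [Group Γ] [MulAction Γ X]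
  [IsIsometricSMul Γ X] {δ : ℝ}

/-- criterion for infinite order -/
lemma inf_order (h : GHyp X δ) {w : Γ} {o : X} {a : ℝ}
    (h1 : exc o (w ^ 2 • o) (w • o) ≤ a) (h2 : a + 3 * δ < dist o (w • o)) :
    ¬ IsOfFinOrder w := by
  intro hw
  have hδ := h.nonneg o
  have ha : 0 ≤ a := (exc_nonneg _ _ _).trans h1
  obtain ⟨n, hn, hn1⟩ := hw.exists_pow_eq_one
  have e1 : ∀ i : ℕ, exc (w ^ i • o) (w ^ (i + 2) • o) (w ^ (i + 1) • o) ≤ a := by
    intro i
    have := exc_smul (w ^ i) o (w ^ 2 • o) (w • o)
    rw [smul_smul, smul_smul, ← pow_add, ← pow_succ] at this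
    rw [this]; exact h1
  have e2 : ∀ i : ℕ, dist (w ^ i • o) (w ^ (i + 1) • o) = dist o (w • o) := by
    intro i
    rw [pow_succ, mul_smul, dist_smul]
  have h3 := bg_growth h (x := fun i => w ^ i • o) (a := a) (L := dist o (w • o)) e1
    (fun i => by rw [e2]; exact h2) (fun i => by rw [e2]) 0 n
  simp only [pow_zero, one_smul, zero_add, hn1, dist_self] at h3
  have hn' : (1 : ℝ) ≤ n := by exact_mod_cast hn
  nlinarith

end act

section disc

variable {Γ : Type*} [Group Γ] {W : WNorm Γ} {δ : ℝ}

/-- points with small excess are close to a point on a geodesic -/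
lemma near_geod (h : GHyp (Pt W) δ) {x y z : Pt W} {a : ℝ} (hz : exc x y z ≤ a) :
    ∃ t : Pt W, exc x y t = 0 ∧ dist z t ≤ a + 2 * δ := by
  have hδ := h.nonneg x
  have ha := (exc_nonneg x y z).trans hz
  rcases le_total (dist x z) (dist x y) with h1 | h1
  · obtain ⟨t, ht1, ht2⟩ := exists_between x y (nd x z) h1
    rw [← dist_eq_nd] at ht1 ht2
    refine ⟨t, by unfold exc; linarith, ?_⟩
    have h3 : exc x y t ≤ a := by
      have : exc x y t = 0 := by unfold exc; linarith
      linarith
    have := order_close h hz h3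
    rw [ht1, sub_self, abs_zero] at this
    linarith
  · refine ⟨y, exc_right x y, ?_⟩
    unfold exc at hz
    linarith

end disc

end Pool.Agent.TH68
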