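import Pool.Agent.TH68.T0

set_option autoImplicit false

/-! Algebra of simple `T₀`-groups. -/

namespace Pool.Agent.TH68

/-- the hypotheses on the group -/
structure AlgH (G : Type*) [Group G] : Prop where
  ord : ∀ x : G, IsOfFinOrder x → x = 1 ∨ (orderOf x).Prime
  cent : ∀ x : G, (orderOf x).Prime → orderOf x ≠ 2 → ∀ y, Commute x y →
      y ∈ Subgroup.zpowers x
  inv : ∀ a b : G, orderOf a = 2 → orderOf b = 2 → Commute a b → a = b
  fin : ∀ a b : G, orderOf a = 2 → orderOf b = 2 → IsOfFinOrder (a * b)

namespace AlgH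

variable {G : Type*} [Group G]

lemma sq {a : G} (ha : orderOf a = 2) : a * a = 1 := by
  have h := pow_orderOf_eq_one a
  rwa [ha, pow_two] at h

lemma inv_eq {a : G} (ha : orderOf a = 2) : a⁻¹ = a := inv_eq_of_mul_eq_one_left (sq ha)

lemma ne_one {a : G} (ha : orderOf a = 2) : a ≠ 1 := by
  rintro rfl
  rw [orderOf_one] at ha
  omega

lemma order_two {a : G} (h1 : a ≠ 1) (h2 : a * a = 1) : orderOf a = 2 :=
  orderOf_eq_prime (by rw [pow_two]; exact h2) h1

lemma order_conj (g a : G) : orderOf (g * a * g⁻¹) = orderOf a :=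
  (MulAut.conj g).orderOf_eq a

/-- elements of finite order commuting with an involution -/
lemma c1 (h : AlgH G) {a y : G} (ha : orderOf a = 2) (hy : IsOfFinOrder y) (hc : Commute y a) :
    y = 1 ∨ y = a := by
  rcases h.ord y hy with h1 | h1
  · exact Or.inl h1
  · right
    by_cases h2 : orderOf y = 2
    · exact h.inv y a h2 ha hc
    · exfalso
      have h3 := h.cent y h1 h2 a hc
      have h4 := orderOf_dvd_of_mem_zpowers h3
      rw [ha] at h4
      exact h2 ((Nat.prime_dvd_prime_iff_eq Nat.prime_two h1).1 h4).symm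

/-- the product of two different involutions has odd prime order -/
lemma odd (h : AlgH G) {a b : G} (ha : orderOf a = 2) (hb : orderOf b = 2) (hab : a ≠ b) :
    (orderOf (a * b)).Prime ∧ orderOf (a * b) ≠ 2 := by
  have h1 : a * b ≠ 1 := by
    intro h1
    apply hab
    have := eq_inv_of_mul_eq_one_left h1
    rw [this, inv_eq hb]
  refine ⟨(h.ord _ (h.fin a b ha hb)).resolve_left h1, fun h2 => hab (h.inv a b ha hb ?_)⟩
  have h3 := sq h2
  have h4 := eq_inv_of_mul_eq_one_left h3
  rw [mul_inv_rev, inv_eq ha, inv_eq hb] at h4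
  exact h4

/-- `a` inverts the powers of `a b` -/
lemma conj_zpow_mem {a t u : G} (ha : orderOf a = 2) (ht : a * t * a = t⁻¹)
    (hu : u ∈ Subgroup.zpowers t) : a * u * a = u⁻¹ := by
  obtain ⟨k, rfl⟩ := Subgroup.mem_zpowers_iff.1 hu
  have h1 : (a * t * a⁻¹) ^ k = a * t ^ k * a⁻¹ := conj_zpow
  rw [inv_eq ha, ht] at h1
  rw [← h1, inv_zpow]

lemma conj_prod {a b : G} (ha : orderOf a = 2) (hb : orderOf b = 2) :
    a * (a * b) * a = (a * b)⁻¹ := by
  rw [mul_inv_rev, inv_eq ha, inv_eq hb, ← mul_assoc, sq ha, one_mul]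

/-- involutions are conjugate by an element of the cyclic group they generate -/
lemma conj (h : AlgH G) {a b : G} (ha : orderOf a = 2) (hb : orderOf b = 2) :
    ∃ g ∈ Subgroup.zpowers (a * b), g * a * g⁻¹ = b ∧ a * g * a = g⁻¹ := by
  by_cases hab : a = b
  · refine ⟨1, Subgroup.one_mem _, ?_, ?_⟩
    · rw [one_mul, inv_one, mul_one, hab]
    · rw [mul_one, sq ha, inv_one]
  · obtain ⟨h1, h2⟩ := h.odd ha hb hab
    obtain ⟨m, hm⟩ := h1.odd_of_ne_two h2
    have hg : (a * b) ^ m ∈ Subgroup.zpowers (a * b) := Subgroup.npow_mem_zpowers _ _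
    have h3 := conj_zpow_mem ha (conj_prod ha hb) hg
    refine ⟨(a * b) ^ m, hg, ?_, h3⟩
    have h4 : (a * b) ^ m * (a * b) ^ m * (a * b) = 1 := by
      rw [← pow_add, ← pow_succ, ← two_mul, ← hm, pow_orderOf_eq_one]
    have h5 : (a * b) ^ m * (a * b) ^ m = b * a := by
      have := eq_inv_of_mul_eq_one_left h4
      rw [this, mul_inv_rev, inv_eq ha, inv_eq hb]
    rw [← h3]
    calc (a * b) ^ m * a * (a * (a * b) ^ m * a) =
        (a * b) ^ m * (a * a) * (a * b) ^ m * a := by group
      _ = (a * b) ^ m * (a * b) ^ m * a := by rw [sq ha, mul_one]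
      _ = b * a * a := by rw [h5]
      _ = b := by rw [mul_assoc, sq ha, mul_one]

/-- elements of a periodic subgroup containing the involution `a` -/
lemma elem (h : AlgH G) {L : Subgroup G} (hL : ∀ y ∈ L, IsOfFinOrder y) {a : G}
    (ha : orderOf a = 2) (haL : a ∈ L) {g : G} (hg : g ∈ L) :
    ∃ u ∈ Subgroup.zpowers (a * (g * a * g⁻¹)), a * u * a = u⁻¹ ∧ (g = u ∨ g = u * a) := by
  have hb : orderOf (g * a * g⁻¹) = 2 := by rw [order_conj, ha]
  obtain ⟨u, hu, h1, h2⟩ := h.conj ha hb
  have hle : Subgroup.zpowers (a * (g * a * g⁻¹)) ≤ L := by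
    rw [Subgroup.zpowers_le]
    exact L.mul_mem haL (L.mul_mem (L.mul_mem hg haL) (L.inv_mem hg))
  refine ⟨u, hu, h2, ?_⟩
  have h3 : Commute (u⁻¹ * g) a := by
    have h4 : u⁻¹ * g * a = a * (u⁻¹ * g) := by
      calc u⁻¹ * g * a = u⁻¹ * (g * a * g⁻¹) * g := by group
        _ = u⁻¹ * (u * a * u⁻¹) * g := by rw [h1]
        _ = a * (u⁻¹ * g) := by group
    exact h4
  rcases h.c1 ha (hL _ (L.mul_mem (L.inv_mem (hle hu)) hg)) h3 with h4 | h4
  · left
    exact (inv_mul_eq_one.1 h4).symm
  · right
    rw [← h4]; group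

lemma inverted (h : AlgH G) {L : Subgroup G} (hL : ∀ y ∈ L, IsOfFinOrder y) {a : G}
    (ha : orderOf a = 2) (haL : a ∈ L) {x : G} (hx : x ∈ L) (hx2 : x * x ≠ 1) :
    a * x * a = x⁻¹ := by
  obtain ⟨u, hu, h1, h2⟩ := h.elem hL ha haL hx
  rcases h2 with h2 | h2
  · rw [h2]; exact h1
  · exfalso
    apply hx2
    rw [h2]
    calc u * a * (u * a) = u * (a * u * a) := by group
      _ = 1 := by rw [h1, mul_inv_cancel]

lemma sq_ne {x : G} (h1 : (orderOf x).Prime) (h2 : orderOf x ≠ 2) : x * x ≠ 1 := by
  intro h3
  have h4 : orderOf x ∣ 2 := orderOf_dvd_of_pow_eq_one (by rw [pow_two]; exact h3)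
  exact h2 ((Nat.prime_dvd_prime_iff_eq h1 Nat.prime_two).1 h4)

lemma prod_mem (h : AlgH G) {L : Subgroup G} (hL : ∀ y ∈ L, IsOfFinOrder y) {a b x : G}
    (ha : orderOf a = 2) (haL : a ∈ L) (hb : orderOf b = 2) (hbL : b ∈ L) (hx : x ∈ L)
    (h1 : (orderOf x).Prime) (h2 : orderOf x ≠ 2) : a * b ∈ Subgroup.zpowers x := by
  apply h.cent x h1 h2
  have h3 := h.inverted hL ha haL hx (sq_ne h1 h2)
  have h4 := h.inverted hL hb hbL hx (sq_ne h1 h2)
  have h5 : a * x⁻¹ * a = x := by
    have := congrArg (fun t => t⁻¹) h3
    simp only [mul_inv_rev, inv_inv, inv_eq ha] at this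
    rw [← mul_assoc] at this
    exact this
  have h6 : x * (a * b) = a * b * x := by
    symm
    calc a * b * x = a * (b * x * b) * b⁻¹ := by group
      _ = a * x⁻¹ * b := by rw [h4, inv_eq hb]
      _ = (a * x⁻¹ * a) * (a⁻¹ * b) := by group
      _ = x * (a * b) := by rw [h5, inv_eq ha]
  exact h6

/-- periodic subgroups containing the involution `i` -/
lemma struct (h : AlgH G) {L : Subgroup G} (hL : ∀ y ∈ L, IsOfFinOrder y) {i : G}
    (hi : orderOf i = 2) (hiL : i ∈ L) : (∀ y ∈ L, y = 1 ∨ y = i) ∨
    ∃ x ∈ L, (orderOf x).Prime ∧ orderOf x ≠ 2 ∧ i * x * i = x⁻¹ ∧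
      ∀ y ∈ L, y ∈ Subgroup.zpowers x ∨ y * i ∈ Subgroup.zpowers x := by
  by_cases hc : ∀ g ∈ L, g * i * g⁻¹ = i
  · left
    intro y hy
    refine h.c1 hi (hL y hy) ?_
    have := hc y hy
    rw [mul_inv_eq_iff_eq_mul] at this
    exact this
  · right
    push Not at hc
    obtain ⟨g, hg, hgi⟩ := hc
    have hj : orderOf (g * i * g⁻¹) = 2 := by rw [order_conj, hi]
    have hjL : g * i * g⁻¹ ∈ L := L.mul_mem (L.mul_mem hg hiL) (L.inv_mem hg)
    obtain ⟨h1, h2⟩ := h.odd hi hj (Ne.symm hgi)
    have hxL : i * (g * i * g⁻¹) ∈ L := L.mul_mem hiL hjL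
    refine ⟨i * (g * i * g⁻¹), hxL, h1, h2, conj_prod hi hj, fun y hy => ?_⟩
    obtain ⟨u, hu, h3, h4⟩ := h.elem hL hi hiL hy
    have h5 := h.prod_mem hL hi hiL (b := y * i * y⁻¹) (by rw [order_conj, hi])
      (L.mul_mem (L.mul_mem hy hiL) (L.inv_mem hy)) hxL h1 h2
    have h6 : u ∈ Subgroup.zpowers (i * (g * i * g⁻¹)) :=
      (Subgroup.zpowers_le.2 h5) hu
    rcases h4 with h4 | h4
    · left; rw [h4]; exact h6
    · right
      have e : u * i * i = u := by rw [mul_assoc, sq hi, mul_one]
      rw [h4, e]; exact h6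

/-- elements normalizing a self-centralizing subgroup of prime order have finite order -/
lemma norm_fin (h : AlgH G) {x : G} (h1 : (orderOf x).Prime) (h2 : orderOf x ≠ 2) {g : G}
    (hg : g * x * g⁻¹ ∈ Subgroup.zpowers x) : IsOfFinOrder g := by
  have hfin : (Subgroup.zpowers x : Set G).Finite :=
    finite_zpowers.2 (orderOf_pos_iff.1 h1.pos)
  have hS : {g : G | g * x * g⁻¹ ∈ Subgroup.zpowers x}.Finite := by
    have e : {g : G | g * x * g⁻¹ ∈ Subgroup.zpowers x} =
        ⋃ z ∈ (Subgroup.zpowers x : Set G), {g : G | g * x * g⁻¹ = z} := by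
      ext g
      simp
    rw [e]
    refine hfin.biUnion fun z _ => ?_
    by_cases he : {g : G | g * x * g⁻¹ = z}.Nonempty
    · obtain ⟨g₀, hg₀⟩ := he
      refine (hfin.image (fun u => g₀ * u)).subset ?_
      intro g' hg'
      refine ⟨g₀⁻¹ * g', ?_, by simp⟩
      apply h.cent x h1 h2
      have e1 : g₀ * x * g₀⁻¹ = g' * x * g'⁻¹ := by
        rw [Set.mem_ofPred_eq] at hg₀ hg'
        rw [hg₀, hg']
      have e2 : x * (g₀⁻¹ * g') = g₀⁻¹ * g' * x := by
        calc x * (g₀⁻¹ * g') = g₀⁻¹ * (g₀ * x * g₀⁻¹) * g' := by group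
          _ = g₀⁻¹ * (g' * x * g'⁻¹) * g' := by rw [e1]
          _ = g₀⁻¹ * g' * x := by group
      exact e2
    · rw [Set.not_nonempty_iff_eq_empty.1 he]
      exact Set.finite_empty
  rw [← finite_powers]
  refine hS.subset ?_
  rintro _ ⟨n, rfl⟩
  simp only [Set.mem_ofPred_eq]
  induction n with
  | zero => simp
  | succ n ih =>
    obtain ⟨k, hk⟩ := Subgroup.mem_zpowers_iff.1 ih
    have e : g ^ (n + 1) * x * (g ^ (n + 1))⁻¹ = (g * x * g⁻¹) ^ k := by
      rw [conj_zpow, hk, pow_succ']
      group
    rw [e]
    exact Subgroup.zpow_mem _ hg k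

/-- the subgroup `K ∪ K i` -/
def LL (K : Subgroup G) (i : G) (hi : i * i = 1) (hK : ∀ x ∈ K, i * x * i ∈ K) : Subgroup G where
  carrier := {y | y ∈ K ∨ y * i ∈ K}
  one_mem' := Or.inl K.one_mem
  mul_mem' := by
    intro a b ha hb
    rcases ha with ha | ha <;> rcases hb with hb | hb
    · left; exact K.mul_mem ha hb
    · right; rw [mul_assoc]; exact K.mul_mem ha hb
    · right
      have := K.mul_mem ha (hK b hb)
      have e : a * i * (i * b * i) = a * (i * i) * b * i := by group
      rw [e, hi, mul_one] at this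
      exact this
    · left
      have := K.mul_mem ha (hK _ hb)
      have e : a * i * (i * (b * i) * i) = a * (i * i) * b * (i * i) := by group
      rw [e, hi, mul_one, mul_one] at this
      exact this
  inv_mem' := by
    intro a ha
    rcases ha with ha | ha
    · left; exact K.inv_mem ha
    · right
      have := hK _ (K.inv_mem ha)
      have e : i * (a * i)⁻¹ * i = a⁻¹ * i := by group
      rw [e] at this
      exact this

lemma LL_fin {K : Subgroup G} {i : G} {hi : i * i = 1} {hK : ∀ x ∈ K, i * x * i ∈ K}
    (hf : (K : Set G).Finite) : (LL K i hi hK : Set G).Finite := by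
  refine (hf.union (hf.image (fun u => u * i))).subset ?_
  rintro y (hy | hy)
  · exact Or.inl hy
  · right
    refine ⟨y * i, hy, ?_⟩
    simp only [mul_assoc, hi, mul_one]

lemma fin_order {L : Subgroup G} (hL : (L : Set G).Finite) : ∀ y ∈ L, IsOfFinOrder y := by
  intro y hy
  rw [← finite_powers]
  refine hL.subset ?_
  rintro _ ⟨n, rfl⟩
  exact L.pow_mem hy n

lemma gen_of_prime {x y : G} (h1 : (orderOf x).Prime) (hy : y ∈ Subgroup.zpowers x)
    (hy1 : y ≠ 1) : x ∈ Subgroup.zpowers y := by
  have : Fact (orderOf x).Prime := ⟨h1⟩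
  have hc : Nat.card (Subgroup.zpowers x) = orderOf x := Nat.card_zpowers x
  have h2 : (⟨x, Subgroup.mem_zpowers x⟩ : Subgroup.zpowers x) ∈
      Subgroup.zpowers (⟨y, hy⟩ : Subgroup.zpowers x) :=
    mem_zpowers_of_prime_card hc (by
      intro h
      apply hy1
      have := congrArg (fun t : Subgroup.zpowers x => (t : G)) h
      simpa using this)
  obtain ⟨k, hk⟩ := Subgroup.mem_zpowers_iff.1 h2
  refine Subgroup.mem_zpowers_iff.2 ⟨k, ?_⟩
  have := congrArg (fun t : Subgroup.zpowers x => (t : G)) hk
  simpa using this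

/-- elements of a dihedral group outside the rotations are involutions -/
lemma refl_sq {i x y : G} (hi : orderOf i = 2) (hx : i * x * i = x⁻¹)
    (hy : y * i ∈ Subgroup.zpowers x) : y * y = 1 := by
  have h1 := conj_zpow_mem hi hx hy
  have h2 : i * (y * i) * i = i * y := by
    rw [← mul_assoc, mul_assoc, sq hi, mul_one]
  rw [h2, mul_inv_rev, inv_eq hi] at h1
  have h3 := mul_left_cancel h1
  calc y * y = y⁻¹ * y := by rw [← h3]
    _ = 1 := inv_mul_cancel y

lemma mem_zpowers_two {i y : G} (hi : orderOf i = 2) : y ∈ Subgroup.zpowers i ↔ y = 1 ∨ y = i := by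
  constructor
  · intro hy
    obtain ⟨k, rfl⟩ := Subgroup.mem_zpowers_iff.1 hy
    rcases Int.even_or_odd' k with ⟨m, rfl | rfl⟩
    · left
      rw [zpow_mul, zpow_two, sq hi, one_zpow]
    · right
      rw [zpow_add, zpow_mul, zpow_two, sq hi, one_zpow, one_mul, zpow_one]
  · rintro (rfl | rfl)
    · exact Subgroup.one_mem _
    · exact Subgroup.mem_zpowers _

end AlgH

open AlgH

theorem alg {G : Type*} [Group G] [IsSimpleGroup G] {i : G} (hi : orderOf i = 2)
    (ord : ∀ x : G, IsOfFinOrder x → x = 1 ∨ (orderOf x).Prime)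
    (cent : ∀ x : G, (orderOf x).Prime → orderOf x ≠ 2 → ∀ y, Commute x y →
      y ∈ Subgroup.zpowers x)
    (inv : ∀ a b : G, orderOf a = 2 → orderOf b = 2 → Commute a b → a = b)
    (fin : ∀ a b : G, orderOf a = 2 → orderOf b = 2 → IsOfFinOrder (a * b))
    (hG : ∃ x : G, x ≠ 1 ∧ x ≠ i) : IsT0 G i := by
  have h : AlgH G := ⟨ord, cent, inv, fin⟩
  have hi1 := ne_one hi
  have hii := sq hi
  have hinv := inv_eq hi
  have mC : ∀ g : G, g ∈ Subgroup.centralizer ({i} : Set G) ↔ Commute g i := by
    intro g
    rw [Subgroup.mem_centralizer_singleton_iff]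
    exact ⟨fun h => h, fun h => h⟩
  -- an involution which does not commute with `i`
  have hnc : ∃ g : G, g * i * g⁻¹ ≠ i := by
    by_contra hcon
    push Not at hcon
    have hn : (Subgroup.zpowers i).Normal := by
      refine ⟨fun n hn g => ?_⟩
      rw [mem_zpowers_two hi] at hn ⊢
      rcases hn with rfl | rfl
      · left; simp
      · right; exact hcon g
    rcases hn.eq_bot_or_eq_top with h1 | h1
    · rw [Subgroup.zpowers_eq_bot] at h1
      exact hi1 h1
    · obtain ⟨x, hx1, hx2⟩ := hG
      have hx : x ∈ Subgroup.zpowers i := by rw [h1]; exact Subgroup.mem_top x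
      rw [mem_zpowers_two hi] at hx
      rcases hx with hx | hx
      · exact hx1 hx
      · exact hx2 hx
  -- not all elements have finite order, in fact the centralizer of `i` is infinite
  have hCinf : (Subgroup.centralizer {i} : Set G).Infinite := by
    intro hfin
    have hC : ∀ y ∈ Subgroup.centralizer ({i} : Set G), y = 1 ∨ y = i := fun y hy =>
      h.c1 hi (fin_order hfin y hy) ((mC y).1 hy)
    -- every element is inverted by `i`, or its square is `1`
    have hel : ∀ g : G, ∀ a : G, orderOf a = 2 → g * g ≠ 1 → a * g * a = g⁻¹ := by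
      intro g a ha hg
      -- the centralizer of `a`
      have hCa : ∀ y, Commute y a → y = 1 ∨ y = a := by
        intro y hy
        obtain ⟨f, -, hf, -⟩ := h.conj ha hi
        have h1 : f * y * f⁻¹ ∈ Subgroup.centralizer ({i} : Set G) := by
          rw [mC]
          have h2 : f * y * f⁻¹ * i = i * (f * y * f⁻¹) := by
            have hy' : y * a = a * y := hy
            rw [← hf]
            calc f * y * f⁻¹ * (f * a * f⁻¹) = f * (y * a) * f⁻¹ := by group
              _ = f * (a * y) * f⁻¹ := by rw [hy']
              _ = f * a * f⁻¹ * (f * y * f⁻¹) := by group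
          exact h2
        rcases hC _ h1 with h2 | h2
        · left
          have : y = f⁻¹ * (f * y * f⁻¹) * f := by group
          rw [this, h2]; group
        · right
          have : y = f⁻¹ * (f * y * f⁻¹) * f := by group
          rw [this, h2, ← hf]; group
      have hb : orderOf (g * a * g⁻¹) = 2 := by rw [order_conj, ha]
      obtain ⟨u, hu, h1, h2⟩ := h.conj ha hb
      have h3 : Commute (u⁻¹ * g) a := by
        have h4 : u⁻¹ * g * a = a * (u⁻¹ * g) := by
          calc u⁻¹ * g * a = u⁻¹ * (g * a * g⁻¹) * g := by group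
            _ = u⁻¹ * (u * a * u⁻¹) * g := by rw [h1]
            _ = a * (u⁻¹ * g) := by group
        exact h4
      rcases hCa _ h3 with h4 | h4
      · have h5 : u = g := inv_mul_eq_one.1 h4
        rw [← h5]; exact h2
      · exfalso
        apply hg
        have h5 : g = u * a := by rw [← h4]; group
        rw [h5]
        calc u * a * (u * a) = u * (a * u * a) := by group
          _ = 1 := by rw [h2, mul_inv_cancel]
    obtain ⟨g, hg⟩ := hnc
    have hj : orderOf (g * i * g⁻¹) = 2 := by rw [order_conj, hi]
    obtain ⟨h1, h2⟩ := h.odd hi hj (Ne.symm hg)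
    set x := i * (g * i * g⁻¹) with hx
    have hprod : ∀ a b : G, orderOf a = 2 → orderOf b = 2 → a * b ∈ Subgroup.zpowers x := by
      intro a b ha hb
      apply h.cent x h1 h2
      have h3 := hel x a ha (sq_ne h1 h2)
      have h4 := hel x b hb (sq_ne h1 h2)
      have h5 : a * x⁻¹ * a = x := by
        have := congrArg (fun t => t⁻¹) h3
        simp only [mul_inv_rev, inv_inv, inv_eq ha] at this
        rw [← mul_assoc] at this
        exact this
      have h6 : x * (a * b) = a * b * x := by
        symm
        calc a * b * x = a * (b * x * b) * b⁻¹ := by group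
          _ = a * x⁻¹ * b := by rw [h4, inv_eq hb]
          _ = (a * x⁻¹ * a) * (a⁻¹ * b) := by group
          _ = x * (a * b) := by rw [h5, inv_eq ha]
      exact h6
    have hn : (Subgroup.zpowers x).Normal := by
      refine ⟨fun n hn f => ?_⟩
      obtain ⟨k, rfl⟩ := Subgroup.mem_zpowers_iff.1 hn
      rw [← conj_zpow]
      apply Subgroup.zpow_mem
      have e : f * x * f⁻¹ = (f * i * f⁻¹) * (f * (g * i * g⁻¹) * f⁻¹) := by
        rw [hx]; group
      rw [e]
      exact hprod _ _ (by rw [order_conj, hi]) (by rw [order_conj, hj])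
    rcases hn.eq_bot_or_eq_top with h3 | h3
    · rw [Subgroup.zpowers_eq_bot] at h3
      rw [h3, orderOf_one] at h1
      exact Nat.not_prime_one h1
    · have h4 : i ∈ Subgroup.zpowers x := by rw [h3]; exact Subgroup.mem_top i
      have h5 := orderOf_dvd_of_mem_zpowers h4
      rw [hi] at h5
      exact h2 ((Nat.prime_dvd_prime_iff_eq Nat.prime_two h1).1 h5).symm
  refine ⟨hi, fun j k hj hk _ _ => fin j k hj hk, ?_, hCinf, ?_, ?_, ?_, ?_⟩
  · -- condition 2
    intro P hP
    left
    have hP2 : ∀ y ∈ P, y ≠ 1 → orderOf y = 2 := by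
      intro y hy hy1
      obtain ⟨n, hn⟩ := hP y hy
      have h1 : IsOfFinOrder y := by
        rw [← orderOf_pos_iff, hn]; positivity
      have h2 := (h.ord y h1).resolve_left hy1
      have h3 : orderOf y ∣ 2 ^ n := by rw [← hn]
      exact (Nat.prime_dvd_prime_iff_eq h2 Nat.prime_two).1 (h2.dvd_of_dvd_pow h3)
    have hsq : ∀ y ∈ P, y * y = 1 := by
      intro y hy
      by_cases hy1 : y = 1
      · rw [hy1, one_mul]
      · exact sq (hP2 y hy hy1)
    have hcomm : ∀ a ∈ P, ∀ b ∈ P, Commute a b := by
      intro a ha b hb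
      have h1 := hsq _ (P.mul_mem ha hb)
      have h2 := eq_inv_of_mul_eq_one_left h1
      rw [mul_inv_rev] at h2
      have ha' : a⁻¹ = a := inv_eq_of_mul_eq_one_left (hsq a ha)
      have hb' : b⁻¹ = b := inv_eq_of_mul_eq_one_left (hsq b hb)
      rw [ha', hb'] at h2
      exact h2
    by_cases hbot : ∃ a ∈ P, a ≠ 1
    · obtain ⟨a, ha, ha1⟩ := hbot
      refine ⟨⟨⟨a, ha⟩, fun y => ?_⟩⟩
      by_cases hy1 : (y : G) = 1
      · have : y = 1 := by ext; simpa using hy1
        rw [this]; exact ⟨0, zpow_zero _⟩
      · have h1 := h.inv a y (hP2 a ha ha1) (hP2 y y.2 hy1) (hcomm a ha y y.2)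
        have : y = ⟨a, ha⟩ := by ext; exact h1.symm
        rw [this]; exact Subgroup.mem_zpowers _
    · push Not at hbot
      refine ⟨⟨1, fun y => ?_⟩⟩
      have : y = 1 := by ext; simpa using hbot y y.2
      rw [this]; exact ⟨0, zpow_zero _⟩
  · -- condition 3
    intro htop
    obtain ⟨g, hg⟩ := hnc
    apply hg
    have h1 : Commute g i := (mC g).1 (by rw [htop]; exact Subgroup.mem_top g)
    rw [mul_inv_eq_iff_eq_mul]
    exact h1
  · refine (Set.toFinite ({1, i} : Set G)).subset ?_
    rintro y ⟨hy1, hy2⟩
    rcases h.c1 hi hy2 ((mC y).1 hy1) with h1 | h1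
    · left; exact h1
    · right; exact h1
  · -- condition 4
    intro K hK hKb hKi
    have hKi' : ∀ x ∈ K, i * x * i ∈ K := by
      intro x hx
      have := (hKi x).1 hx
      rwa [hinv] at this
    have hiN : i ∈ Subgroup.normalizer (K : Set G) := by
      rw [Subgroup.mem_normalizer_iff]
      intro x
      rw [hinv]
      constructor
      · exact fun hx => hKi' x hx
      · intro hx
        have := hKi' _ hx
        have e : i * (i * x * i) * i = (i * i) * x * (i * i) := by group
        rw [e, hii, one_mul, mul_one] at this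
        exact this
    have hsmall : (∀ k ∈ K, k = 1 ∨ k = i) →
        Subgroup.normalizer (K : Set G) ≤ Subgroup.centralizer {i} := by
      intro hk g hg
      have hiK : i ∈ K := by
        by_contra hcon
        apply hKb
        rw [Subgroup.eq_bot_iff_forall]
        intro x hx
        rcases hk x hx with h1 | h1
        · exact h1
        · exact absurd (h1 ▸ hx) hcon
      rw [mC]
      have h1 : g * i * g⁻¹ ∈ K := ((Subgroup.mem_normalizer_iff.1 hg) i).1 hiK
      rcases hk _ h1 with h2 | h2
      · exfalso
        apply hi1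
        have : i = g⁻¹ * (g * i * g⁻¹) * g := by group
        rw [this, h2]; group
      · rw [mul_inv_eq_iff_eq_mul] at h2
        exact h2
    have hLfin := LL_fin (hi := hii) (hK := hKi') hK
    set L := LL K i hii hKi' with hLdef
    have hKL : K ≤ L := fun k hk => Or.inl hk
    have hiL : i ∈ L := Or.inr (by rw [hii]; exact K.one_mem)
    rcases h.struct (fin_order hLfin) hi hiL with h1 | ⟨x, hxL, h1, h2, h3, h4⟩
    · left
      exact hsmall fun k hk => h1 k (hKL hk)
    · by_cases hk : ∀ k ∈ K, k = 1 ∨ k = i
      · left; exact hsmall hk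
      · right
        push Not at hk
        obtain ⟨k, hkK, hk1, hki⟩ := hk
        -- `x ∈ K`
        have hxK : x ∈ K := by
          rcases h4 k (hKL hkK) with h5 | h5
          · have := gen_of_prime h1 h5 hk1
            exact (Subgroup.zpowers_le.2 hkK) this
          · -- `h = k i`
            have h6 : k * i ≠ 1 := by
              intro h6
              apply hki
              rw [eq_inv_of_mul_eq_one_left h6, hinv]
            have h7 := conj_zpow_mem hi h3 h5
            have h8 : k * i * (k * i) ∈ K := by
              have h9 : k * (i * k * i)⁻¹ ∈ K := K.mul_mem hkK (K.inv_mem (hKi' k hkK))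
              have hkk : k⁻¹ = k := inv_eq_of_mul_eq_one_left (refl_sq hi h3 h5)
              have e : (i * k * i)⁻¹ = i * (k * i) := by
                rw [mul_inv_rev, mul_inv_rev, hkk, hinv, ← mul_assoc]
              rw [e, ← mul_assoc] at h9
              exact h9
            have h9 : k * i * (k * i) ≠ 1 := by
              intro h10
              have h11 : x ∈ Subgroup.zpowers (k * i) := gen_of_prime h1 h5 h6
              obtain ⟨m, hm⟩ := Subgroup.mem_zpowers_iff.1 h11
              apply sq_ne h1 h2
              rw [← hm, ← zpow_add, ← two_mul, zpow_mul, zpow_two, h10, one_zpow]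
            have h10 : k * i * (k * i) ∈ Subgroup.zpowers x := Subgroup.mul_mem _ h5 h5
            exact (Subgroup.zpowers_le.2 h8) (gen_of_prime h1 h10 h9)
        have hNx : ∀ g ∈ Subgroup.normalizer (K : Set G), g * x * g⁻¹ ∈ Subgroup.zpowers x := by
          intro g hg
          have h5 : g * x * g⁻¹ ∈ K := ((Subgroup.mem_normalizer_iff.1 hg) x).1 hxK
          rcases h4 _ (hKL h5) with h6 | h6
          · exact h6
          · exfalso
            have h7 := refl_sq hi h3 h6
            have h8 : orderOf (g * x * g⁻¹) = orderOf x := order_conj g x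
            exact sq_ne (by rw [h8]; exact h1) (by rw [h8]; exact h2) h7
        have hNfin : ∀ g ∈ Subgroup.normalizer (K : Set G), IsOfFinOrder g := fun g hg =>
          h.norm_fin h1 h2 (hNx g hg)
        have hxN : x ∈ Subgroup.normalizer (K : Set G) := Subgroup.le_normalizer hxK
        have hx1 : x ≠ 1 := by
          intro h5
          rw [h5, orderOf_one] at h1
          exact Nat.not_prime_one h1
        have hxi : x ≠ i := by
          intro h5
          apply h2
          rw [h5, hi]
        have hstr : ∀ y ∈ Subgroup.normalizer (K : Set G),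
            y ∈ Subgroup.zpowers x ∨ y * i ∈ Subgroup.zpowers x := by
          rcases h.struct hNfin hi hiN with h5 | ⟨x', hx'N, k1, k2, k3, k4⟩
          · rcases h5 x hxN with h6 | h6
            · exact absurd h6 hx1
            · exact absurd h6 hxi
          · have h6 : x ∈ Subgroup.zpowers x' := by
              rcases k4 x hxN with h6 | h6
              · exact h6
              · exact absurd (refl_sq hi k3 h6) (sq_ne h1 h2)
            have h7 : Subgroup.zpowers x' ≤ Subgroup.zpowers x :=
              Subgroup.zpowers_le.2 (gen_of_prime k1 h6 hx1)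
            intro y hy
            exact (k4 y hy).imp (fun t => h7 t) (fun t => h7 t)
        have hix : i ∉ Subgroup.zpowers x := by
          intro h5
          have h6 := orderOf_dvd_of_mem_zpowers h5
          rw [hi] at h6
          exact h2 ((Nat.prime_dvd_prime_iff_eq Nat.prime_two h1).1 h6).symm
        refine ⟨Subgroup.normalizer (K : Set G), Subgroup.zpowers x, Subgroup.zpowers i, ?_, ?_,
          ?_, ?_, ?_⟩
        · ext y
          exact ⟨fun hy => ⟨hy, hNfin y hy⟩, fun hy => hy.1⟩
        · refine ⟨Subgroup.zpowers_le.2 hiN, ?_, ?_, ?_, ?_, ?_, ?_, ?_⟩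
          · rw [Ne, Subgroup.zpowers_eq_bot]; exact hi1
          · intro h5
            have h6 : x ∈ Subgroup.zpowers i := by rw [h5]; exact hxN
            rw [mem_zpowers_two hi] at h6
            rcases h6 with h6 | h6
            · exact hx1 h6
            · exact hxi h6
          · intro g hg hgH y hy hgy
            rw [mem_zpowers_two hi] at hy hgy
            rcases hy with rfl | rfl
            · rfl
            · exfalso
              rcases hgy with h5 | h5
              · apply hi1
                have : y = g⁻¹ * (g * y * g⁻¹) * g := by group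
                rw [this, h5]; group
              · apply hgH
                rw [mem_zpowers_two hi]
                rw [mul_inv_eq_iff_eq_mul] at h5
                exact h.c1 hi (hNfin g hg) h5
          · intro y
            constructor
            · intro hy
              by_cases hy1 : y = 1
              · right; exact hy1
              · left
                refine ⟨(Subgroup.zpowers_le.2 hxN) hy, ?_⟩
                rintro ⟨g, hg, hgy⟩
                rw [mem_zpowers_two hi] at hgy
                rcases hgy with h5 | h5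
                · apply hy1
                  have : y = g⁻¹ * (g * y * g⁻¹) * g := by group
                  rw [this, h5]; group
                · have h6 : orderOf y = 2 := by rw [← order_conj g y, h5, hi]
                  have h7 := orderOf_dvd_of_mem_zpowers hy
                  rw [h6] at h7
                  exact h2 ((Nat.prime_dvd_prime_iff_eq Nat.prime_two h1).1 h7).symm
            · rintro (⟨hy, hyc⟩ | rfl)
              · rcases hstr y hy with h5 | h5
                · exact h5
                · exfalso
                  apply hyc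
                  have hy1 : y ≠ 1 := by
                    rintro rfl
                    rw [one_mul] at h5
                    exact hix h5
                  have hy2 : orderOf y = 2 := order_two hy1 (refl_sq hi h3 h5)
                  obtain ⟨g, hg, hgy, -⟩ := h.conj hy2 hi
                  refine ⟨g, ?_, ?_⟩
                  · exact (Subgroup.zpowers_le.2 (Subgroup.mul_mem _ hy hiN)) hg
                  · rw [hgy]; exact Subgroup.mem_zpowers i
              · exact Subgroup.one_mem _
          · intro g hg y hy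
            obtain ⟨m, rfl⟩ := Subgroup.mem_zpowers_iff.1 hy
            rw [← conj_zpow]
            exact Subgroup.zpow_mem _ (hNx g hg) m
          · intro y hy
            rcases hstr y hy with h5 | h5
            · exact ⟨y, h5, 1, Subgroup.one_mem _, (mul_one y).symm⟩
            · exact ⟨y * i, h5, i, Subgroup.mem_zpowers i, by rw [mul_assoc, hii, mul_one]⟩
          · rw [Subgroup.eq_bot_iff_forall]
            intro y hy
            have h5 := (mem_zpowers_two hi).1 hy.2
            rcases h5 with h5 | h5
            · exact h5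
            · exact absurd (h5 ▸ hy.1) hix
        · intro a ha b hb
          obtain ⟨m, rfl⟩ := Subgroup.mem_zpowers_iff.1 ha
          obtain ⟨n, rfl⟩ := Subgroup.mem_zpowers_iff.1 hb
          rw [← zpow_add, ← zpow_add, add_comm]
        · exact finite_zpowers.2 (orderOf_pos_iff.1 (by rw [hi]; norm_num))
        · rw [Nat.card_zpowers, hi]
          exact even_two
  · -- condition 5
    intro c hc hci
    have hne : c * i ≠ i := by
      intro h1
      apply hc
      have : c = 1 := by simpa using h1
      rw [this]; exact Subgroup.one_mem _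
    obtain ⟨h1, h2⟩ := h.odd hci hi hne
    have e1 : c * i * i = c := by rw [mul_assoc, hii, mul_one]
    rw [e1] at h1 h2
    have h3 : i * c * i = c⁻¹ := by
      have h4 := inv_eq hci
      rw [mul_inv_rev, hinv] at h4
      rw [mul_assoc, ← h4, ← mul_assoc, hii, one_mul]
    obtain ⟨s, hsC, hs⟩ : ∃ s ∈ Subgroup.centralizer ({i} : Set G), s ∉ ({1, i} : Set G) :=
      hCinf.exists_notMem_finite (Set.toFinite _)
    have hsi : Commute s i := (mC s).1 hsC
    refine ⟨s, hsC, fun hfin => ?_⟩
    have hci' : ∀ x ∈ Subgroup.closure {c, s⁻¹ * c * s},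
        i * x * i ∈ Subgroup.closure {c, s⁻¹ * c * s} := by
      intro x hx
      induction hx using Subgroup.closure_induction with
      | mem x hx =>
        rcases hx with rfl | hx
        · rw [h3]
          exact Subgroup.inv_mem _ (Subgroup.subset_closure (by simp))
        · rw [Set.mem_singleton_iff] at hx
          have e2 : i * x * i = x⁻¹ := by
            have hsi' : s * i = i * s := hsi
            have hsi2 : s⁻¹ * i = i * s⁻¹ := hsi.inv_left
            rw [hx]
            calc i * (s⁻¹ * c * s) * i = (i * s⁻¹) * c * (s * i) := by group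
              _ = s⁻¹ * (i * c * i) * s := by rw [← hsi2, hsi']; group
              _ = (s⁻¹ * c * s)⁻¹ := by rw [h3]; group
          rw [e2]
          exact Subgroup.inv_mem _ (Subgroup.subset_closure (by simp [hx]))
      | one =>
        rw [mul_one, hii]; exact Subgroup.one_mem _
      | mul x y _ _ hx hy =>
        have e2 : i * (x * y) * i = (i * x * i) * (i * y * i) := by
          have : (i * x * i) * (i * y * i) = i * x * (i * i) * y * i := by group
          rw [this, hii, mul_one]; group
        rw [e2]; exact Subgroup.mul_mem _ hx hy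
      | inv x _ hx =>
        have e2 : i * x⁻¹ * i = (i * x * i)⁻¹ := by
          rw [mul_inv_rev, mul_inv_rev, hinv, mul_assoc]
        rw [e2]; exact Subgroup.inv_mem _ hx
    have hLfin := LL_fin (hi := hii) (hK := hci') hfin
    set L := LL (Subgroup.closure {c, s⁻¹ * c * s}) i hii hci' with hLdef
    have hiL : i ∈ L := Or.inr (by rw [hii]; exact Subgroup.one_mem _)
    have hcL : c ∈ L := Or.inl (Subgroup.subset_closure (by simp))
    have hcL' : s⁻¹ * c * s ∈ L := Or.inl (Subgroup.subset_closure (by simp))
    rcases h.struct (fin_order hLfin) hi hiL with h4 | ⟨x, hxL, k1, k2, k3, k4⟩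
    · rcases h4 c hcL with h5 | h5
      · apply hc; rw [h5]; exact Subgroup.one_mem _
      · apply h2; rw [h5, hi]
    · have hc1 : c ≠ 1 := by
        intro h5
        rw [h5, orderOf_one] at h1
        exact Nat.not_prime_one h1
      have h5 : c ∈ Subgroup.zpowers x := by
        rcases k4 c hcL with h5 | h5
        · exact h5
        · exact absurd (refl_sq hi k3 h5) (sq_ne h1 h2)
      have h6 : s⁻¹ * c * s ∈ Subgroup.zpowers x := by
        rcases k4 _ hcL' with h6 | h6
        · exact h6
        · have h7 : orderOf (s⁻¹ * c * s) = orderOf c := by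
            have := order_conj s⁻¹ c
            rwa [inv_inv] at this
          exact absurd (refl_sq hi k3 h6) (sq_ne (by rw [h7]; exact h1) (by rw [h7]; exact h2))
      have h7 : Subgroup.zpowers x ≤ Subgroup.zpowers c :=
        Subgroup.zpowers_le.2 (gen_of_prime k1 h5 hc1)
      have h8 : IsOfFinOrder s⁻¹ := by
        apply h.norm_fin h1 h2
        rw [inv_inv]
        exact h7 h6
      rw [isOfFinOrder_inv_iff] at h8
      apply hs
      rcases h.c1 hi h8 hsi with h9 | h9
      · left; exact h9
      · right; exact h9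

end Pool.Agent.TH68
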