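import Pool.Agent.TH68.Defs

set_option autoImplicit false

/-! The free product of three groups of order two, as reduced words. -/

namespace Pool.Agent.TH68

open Pool.Agent.Helper97.Hyp

namespace Start

/-- multiplication of a word by a letter on the left -/
def consL (s : Fin 3) : List (Fin 3) → List (Fin 3)
  | [] => [s]
  | t :: l => if s = t then l else s :: t :: l

/-- reduced -/
abbrev Rd (w : List (Fin 3)) : Prop := w.IsChain (· ≠ ·)

lemma consL_red {s : Fin 3} {w : List (Fin 3)} (h : Rd w) : Rd (consL s w) := by
  cases w with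
  | nil => simp [consL, Rd]
  | cons t l =>
    simp only [consL]
    split_ifs with hs
    · exact h.tail
    · exact List.isChain_cons_cons.2 ⟨hs, h⟩

lemma consL_consL {s : Fin 3} {w : List (Fin 3)} (h : Rd w) : consL s (consL s w) = w := by
  cases w with
  | nil => simp [consL]
  | cons t l =>
    by_cases hs : s = t
    · subst hs
      cases l with
      | nil => simp [consL]
      | cons r l' =>
        have h1 : s ≠ r := (List.isChain_cons_cons.1 h).1
        simp [consL, h1]
    · simp [consL, hs]

lemma consL_of_red {s : Fin 3} {w : List (Fin 3)} (h : Rd (s :: w)) : consL s w = s :: w := by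
  cases w with
  | nil => rfl
  | cons t l =>
    have h1 : s ≠ t := (List.isChain_cons_cons.1 h).1
    simp [consL, h1]

/-- action of words -/
def act (u w : List (Fin 3)) : List (Fin 3) := u.foldr consL w

lemma act_nil (w : List (Fin 3)) : act [] w = w := rfl

lemma act_cons (s : Fin 3) (u w : List (Fin 3)) : act (s :: u) w = consL s (act u w) := rfl

lemma act_append (u v w : List (Fin 3)) : act (u ++ v) w = act u (act v w) := by
  simp [act, List.foldr_append]

lemma act_red {u w : List (Fin 3)} (h : Rd w) : Rd (act u w) := by
  induction u with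
  | nil => exact h
  | cons s u ih => exact consL_red ih

lemma act_consL {s : Fin 3} {u w : List (Fin 3)} (h : Rd w) :
    act (consL s u) w = consL s (act u w) := by
  cases u with
  | nil => rfl
  | cons t l =>
    by_cases hs : s = t
    · subst hs
      rw [act_cons, consL_consL (act_red h)]
      simp [consL]
    · simp only [consL, hs, if_false]
      rfl

lemma act_act {u v w : List (Fin 3)} (h : Rd w) : act (act u v) w = act u (act v w) := by
  induction u with
  | nil => rfl
  | cons s u ih => rw [act_cons, act_consL h, ih, act_cons]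

lemma act_of_red {u w : List (Fin 3)} (h : Rd (u ++ w)) : act u w = u ++ w := by
  induction u with
  | nil => rfl
  | cons s u ih =>
    rw [act_cons, ih h.tail]
    exact consL_of_red h

lemma act_reverse_act {u w : List (Fin 3)} (h : Rd w) : act u.reverse (act u w) = w := by
  induction u with
  | nil => rfl
  | cons s u ih =>
    rw [List.reverse_cons, act_append, act_cons, act_nil, act_cons, consL_consL (act_red h), ih]

lemma act_nil_right {u : List (Fin 3)} (h : Rd u) : act u [] = u := by
  have := act_of_red (u := u) (w := []) (by rwa [List.append_nil])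
  rwa [List.append_nil] at this

lemma length_consL (s : Fin 3) (w : List (Fin 3)) : (consL s w).length ≤ w.length + 1 := by
  cases w with
  | nil => simp [consL]
  | cons t l =>
    simp only [consL]
    split_ifs
    · simp only [List.length_cons]; omega
    · simp

lemma length_act (u w : List (Fin 3)) : (act u w).length ≤ u.length + w.length := by
  induction u with
  | nil => simp [act]
  | cons s u ih =>
    have := length_consL s (act u w)
    rw [act_cons, List.length_cons]
    omega

lemma red_reverse {w : List (Fin 3)} (h : Rd w) : Rd w.reverse := by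
  rw [Rd, List.isChain_reverse]
  exact h.imp (fun a b hab => hab.symm)

/-- the free product of three groups of order two -/
structure G : Type where
  /-- the word -/
  val : List (Fin 3)
  property : Rd val

lemma G_ext {a b : G} (h : a.1 = b.1) : a = b := by
  cases a; cases b; cases h; rfl

instance : Countable G := Function.Injective.countable (f := G.val) (fun _ _ h => G_ext h)

instance : Group G where
  mul a b := ⟨act a.1 b.1, act_red b.2⟩
  one := ⟨[], List.isChain_nil⟩
  inv a := ⟨a.1.reverse, red_reverse a.2⟩
  mul_assoc a b c := G_ext (act_act c.2)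
  one_mul a := G_ext rfl
  mul_one a := G_ext (act_nil_right a.2)
  inv_mul_cancel a := G_ext (by
    have h := act_reverse_act (u := a.1) (w := []) List.isChain_nil
    rwa [act_nil_right a.2] at h)

lemma mul_val (a b : G) : (a * b).1 = act a.1 b.1 := rfl

lemma one_val : (1 : G).1 = [] := rfl

lemma inv_val (a : G) : (a⁻¹).1 = a.1.reverse := rfl

/-- length of the common prefix -/
def cp : List (Fin 3) → List (Fin 3) → ℕ
  | a :: l, b :: m => if a = b then cp l m + 1 else 0
  | [], _ => 0
  | _ :: _, [] => 0

lemma cp_ultra : ∀ x y z : List (Fin 3), min (cp x y) (cp y z) ≤ cp x z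
  | [], y, z => by cases y <;> simp [cp]
  | a :: l, [], z => by simp [cp]
  | a :: l, b :: m, [] => by simp [cp]
  | a :: l, b :: m, c :: n => by
    have ih := cp_ultra l m n
    by_cases h1 : a = b
    · subst h1
      by_cases h2 : a = c
      · subst h2
        simp only [cp, if_true]
        omega
      · simp [cp, h2]
    · simp [cp, h1]

lemma cp_comm : ∀ x y : List (Fin 3), cp x y = cp y x
  | [], y => by cases y <;> simp [cp]
  | a :: l, [] => by simp [cp]
  | a :: l, b :: m => by
    have ih := cp_comm l m
    by_cases h1 : a = b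
    · subst h1; simp [cp, ih]
    · simp [cp, h1, Ne.symm h1]

lemma length_cp (u v : List (Fin 3)) (hu : Rd u) (hv : Rd v) :
    (act u.reverse v).length + 2 * cp u v = u.length + v.length := by
  induction u generalizing v with
  | nil => simp [act, cp]
  | cons s u ih =>
    cases v with
    | nil =>
      rw [act_nil_right (red_reverse hu)]
      simp [cp]
    | cons t v =>
      by_cases hs : s = t
      · subst hs
        have h1 := ih v hu.tail hv.tail
        rw [List.reverse_cons, act_append, act_cons, act_nil]
        simp only [consL, cp, if_true, List.length_cons]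
        omega
      · have h1 : Rd ((s :: u).reverse ++ (t :: v)) := by
          rw [Rd, List.isChain_append]
          refine ⟨red_reverse hu, hv, ?_⟩
          intro x hx y hy
          rw [List.getLast?_reverse, List.head?_cons] at hx
          rw [List.head?_cons] at hy
          simp only [Option.mem_def, Option.some.injEq] at hx hy
          rw [← hx, ← hy]
          exact hs
        rw [act_of_red h1]
        simp only [cp, hs, if_false, List.length_append, List.length_reverse]
        omega

/-- the word norm -/
def W : WNorm G where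
  ℓ g := g.1.length
  one' := rfl
  eq_one g h := G_ext (List.length_eq_zero_iff.1 h)
  inv' g := by simp [inv_val]
  mul_le g h := length_act _ _
  geod g k hk := by
    have hg : Rd (g.1.take k ++ g.1.drop k) := by rw [List.take_append_drop]; exact g.2
    have h1 := (List.isChain_append.1 hg)
    refine ⟨⟨g.1.take k, h1.1⟩, ⟨g.1.drop k, h1.2.1⟩, ?_, ?_, ?_⟩
    · apply G_ext
      rw [mul_val]
      change act (g.1.take k) (g.1.drop k) = g.1
      rw [act_of_red hg, List.take_append_drop]
    · simp [List.length_take, hk]
    · simp only [List.length_drop]; omega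
  fin r := by
    have h := List.finite_length_le (Fin 3) r
    exact Set.Finite.preimage (f := fun g : G => g.1) (fun a _ b _ hab => G_ext hab) h

lemma hyp : HypGroup G := by
  refine ⟨W, 0, ?_⟩
  intro x y z w
  have key : ∀ a b : Pt W, dist a b + 2 * (cp (w.out⁻¹ * a.out).1 (w.out⁻¹ * b.out).1 : ℝ)
      = ((w.out⁻¹ * a.out).1.length : ℝ) + ((w.out⁻¹ * b.out).1.length : ℝ) := by
    intro a b
    have h := length_cp (w.out⁻¹ * a.out).1 (w.out⁻¹ * b.out).1 (w.out⁻¹ * a.out).2
      (w.out⁻¹ * b.out).2
    have h2 : dist a b = ((act (w.out⁻¹ * a.out).1.reverse (w.out⁻¹ * b.out).1).length : ℝ) := by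
      rw [dist_def]
      have h3 : a.out⁻¹ * b.out = (w.out⁻¹ * a.out)⁻¹ * (w.out⁻¹ * b.out) := by group
      rw [h3]
      rfl
    rw [h2]
    exact_mod_cast h
  have hw : ∀ a : Pt W, dist a w = ((w.out⁻¹ * a.out).1.length : ℝ) := by
    intro a
    rw [dist_comm, dist_def]
    rfl
  have h1 := key x y
  have h2 := key x z
  have h3 := key y z
  rw [hw z, hw y, hw x]
  have h4 := cp_ultra (w.out⁻¹ * x.out).1 (w.out⁻¹ * z.out).1 (w.out⁻¹ * y.out).1
  rw [cp_comm (w.out⁻¹ * z.out).1 (w.out⁻¹ * y.out).1] at h4
  have h5 : min (cp (w.out⁻¹ * x.out).1 (w.out⁻¹ * z.out).1 : ℝ)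
      (cp (w.out⁻¹ * y.out).1 (w.out⁻¹ * z.out).1 : ℝ) ≤
      (cp (w.out⁻¹ * x.out).1 (w.out⁻¹ * y.out).1 : ℝ) := by
    exact_mod_cast h4
  rcases min_le_iff.1 h5 with h6 | h6
  · refine le_trans ?_ (add_le_add_left (le_max_left _ _) _)
    linarith
  · refine le_trans ?_ (add_le_add_left (le_max_right _ _) _)
    linarith

/-- the generators -/
def gen (s : Fin 3) : G := ⟨[s], List.isChain_singleton _⟩

lemma gen_val (s : Fin 3) : (gen s).1 = [s] := rfl

lemma gen_mul_gen (s : Fin 3) : gen s * gen s = 1 := by
  apply G_ext
  rw [mul_val, gen_val, act_cons, act_nil]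
  simp [consL, one_val]

lemma gen_inv (s : Fin 3) : (gen s)⁻¹ = gen s := inv_eq_of_mul_eq_one_left (gen_mul_gen s)

lemma gen_ne_one (s : Fin 3) : gen s ≠ 1 := by
  intro h
  have := congrArg G.val h
  rw [gen_val, one_val] at this
  simp at this

lemma order_gen (s : Fin 3) : orderOf (gen s) = 2 :=
  orderOf_eq_prime (by rw [pow_two, gen_mul_gen]) (gen_ne_one s)

lemma gen_mul_val (s : Fin 3) (x : G) : (gen s * x).1 = consL s x.1 := rfl

lemma pow_val (x : G) (hx : Rd (x.1 ++ x.1)) (n : ℕ) : (x ^ (n + 1)).1 = x.1 ++ (x ^ n).1 := by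
  induction n with
  | zero => simp [one_val]
  | succ n ih =>
    rw [pow_succ', mul_val]
    apply act_of_red
    by_cases hn : x.1 = []
    · rw [hn, List.nil_append]; exact (x ^ (n + 1)).2
    · have h2 := List.isChain_append.1 hx
      rw [Rd, List.isChain_append]
      refine ⟨h2.1, (x ^ (n + 1)).2, ?_⟩
      intro a ha b hb
      apply h2.2.2 a ha b
      rw [ih, List.head?_append] at hb
      cases hx1 : x.1 with
      | nil => exact absurd hx1 hn
      | cons c l =>
        rw [hx1] at hb
        simpa using hb

lemma pow_len (x : G) (hx : Rd (x.1 ++ x.1)) (n : ℕ) : (x ^ n).1.length = n * x.1.length := by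
  induction n with
  | zero => simp [one_val]
  | succ n ih => rw [pow_val x hx, List.length_append, ih]; ring

lemma inf_of_red (x : G) (hx : Rd (x.1 ++ x.1)) (h1 : x ≠ 1) : ¬ IsOfFinOrder x := by
  intro h
  obtain ⟨n, hn, h2⟩ := isOfFinOrder_iff_pow_eq_one.1 h
  have h3 := pow_len x hx n
  rw [h2, one_val] at h3
  simp only [List.length_nil] at h3
  rcases Nat.mul_eq_zero.1 h3.symm with h4 | h4
  · omega
  · exact h1 (G_ext (List.length_eq_zero_iff.1 h4))

lemma conj_of_fin (n : ℕ) : ∀ x : G, x.1.length ≤ n → IsOfFinOrder x →
    x = 1 ∨ ∃ (u : G) (s : Fin 3), x = u * gen s * u⁻¹ := by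
  induction n with
  | zero =>
    intro x hx _
    exact Or.inl (G_ext (List.length_eq_zero_iff.1 (Nat.le_zero.1 hx)))
  | succ n ih =>
    intro x hx hfin
    cases hx1 : x.1 with
    | nil => exact Or.inl (G_ext hx1)
    | cons s l =>
      rcases List.eq_nil_or_concat' l with h1 | ⟨m, t, h1⟩
      · subst h1
        refine Or.inr ⟨1, s, ?_⟩
        rw [one_mul, inv_one, mul_one]
        exact G_ext hx1
      · subst h1
        have hred : Rd (s :: (m ++ [t])) := by rw [← hx1]; exact x.2
        by_cases hst : s = t
        · subst hst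
          have hm : Rd m := (List.isChain_append.1 hred.tail).1
          let y : G := ⟨m, hm⟩
          have hxy : x = gen s * y * gen s := by
            apply G_ext
            rw [mul_assoc, gen_mul_val, mul_val, gen_val]
            have h2 : act y.1 [s] = m ++ [s] := act_of_red hred.tail
            rw [h2, consL_of_red hred, hx1]
          have hyx : y = gen s * x * (gen s)⁻¹ := by
            rw [hxy, gen_inv]
            calc y = 1 * y * 1 := by group
              _ = (gen s * gen s) * y * (gen s * gen s) := by rw [gen_mul_gen]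
              _ = _ := by simp only [mul_assoc]
          have hyf : IsOfFinOrder y := by
            rw [hyx]
            exact (MulAut.conj (gen s)).toMonoidHom.isOfFinOrder hfin
          have hlen : y.1.length ≤ n := by
            have h3 : (s :: (m ++ [s])).length ≤ n + 1 := by rw [← hx1]; exact hx
            simp only [List.length_cons, List.length_append] at h3
            change m.length ≤ n
            omega
          rcases ih y hlen hyf with h4 | ⟨u, r, h4⟩
          · left
            rw [hxy, h4, mul_one, gen_mul_gen]
          · right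
            refine ⟨gen s * u, r, ?_⟩
            rw [hxy, h4, mul_inv_rev, gen_inv]
            group
        · exfalso
          refine inf_of_red x ?_ ?_ hfin
          · rw [Rd, List.isChain_append]
            refine ⟨x.2, x.2, ?_⟩
            intro a ha b hb
            rw [hx1] at ha hb
            rw [List.head?_cons] at hb
            have h5 : (s :: (m ++ [t])).getLast? = some t := by
              rw [← List.cons_append, List.getLast?_append]
              simp
            rw [h5] at ha
            simp only [Option.mem_def, Option.some.injEq] at ha hb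
            rw [← ha, ← hb]
            exact Ne.symm hst
          · intro h5
            rw [h5, one_val] at hx1
            simp at hx1

lemma cent_gen_aux (s : Fin 3) (x : G) (h : gen s * x = x * gen s)
    (hx : Rd (s :: x.1)) : x = 1 := by
  have h1 : (gen s * x).1 = s :: x.1 := by rw [gen_mul_val, consL_of_red hx]
  have h2 : (x * gen s)⁻¹ = gen s * x⁻¹ := by rw [mul_inv_rev, gen_inv]
  have h3 : (x * gen s).1.reverse = consL s x.1.reverse := by
    rw [← inv_val, h2, gen_mul_val, inv_val]
  rw [← h, h1] at h3
  by_contra hne
  have hne' : x.1 ≠ [] := fun h4 => hne (G_ext h4)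
  rcases List.eq_nil_or_concat' x.1 with h4 | ⟨m, t, h4⟩
  · exact hne' h4
  · rw [h4] at h3
    rw [List.reverse_append] at h3
    simp only [List.reverse_cons, List.reverse_nil, List.nil_append, List.reverse_append,
      List.cons_append] at h3
    simp only [consL] at h3
    split_ifs at h3 with h5
    · have := congrArg List.length h3
      simp only [List.length_cons, List.length_append, List.length_reverse,
        List.length_nil] at this
      omega
    · have h6 := congrArg List.reverse h3
      simp only [List.reverse_cons, List.reverse_append, List.reverse_reverse, List.reverse_nil,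
        List.nil_append, List.append_assoc, List.cons_append] at h6
      cases m with
      | nil =>
        simp at h6
        exact h5 h6.1
      | cons a m' =>
        simp only [List.cons_append, List.cons.injEq] at h6
        rw [h4] at hx
        have := (List.isChain_cons_cons.1 hx).1
        exact this h6.1

lemma cent_gen (s : Fin 3) (x : G) (h : Commute x (gen s)) : x = 1 ∨ x = gen s := by
  cases hx : x.1 with
  | nil => exact Or.inl (G_ext hx)
  | cons t l =>
    by_cases hst : s = t
    · subst hst
      right
      have h1 : gen s * x = 1 := by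
        apply cent_gen_aux s
        · have := h.eq
          rw [mul_assoc, ← this]
        · rw [gen_mul_val, hx]
          simp only [consL, if_true]
          rw [← hx]
          exact x.2
      have h2 := eq_inv_of_mul_eq_one_right h1
      rw [h2, gen_inv]
    · left
      apply cent_gen_aux s x h.eq.symm
      rw [hx]
      refine List.isChain_cons_cons.2 ⟨hst, ?_⟩
      rw [← hx]
      exact x.2

lemma cent_conj (s : Fin 3) (u x : G) (h : Commute x (u * gen s * u⁻¹)) :
    x = 1 ∨ x = u * gen s * u⁻¹ := by
  have h1 : Commute (u⁻¹ * x * u) (gen s) := by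
    have h2 := h.eq
    change u⁻¹ * x * u * gen s = gen s * (u⁻¹ * x * u)
    calc u⁻¹ * x * u * gen s = u⁻¹ * (x * (u * gen s * u⁻¹)) * u := by group
      _ = u⁻¹ * (u * gen s * u⁻¹ * x) * u := by rw [h2]
      _ = _ := by group
  rcases cent_gen s _ h1 with h2 | h2
  · left
    calc x = u * (u⁻¹ * x * u) * u⁻¹ := by group
      _ = 1 := by rw [h2]; group
  · right
    calc x = u * (u⁻¹ * x * u) * u⁻¹ := by group
      _ = _ := by rw [h2]

lemma order_conj (s : Fin 3) (u : G) : orderOf (u * gen s * u⁻¹) = 2 := by
  apply orderOf_eq_prime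
  · rw [pow_two]
    calc u * gen s * u⁻¹ * (u * gen s * u⁻¹) = u * (gen s * gen s) * u⁻¹ := by group
      _ = 1 := by rw [gen_mul_gen]; group
  · intro h
    apply gen_ne_one s
    calc gen s = u⁻¹ * (u * gen s * u⁻¹) * u := by group
      _ = 1 := by rw [h]; group

lemma kgrp : KGrp G where
  hyp := hyp
  ord x hx := by
    rcases conj_of_fin _ x le_rfl hx with h | ⟨u, s, h⟩
    · exact Or.inl h
    · right
      rw [h, order_conj]
      exact Nat.prime_two
  cent x hx h2 := by
    exfalso
    have hf : IsOfFinOrder x := orderOf_pos_iff.1 hx.pos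
    rcases conj_of_fin _ x le_rfl hf with h | ⟨u, s, h⟩
    · rw [h, orderOf_one] at hx
      exact Nat.not_prime_one hx
    · rw [h, order_conj] at h2
      exact h2 rfl
  inv a b ha hb hab := by
    have hf : IsOfFinOrder a := orderOf_pos_iff.1 (by rw [ha]; norm_num)
    rcases conj_of_fin _ a le_rfl hf with h | ⟨u, s, h⟩
    · rw [h, orderOf_one] at ha
      norm_num at ha
    · rw [h] at hab
      rcases cent_conj s u b hab.symm with h1 | h1
      · rw [h1, orderOf_one] at hb
        norm_num at hb
      · rw [h, h1]

/-- homomorphisms out of the group -/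
def lift {H : Type*} [Group H] (f : Fin 3 → H) (hf : ∀ s, f s * f s = 1) : G →* H where
  toFun w := (w.1.map f).prod
  map_one' := rfl
  map_mul' a b := by
    have h1 : ∀ (s : Fin 3) (w : List (Fin 3)), ((consL s w).map f).prod = f s * (w.map f).prod := by
      intro s w
      cases w with
      | nil => simp [consL]
      | cons t l =>
        by_cases hs : s = t
        · subst hs
          simp only [consL, if_true, List.map_cons, List.prod_cons, ← mul_assoc, hf, one_mul]
        · simp [consL, hs]
    have h2 : ∀ u w : List (Fin 3), ((act u w).map f).prod = (u.map f).prod * (w.map f).prod := by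
      intro u w
      induction u with
      | nil => simp [act]
      | cons s u ih => rw [act_cons, h1, ih, List.map_cons, List.prod_cons, mul_assoc]
    exact h2 _ _

lemma lift_gen {H : Type*} [Group H] (f : Fin 3 → H) (hf : ∀ s, f s * f s = 1) (s : Fin 3) :
    lift f hf (gen s) = f s := by
  change ([s].map f).prod = f s
  simp

lemma closure_gen : Subgroup.closure ({gen 0, gen 1, gen 2} : Set G) = ⊤ := by
  rw [eq_top_iff]
  have h : ∀ (l : List (Fin 3)) (hl : Rd l),
      (⟨l, hl⟩ : G) ∈ Subgroup.closure ({gen 0, gen 1, gen 2} : Set G) := by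
    intro l
    induction l with
    | nil => intro hl; exact one_mem _
    | cons s l ih =>
      intro hl
      have h1 : (⟨s :: l, hl⟩ : G) = gen s * ⟨l, hl.tail⟩ := by
        apply G_ext
        rw [gen_mul_val]
        exact (consL_of_red hl).symm
      rw [h1]
      refine mul_mem (Subgroup.subset_closure ?_) (ih hl.tail)
      fin_cases s <;> simp
  intro x _
  exact h x.1 x.2

lemma ijk_val : (gen 0 * gen 1 * gen 2).1 = [0, 1, 2] := by
  rw [mul_val, mul_val, gen_val, gen_val, gen_val]
  rfl

lemma ij_val : (gen 0 * gen 1).1 = [0, 1] := by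
  rw [mul_val, gen_val, gen_val]
  rfl

lemma ijk_inf : ¬ IsOfFinOrder (gen 0 * gen 1 * gen 2) := by
  apply inf_of_red
  · rw [ijk_val]
    decide
  · intro h
    have := congrArg G.val h
    rw [ijk_val, one_val] at this
    simp at this

lemma ij_inf : ¬ IsOfFinOrder (gen 0 * gen 1) := by
  apply inf_of_red
  · rw [ij_val]
    decide
  · intro h
    have := congrArg G.val h
    rw [ij_val, one_val] at this
    simp at this

lemma tors_comm (x : G) (n : ℤ) (hn : n ≠ 0) (hx : IsOfFinOrder x)
    (hc : Commute x ((gen 0 * gen 1 * gen 2) ^ n)) : x = 1 := by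
  rcases conj_of_fin _ x le_rfl hx with h | ⟨u, s, h⟩
  · exact h
  · exfalso
    rw [h] at hc
    have h3 : ∃ m : ℤ, m ≠ 0 ∧ (gen 0 * gen 1 * gen 2 : G) ^ m = 1 := by
      rcases cent_conj s u _ hc.symm with h1 | h1
      · exact ⟨n, hn, h1⟩
      · refine ⟨n * 2, by omega, ?_⟩
        rw [zpow_mul, h1]
        have h4 := pow_orderOf_eq_one (u * gen s * u⁻¹)
        rw [order_conj] at h4
        exact_mod_cast h4
    exact ijk_inf (isOfFinOrder_iff_zpow_eq_one.2 h3)

/-- the images in the infinite dihedral group -/
def dih : Fin 3 → Equiv.Perm ℤ := ![Equiv.neg ℤ, Equiv.subLeft 1, Equiv.neg ℤ]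

lemma dih_sq (s : Fin 3) : dih s * dih s = 1 := by
  fin_cases s <;> (ext x; simp [dih, Equiv.Perm.mul_apply])

lemma not_comm (h : G) (m n : ℤ)
    (he : (gen 0 * gen 1) ^ m = h * (gen 0 * gen 1 * gen 2) ^ n * h⁻¹) : m = 0 := by
  set φ := lift dih dih_sq with hφ
  have h0 : φ (gen 0) = Equiv.neg ℤ := lift_gen _ _ _
  have h1 : φ (gen 1) = Equiv.subLeft 1 := lift_gen _ _ _
  have h2 : φ (gen 2) = Equiv.neg ℤ := lift_gen _ _ _
  have hij : φ (gen 0 * gen 1) = Equiv.addRight (-1) := by
    rw [map_mul, h0, h1]
    ext x
    simp [Equiv.Perm.mul_apply]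
    ring
  have hijk : φ (gen 0 * gen 1 * gen 2) * φ (gen 0 * gen 1 * gen 2) = 1 := by
    rw [map_mul, map_mul, h0, h1, h2]
    ext x
    simp [Equiv.Perm.mul_apply]
  have he2 : φ (gen 0 * gen 1) ^ (2 * m) = 1 := by
    have h3 : (gen 0 * gen 1 : G) ^ (2 * m) = h * (gen 0 * gen 1 * gen 2) ^ (2 * n) * h⁻¹ := by
      rw [two_mul, zpow_add, he, two_mul, zpow_add]
      group
    have h4 := congrArg φ h3
    rw [map_mul, map_mul, map_zpow, map_zpow, map_inv] at h4
    rw [h4, zpow_mul]
    have h5 : φ (gen 0 * gen 1 * gen 2) ^ (2 : ℤ) = 1 := by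
      rw [zpow_two, hijk]
    rw [h5, one_zpow, mul_one, mul_inv_cancel]
  rw [hij] at he2
  have hp : ∀ (n : ℕ) (x : ℤ), ((Equiv.addRight (-1) : Equiv.Perm ℤ) ^ n) x = x - n := by
    intro n
    induction n with
    | zero => intro x; simp
    | succ n ih =>
      intro x
      rw [pow_succ', Equiv.Perm.mul_apply, ih]
      simp only [Equiv.coe_addRight]
      push_cast
      ring
  by_contra hm
  obtain ⟨n, hn, h7⟩ := isOfFinOrder_iff_pow_eq_one.1
    (isOfFinOrder_iff_zpow_eq_one.2 ⟨2 * m, by omega, he2⟩)
  have h8 := hp n 0
  rw [h7, Equiv.Perm.one_apply] at h8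
  omega

end Start

theorem start : ∃ (Γ : Type) (_ : Group Γ), Countable Γ ∧ KGrp Γ ∧ ∃ i j k : Γ,
    orderOf i = 2 ∧ orderOf j = 2 ∧ orderOf k = 2 ∧
    Subgroup.closure ({i, j, k} : Set Γ) = ⊤ ∧ ¬ IsOfFinOrder (i * j * k) ∧
    (∀ (x : Γ) (n : ℤ), n ≠ 0 → IsOfFinOrder x → Commute x ((i * j * k) ^ n) → x = 1) ∧
    ¬ IsOfFinOrder (i * j) ∧
    ∀ (h : Γ) (m n : ℤ), (i * j) ^ m = h * (i * j * k) ^ n * h⁻¹ → m = 0 :=
  ⟨Start.G, inferInstance, inferInstance, Start.kgrp, Start.gen 0, Start.gen 1, Start.gen 2,
    Start.order_gen 0, Start.order_gen 1, Start.order_gen 2, Start.closure_gen, Start.ijk_inf,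
    Start.tors_comm, Start.ij_inf, Start.not_comm⟩

end Pool.Agent.TH68
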