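import Pool.Agent.TH68.Limit
import Pool.Agent.TH68.Alg
import Pool.Agent.TH68.Start

set_option autoImplicit false
set_option linter.unusedSectionVars false

/-! The limit group. -/

namespace Pool.Agent.TH68

open Pool.Agent.Helper97.Hyp

lemma exists_enum (α : Type*) [Countable α] [Nonempty α] :
    ∃ f : ℕ → α, ∀ a n, ∃ m, n ≤ m ∧ f m = a := by
  obtain ⟨e, he⟩ := exists_surjective_nat α
  refine ⟨fun n => e (Nat.unpair n).1, fun a n => ?_⟩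
  obtain ⟨k, rfl⟩ := he a
  exact ⟨Nat.pair k n, Nat.right_le_pair k n, by simp⟩

namespace St

variable {Γ : Type*} [Group Γ] {L : Set Γ} {p q : ℕ} {i y z : Γ}

/-- the sequence of stages -/
noncomputable def seq (hD : Dat L p q i y z) (S₀ : St L p q i y z) (f : ℕ → Γ × Γ × Γ) :
    ℕ → St L p q i y z
  | 0 => S₀
  | n + 1 => Classical.choose ((seq hD S₀ f n).task hD (f n).1 (f n).2.1 (f n).2.2)

lemma seq_spec (hD : Dat L p q i y z) (S₀ : St L p q i y z) (f : ℕ → Γ × Γ × Γ) (n : ℕ) :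
    (seq hD S₀ f n).K ≤ (seq hD S₀ f (n + 1)).K ∧
      (orderOf ((f n).1 : Γ ⧸ (seq hD S₀ f n).K) = 2 →
        orderOf ((f n).2.1 : Γ ⧸ (seq hD S₀ f n).K) = 2 →
        (∃ k : ℕ, 0 < k ∧ ((f n).1 * (f n).2.1) ^ k ∈ (seq hD S₀ f (n + 1)).K) ∧
        ((f n).2.2 ∉ (seq hD S₀ f n).K → (f n).1 * (f n).2.1 ∈
          Subgroup.normalClosure {(f n).2.2} ⊔ (seq hD S₀ f (n + 1)).K)) :=
  Classical.choose_spec ((seq hD S₀ f n).task hD (f n).1 (f n).2.1 (f n).2.2)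

/-- properties of the limit -/
structure Lim (L : Set Γ) (K : Subgroup Γ) : Prop where
  normal : K.Normal
  hL : ∀ x ∈ L, x ∉ K
  ord : ∀ (x : Γ) (k : ℕ), 0 < k → x ^ k ∈ K → x ∈ K ∨ ∃ r : ℕ, r.Prime ∧ x ^ r ∈ K
  cent : ∀ (x : Γ) (r : ℕ), r.Prime → r ≠ 2 → x ^ r ∈ K → x ∉ K → ∀ y : Γ,
    x * y * x⁻¹ * y⁻¹ ∈ K → ∃ s : ℤ, y⁻¹ * x ^ s ∈ K
  inv : ∀ a b : Γ, a ^ 2 ∈ K → a ∉ K → b ^ 2 ∈ K → b ∉ K → a * b * a⁻¹ * b⁻¹ ∈ K →
    a⁻¹ * b ∈ K
  fin : ∀ a b : Γ, a ^ 2 ∈ K → a ∉ K → b ^ 2 ∈ K → b ∉ K → ∃ k : ℕ, 0 < k ∧ (a * b) ^ k ∈ K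
  simp : ∀ v a b : Γ, v ∉ K → a ^ 2 ∈ K → a ∉ K → b ^ 2 ∈ K → b ∉ K →
    a * b ∈ Subgroup.normalClosure {v} ⊔ K

theorem limit [Countable Γ] (hD : Dat L p q i y z) (S₀ : St L p q i y z) :
    ∃ K : Subgroup Γ, S₀.K ≤ K ∧ Lim L K := by
  obtain ⟨f, hf⟩ := exists_enum (Γ × Γ × Γ)
  set S := seq hD S₀ f with hS
  have hmono : Monotone (fun n => (S n).K) :=
    monotone_nat_of_le_succ fun n => (seq_spec hD S₀ f n).1
  set K : Subgroup Γ := ⨆ n, (S n).K with hK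
  have hdir : Directed (· ≤ ·) (fun n => (S n).K) := hmono.directed_le
  have hmem : ∀ x, x ∈ K ↔ ∃ n, x ∈ (S n).K := fun x => Subgroup.mem_iSup_of_directed hdir
  have hle : ∀ n, (S n).K ≤ K := fun n => le_iSup (fun n => (S n).K) n
  have hord2 : ∀ a : Γ, a ^ 2 ∈ K → a ∉ K → ∃ n₀, ∀ n, n₀ ≤ n →
      orderOf (a : Γ ⧸ (S n).K) = 2 := by
    intro a ha ha'
    obtain ⟨n₀, hn₀⟩ := (hmem _).mp ha
    refine ⟨n₀, fun n hn => ?_⟩
    apply orderOf_eq_prime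
    · rw [← QuotientGroup.mk_pow, mk_eq_one]
      exact hmono hn hn₀
    · rw [Ne, mk_eq_one]
      exact fun h => ha' (hle n h)
  have htask : ∀ a b v : Γ, ∀ n₀, ∃ n, n₀ ≤ n ∧
      (orderOf (a : Γ ⧸ (S n).K) = 2 → orderOf (b : Γ ⧸ (S n).K) = 2 →
        (∃ k : ℕ, 0 < k ∧ (a * b) ^ k ∈ (S (n + 1)).K) ∧
        (v ∉ (S n).K → a * b ∈ Subgroup.normalClosure {v} ⊔ (S (n + 1)).K)) := by
    intro a b v n₀
    obtain ⟨n, hn, hfn⟩ := hf (a, b, v) n₀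
    have h1 := (seq_spec hD S₀ f n).2
    rw [hfn] at h1
    exact ⟨n, hn, h1⟩
  refine ⟨K, hle 0, ?_⟩
  constructor
  · -- normality
    constructor
    intro n hn g
    obtain ⟨k, hk⟩ := (hmem _).mp hn
    exact hle k ((S k).normal.conj_mem n hk g)
  · intro x hx hxK
    obtain ⟨n, hn⟩ := (hmem _).mp hxK
    exact (S n).hL x hx hn
  · intro x k hk hxk
    obtain ⟨n, hn⟩ := (hmem _).mp hxk
    have h1 : IsOfFinOrder (x : Γ ⧸ (S n).K) := by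
      rw [isOfFinOrder_iff_pow_eq_one]
      exact ⟨k, hk, by rw [← QuotientGroup.mk_pow, mk_eq_one]; exact hn⟩
    rcases (S n).kgrp.ord _ h1 with h2 | h2
    · left
      exact hle n (mk_eq_one.mp h2)
    · right
      refine ⟨_, h2, hle n ?_⟩
      rw [← mk_eq_one, QuotientGroup.mk_pow, pow_orderOf_eq_one]
  · intro x r hr hr2 hxr hx y hxy
    obtain ⟨n₁, hn₁⟩ := (hmem _).mp hxr
    obtain ⟨n₂, hn₂⟩ := (hmem _).mp hxy
    set n := max n₁ n₂ with hn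
    have h1 : orderOf (x : Γ ⧸ (S n).K) = r := by
      have := Fact.mk hr
      apply orderOf_eq_prime
      · rw [← QuotientGroup.mk_pow, mk_eq_one]
        exact hmono (le_max_left _ _) hn₁
      · rw [Ne, mk_eq_one]
        exact fun h => hx (hle n h)
    have h2 : Commute (x : Γ ⧸ (S n).K) (y : Γ ⧸ (S n).K) := by
      have h3 : ((x * y * x⁻¹ * y⁻¹ : Γ) : Γ ⧸ (S n).K) = 1 :=
        mk_eq_one.mpr (hmono (le_max_right _ _) hn₂)
      rw [QuotientGroup.mk_mul, QuotientGroup.mk_mul, QuotientGroup.mk_mul, QuotientGroup.mk_inv,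
        QuotientGroup.mk_inv, mul_inv_eq_one, mul_inv_eq_iff_eq_mul] at h3
      exact h3
    obtain ⟨s, hs⟩ := (S n).kgrp.cent _ (by rw [h1]; exact hr) (by rw [h1]; exact hr2) _ h2
    have hs' : (x : Γ ⧸ (S n).K) ^ s = y := hs
    refine ⟨s, hle n ?_⟩
    rw [← mk_eq_iff, QuotientGroup.mk_zpow, hs']
  · intro a b ha ha' hb hb' hab
    obtain ⟨n₁, hn₁⟩ := hord2 a ha ha'
    obtain ⟨n₂, hn₂⟩ := hord2 b hb hb'
    obtain ⟨n₃, hn₃⟩ := (hmem _).mp hab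
    set n := max (max n₁ n₂) n₃ with hn
    have h2 : Commute (a : Γ ⧸ (S n).K) (b : Γ ⧸ (S n).K) := by
      have h3 : ((a * b * a⁻¹ * b⁻¹ : Γ) : Γ ⧸ (S n).K) = 1 :=
        mk_eq_one.mpr (hmono (le_max_right _ _) hn₃)
      rw [QuotientGroup.mk_mul, QuotientGroup.mk_mul, QuotientGroup.mk_mul, QuotientGroup.mk_inv,
        QuotientGroup.mk_inv, mul_inv_eq_one, mul_inv_eq_iff_eq_mul] at h3
      exact h3
    have h3 := (S n).kgrp.inv _ _ (hn₁ n (le_trans (le_max_left _ _) (le_max_left _ _)))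
      (hn₂ n (le_trans (le_max_right _ _) (le_max_left _ _))) h2
    exact hle n (mk_eq_iff.mp h3)
  · intro a b ha ha' hb hb'
    obtain ⟨n₁, hn₁⟩ := hord2 a ha ha'
    obtain ⟨n₂, hn₂⟩ := hord2 b hb hb'
    obtain ⟨n, hn, h1⟩ := htask a b 1 (max n₁ n₂)
    obtain ⟨⟨k, hk, hk1⟩, -⟩ := h1 (hn₁ n (le_trans (le_max_left _ _) hn))
      (hn₂ n (le_trans (le_max_right _ _) hn))
    exact ⟨k, hk, hle _ hk1⟩
  · intro v a b hv ha ha' hb hb'
    obtain ⟨n₁, hn₁⟩ := hord2 a ha ha'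
    obtain ⟨n₂, hn₂⟩ := hord2 b hb hb'
    obtain ⟨n, hn, h1⟩ := htask a b v (max n₁ n₂)
    obtain ⟨-, h2⟩ := h1 (hn₁ n (le_trans (le_max_left _ _) hn))
      (hn₂ n (le_trans (le_max_right _ _) hn))
    have h3 := h2 (fun h => hv (hle n h))
    exact (sup_le_sup_left (hle (n + 1)) _ : Subgroup.normalClosure {v} ⊔ (S (n + 1)).K ≤ _) h3

end St

/-- the quotient by the limit subgroup is a simple `T₀`-group -/
theorem of_lim {Γ : Type*} [Group Γ] {L : Set Γ} {K : Subgroup Γ} [K.Normal] (hK : St.Lim L K)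
    {i j k y : Γ} {p : ℕ} (hp : p.Prime) (hp2 : p ≠ 2) (hi : i ∈ L) (hj : j ∈ L) (hk : k ∈ L)
    (hyL : y ∈ L) (hi2 : i ^ 2 = 1) (hj2 : j ^ 2 = 1) (hk2 : k ^ 2 = 1) (hyp : y ^ p ∈ K)
    (hgen : Subgroup.closure ({i, j, k} : Set Γ) = ⊤) (hijk : (i * j * k) ^ p ∈ K) :
    IsSimpleGroup (Γ ⧸ K) ∧ IsT0 (Γ ⧸ K) (i : Γ ⧸ K) := by
  have ord2 : ∀ a : Γ, orderOf (a : Γ ⧸ K) = 2 ↔ a ^ 2 ∈ K ∧ a ∉ K := by
    intro a
    rw [orderOf_eq_prime_iff, ← QuotientGroup.mk_pow, mk_eq_one, Ne, mk_eq_one]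
  have mem2 : ∀ a : Γ, a ^ 2 = 1 → a ∈ L → orderOf (a : Γ ⧸ K) = 2 := by
    intro a ha haL
    rw [ord2]
    exact ⟨by rw [ha]; exact one_mem _, hK.hL a haL⟩
  have oi := mem2 i hi2 hi
  have oj := mem2 j hj2 hj
  have ok := mem2 k hk2 hk
  have comm_mem : ∀ a b : Γ, Commute (a : Γ ⧸ K) (b : Γ ⧸ K) → a * b * a⁻¹ * b⁻¹ ∈ K := by
    intro a b hab
    rw [← mk_eq_one, QuotientGroup.mk_mul, QuotientGroup.mk_mul, QuotientGroup.mk_mul,
      QuotientGroup.mk_inv, QuotientGroup.mk_inv, hab.eq]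
    group
  have oy : orderOf (y : Γ ⧸ K) = p := by
    have := Fact.mk hp
    apply orderOf_eq_prime
    · rw [← QuotientGroup.mk_pow, mk_eq_one]; exact hyp
    · rw [Ne, mk_eq_one]; exact hK.hL y hyL
  -- simplicity
  have hsimp : IsSimpleGroup (Γ ⧸ K) := by
    have hnt : Nontrivial (Γ ⧸ K) := by
      refine ⟨⟨(i : Γ ⧸ K), 1, ?_⟩⟩
      rw [Ne, mk_eq_one]; exact hK.hL i hi
    refine ⟨fun V hV => ?_⟩
    by_cases hV1 : V = ⊥
    · exact Or.inl hV1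
    right
    obtain ⟨⟨v', hv'⟩, hv1'⟩ := Subgroup.ne_bot_iff_exists_ne_one.mp hV1
    have hv1 : v' ≠ 1 := fun h => hv1' (Subtype.ext h)
    obtain ⟨v, rfl⟩ := QuotientGroup.mk_surjective v'
    have hvK : v ∉ K := fun h => hv1 (mk_eq_one.mpr h)
    have hprod : ∀ a b : Γ, orderOf (a : Γ ⧸ K) = 2 → orderOf (b : Γ ⧸ K) = 2 →
        (a : Γ ⧸ K) * (b : Γ ⧸ K) ∈ V := by
      intro a b ha hb
      obtain ⟨ha1, ha2⟩ := (ord2 a).mp ha
      obtain ⟨hb1, hb2⟩ := (ord2 b).mp hb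
      have h1 := hK.simp v a b hvK ha1 ha2 hb1 hb2
      have h2 : Subgroup.normalClosure {v} ⊔ K ≤ V.comap (QuotientGroup.mk' K) := by
        apply sup_le
        · apply Subgroup.normalClosure_le_normal
          rw [Set.singleton_subset_iff]
          exact hv'
        · intro x hx
          rw [Subgroup.mem_comap]
          have : QuotientGroup.mk' K x = 1 := mk_eq_one.mpr hx
          rw [this]; exact one_mem _
      exact h2 h1
    -- everything modulo `V`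
    have hij := hprod i j oi oj
    have hik := hprod i k oi ok
    have hq2 : ∀ a : Γ, orderOf (a : Γ ⧸ K) = 2 → (((a : Γ ⧸ K)) : (Γ ⧸ K) ⧸ V) ^ 2 = 1 := by
      intro a ha
      rw [← QuotientGroup.mk_pow, ← ha, pow_orderOf_eq_one]; rfl
    have hself : ∀ a : Γ, orderOf (a : Γ ⧸ K) = 2 →
        (((a : Γ ⧸ K)) : (Γ ⧸ K) ⧸ V)⁻¹ = ((a : Γ ⧸ K)) := by
      intro a ha
      rw [inv_eq_iff_mul_eq_one, ← pow_two]; exact hq2 a ha
    have eij : (((j : Γ ⧸ K)) : (Γ ⧸ K) ⧸ V) = ((i : Γ ⧸ K)) := by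
      have h1 : (((i : Γ ⧸ K) * (j : Γ ⧸ K) : Γ ⧸ K) : (Γ ⧸ K) ⧸ V) = 1 := mk_eq_one.mpr hij
      rw [QuotientGroup.mk_mul, mul_eq_one_iff_inv_eq, hself i oi] at h1
      exact h1.symm
    have eik : (((k : Γ ⧸ K)) : (Γ ⧸ K) ⧸ V) = ((i : Γ ⧸ K)) := by
      have h1 : (((i : Γ ⧸ K) * (k : Γ ⧸ K) : Γ ⧸ K) : (Γ ⧸ K) ⧸ V) = 1 := mk_eq_one.mpr hik
      rw [QuotientGroup.mk_mul, mul_eq_one_iff_inv_eq, hself i oi] at h1
      exact h1.symm
    have hi1 : (((i : Γ ⧸ K)) : (Γ ⧸ K) ⧸ V) = 1 := by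
      have h1 : ((((i * j * k) ^ p : Γ) : Γ ⧸ K) : (Γ ⧸ K) ⧸ V) = 1 := by
        rw [mk_eq_one.mpr hijk]; rfl
      have h2 : ((((i * j * k) ^ p : Γ) : Γ ⧸ K) : (Γ ⧸ K) ⧸ V) =
          ((((i : Γ ⧸ K)) : (Γ ⧸ K) ⧸ V) * ((j : Γ ⧸ K)) * ((k : Γ ⧸ K))) ^ p := by
        rw [← QuotientGroup.mk_mul, ← QuotientGroup.mk_mul, ← QuotientGroup.mk_mul,
          ← QuotientGroup.mk_mul, ← QuotientGroup.mk_pow, ← QuotientGroup.mk_pow]
      have h3 := hq2 i oi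
      rw [h2, eij, eik, ← pow_two, h3, one_mul] at h1
      obtain ⟨c, hc⟩ := hp.odd_of_ne_two hp2
      rw [hc, pow_add, pow_mul, h3, one_pow, one_mul, pow_one] at h1
      exact h1
    have hVt : (V.comap (QuotientGroup.mk' K)) = ⊤ := by
      rw [eq_top_iff, ← hgen, Subgroup.closure_le]
      rintro x (rfl | rfl | rfl)
      · exact (mk_eq_one (N := V)).mp hi1
      · exact (mk_eq_one (N := V)).mp (eij.trans hi1)
      · exact (mk_eq_one (N := V)).mp (eik.trans hi1)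
    rw [eq_top_iff]
    intro x _
    obtain ⟨x, rfl⟩ := QuotientGroup.mk_surjective x
    have : x ∈ V.comap (QuotientGroup.mk' K) := by rw [hVt]; exact Subgroup.mem_top _
    exact this
  refine ⟨hsimp, ?_⟩
  apply alg oi
  · intro x hx
    obtain ⟨x, rfl⟩ := QuotientGroup.mk_surjective x
    obtain ⟨n, hn, hn1⟩ := hx.exists_pow_eq_one
    rw [← QuotientGroup.mk_pow, mk_eq_one] at hn1
    rcases hK.ord x n hn hn1 with h1 | ⟨r, hr, h1⟩
    · left; exact mk_eq_one.mpr h1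
    · by_cases hx1 : (x : Γ ⧸ K) = 1
      · exact Or.inl hx1
      right
      have := Fact.mk hr
      rw [orderOf_eq_prime (p := r) (by rw [← QuotientGroup.mk_pow, mk_eq_one]; exact h1) hx1]
      exact hr
  · intro x hx hx2 y hxy
    obtain ⟨x, rfl⟩ := QuotientGroup.mk_surjective x
    obtain ⟨y, rfl⟩ := QuotientGroup.mk_surjective y
    obtain ⟨s, hs⟩ := hK.cent x (orderOf (x : Γ ⧸ K)) hx hx2
      (by rw [← mk_eq_one, QuotientGroup.mk_pow, pow_orderOf_eq_one])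
      (by
        intro h
        rw [← mk_eq_one] at h
        rw [h, orderOf_one] at hx
        exact Nat.not_prime_one hx) y (comm_mem x y hxy)
    refine ⟨s, ?_⟩
    simp only
    rw [← QuotientGroup.mk_zpow]
    exact (mk_eq_iff.mpr hs).symm
  · intro a b ha hb hab
    obtain ⟨a, rfl⟩ := QuotientGroup.mk_surjective a
    obtain ⟨b, rfl⟩ := QuotientGroup.mk_surjective b
    obtain ⟨ha1, ha2⟩ := (ord2 a).mp ha
    obtain ⟨hb1, hb2⟩ := (ord2 b).mp hb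
    exact mk_eq_iff.mpr (hK.inv a b ha1 ha2 hb1 hb2 (comm_mem a b hab))
  · intro a b ha hb
    obtain ⟨a, rfl⟩ := QuotientGroup.mk_surjective a
    obtain ⟨b, rfl⟩ := QuotientGroup.mk_surjective b
    obtain ⟨ha1, ha2⟩ := (ord2 a).mp ha
    obtain ⟨hb1, hb2⟩ := (ord2 b).mp hb
    obtain ⟨k, hk, hk1⟩ := hK.fin a b ha1 ha2 hb1 hb2
    rw [isOfFinOrder_iff_pow_eq_one]
    exact ⟨k, hk, by rw [← QuotientGroup.mk_mul, ← QuotientGroup.mk_pow, mk_eq_one]; exact hk1⟩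
  · refine ⟨(y : Γ ⧸ K), ?_, ?_⟩
    · rw [Ne, mk_eq_one]; exact hK.hL y hyL
    · intro h
      rw [h, oi] at oy
      exact hp2 oy.symm

/-- the initial stage -/
theorem init {Γ : Type*} [Group Γ] (hΓ : KGrp Γ) {i j k : Γ} (hi : orderOf i = 2)
    (hj : orderOf j = 2) (hk : orderOf k = 2) (h1 : ¬ IsOfFinOrder (i * j * k))
    (h2 : ∀ (x : Γ) (n : ℤ), n ≠ 0 → IsOfFinOrder x → Commute x ((i * j * k) ^ n) → x = 1)
    (h3 : ¬ IsOfFinOrder (i * j))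
    (h4 : ∀ (h : Γ) (m n : ℤ), (i * j) ^ m = h * (i * j * k) ^ n * h⁻¹ → m = 0) :
    ∃ (y z : Γ) (p q : ℕ) (L : Set Γ), Dat L p q i y z ∧ j ∈ L ∧ k ∈ L ∧
      ∃ S : St L p q i y z, (i * j * k) ^ p ∈ S.K := by
  obtain ⟨g₀, hg₀, s, hs⟩ := ez hΓ.hyp h1 h2
  have hs' : g₀ ^ s = i * j * k := hs
  have hne : ∀ x : Γ, orderOf x = 2 → x ≠ 1 := by
    rintro x hx rfl
    rw [orderOf_one] at hx
    omega
  have hg₀1 : g₀ ≠ 1 := fun h => hg₀.inf (h ▸ IsOfFinOrder.one)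
  obtain ⟨m₀, hm₀⟩ := step hΓ hg₀ (B := {1, i, j, k, g₀}) (by simp) (F := {i * j})
    (Set.finite_singleton _) (by
      intro f hf
      rw [Set.mem_singleton_iff] at hf
      rw [hf]; exact h3) (by
      intro f hf h t hft
      rw [Set.mem_singleton_iff] at hf
      rw [hf] at hft
      have h5 := h4 h s t (by rw [← hs', hft, conj_zpow, ← zpow_mul, ← zpow_mul, mul_comm])
      rw [h5, zpow_zero] at hs'
      exact h1 (hs' ▸ IsOfFinOrder.one))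
  obtain ⟨p, hpm, hp⟩ := Nat.exists_infinite_primes (max m₀ 3)
  obtain ⟨h5, h6, h7⟩ := hm₀ p (le_trans (le_max_left _ _) hpm) hp
  have hp3 : 3 ≤ p := le_trans (le_max_right _ _) hpm
  set N := Subgroup.normalClosure {g₀ ^ p} with hN
  have hgN : g₀ ^ p ∈ N := Subgroup.subset_normalClosure rfl
  have hnot : ∀ x ∈ ({1, i, j, k, g₀} : Set Γ), x ≠ 1 → x ∉ N := by
    intro x hx hx1 hxN
    apply hx1
    symm
    apply h6 1 (by simp) x hx
    rwa [inv_one, one_mul]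
  have hi2 : i ^ 2 = 1 := by rw [← hi, pow_orderOf_eq_one]
  have hj2 : j ^ 2 = 1 := by rw [← hj, pow_orderOf_eq_one]
  have o2 : ∀ x : Γ, x ^ 2 = 1 → x ∉ N → orderOf (x : Γ ⧸ N) = 2 := by
    intro x hx hxN
    apply orderOf_eq_prime
    · rw [← QuotientGroup.mk_pow, hx]; rfl
    · rw [Ne, mk_eq_one]; exact hxN
  have hab : ¬ IsOfFinOrder ((i : Γ ⧸ N) * (j : Γ ⧸ N)) := by
    intro h
    obtain ⟨c, hc, hc1⟩ := h.exists_pow_eq_one
    rw [← QuotientGroup.mk_mul, ← QuotientGroup.mk_pow, mk_eq_one] at hc1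
    exact h7 (i * j) rfl c hc hc1
  obtain ⟨g₁, hg₁, -⟩ := e1 h5 (o2 i hi2 (hnot i (by simp) (hne i hi)))
    (o2 j hj2 (hnot j (by simp) (hne j hj))) hab
  obtain ⟨z, rfl⟩ := QuotientGroup.mk_surjective g₁
  have hz1 : (z : Γ ⧸ N) ≠ 1 := fun h => hg₁.inf (h ▸ IsOfFinOrder.one)
  obtain ⟨q, hq, hqp, N', hN', hzN', hBN', hKN'⟩ := St.kill_aux h5 hg₁ (p + 1)
    (B := (QuotientGroup.mk : Γ → Γ ⧸ N) '' {i, j, k, g₀, z}) ((by simp : Set.Finite _).image _)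
    (by
      rintro _ ⟨x, hx, rfl⟩ h8
      rw [mk_eq_one] at h8
      rcases hx with rfl | rfl | rfl | rfl | rfl
      · exact hnot _ (by simp) (hne _ hi) h8
      · exact hnot _ (by simp) (hne _ hj) h8
      · exact hnot _ (by simp) (hne _ hk) h8
      · exact hnot _ (by simp) hg₀1 h8
      · exact hz1 (mk_eq_one.mpr h8))
  have hNle : N ≤ St.pull N N' := by
    intro x hx
    rw [St.mem_pull, mk_eq_one.mpr hx]
    exact one_mem _
  refine ⟨g₀, z, p, q, {i, j, k, g₀, z}, ⟨by simp, by simp, by simp, by simp, hi2, hp, hqp,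
    by omega, by omega, by omega⟩, by simp, by simp, ⟨St.pull N N', inferInstance,
    St.pull_kgrp N N' hKN', fun x hx hxK => hBN' _ ⟨x, hx, rfl⟩ hxK, hNle hgN, hzN'⟩, ?_⟩
  apply hNle
  have h8 : (i * j * k) ^ p = (g₀ ^ p) ^ s := by
    rw [← hs', ← zpow_natCast, ← zpow_mul, mul_comm, zpow_mul, zpow_natCast]
  rw [h8]
  exact Subgroup.zpow_mem _ hgN _

/-- there is a simple `T₀`-group -/
theorem main : ∃ (G : Type) (_ : Group G), IsSimpleGroup G ∧ ∃ i : G, IsT0 G i := by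
  obtain ⟨Γ, _, _, hΓ, i, j, k, hi, hj, hk, hgen, h1, h2, h3, h4⟩ := start
  obtain ⟨y, z, p, q, L, hD, hjL, hkL, S, hS⟩ := init hΓ hi hj hk h1 h2 h3 h4
  obtain ⟨K, hSK, hK⟩ := St.limit hD S
  have := hK.normal
  have h5 := of_lim hK hD.hp hD.hp2 hD.hi hjL hkL hD.hyL hD.i2
    (by rw [← hj, pow_orderOf_eq_one]) (by rw [← hk, pow_orderOf_eq_one]) (hSK S.hy) hgen (hSK hS)
  exact ⟨Γ ⧸ K, inferInstance, h5.1, _, h5.2⟩

end Pool.Agent.TH68
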