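import Pool.Agent.TH68.JD

set_option autoImplicit false

/-! Maximal cyclic subgroups of hyperbolic groups. -/

namespace Pool.Agent.TH68

open Pool.Agent.Helper97.Hyp

section ez

variable {Γ : Type*} [Group Γ]

lemma inf_zpow_ne {g : Γ} (hg : ¬ IsOfFinOrder g) {n : ℤ} (hn : n ≠ 0) : g ^ n ≠ 1 := by
  intro h
  exact hg (isOfFinOrder_iff_zpow_eq_one.2 ⟨n, hn, h⟩)

lemma inf_zpow {g : Γ} (hg : ¬ IsOfFinOrder g) {n : ℤ} (hn : n ≠ 0) : ¬ IsOfFinOrder (g ^ n) := by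
  intro h
  obtain ⟨m, hm, h1⟩ := isOfFinOrder_iff_zpow_eq_one.1 h
  rw [← zpow_mul] at h1
  exact inf_zpow_ne hg (mul_ne_zero hn hm) h1

lemma GHyp.mono {X : Type*} [PseudoMetricSpace X] {δ δ' : ℝ} (h : GHyp X δ) (hd : δ ≤ δ') :
    GHyp X δ' := by
  intro x y z w
  have := h x y z w
  linarith

/-- a loxodromic power -/
lemma exists_lox (hΓ : HypGroup Γ) {g : Γ} (hg : ¬ IsOfFinOrder g) :
    ∃ (W : WNorm Γ) (δ : ℝ) (j : ℕ) (x : Pt W), 1 ≤ j ∧ Lox δ x (g ^ j) := by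
  obtain ⟨W, δ, h⟩ := hΓ
  obtain ⟨J, hJ⟩ := lox_of_inf (GHyp.mono h (le_max_left δ 1)) (le_max_right δ 1)
  obtain ⟨j, hj, _, x, hx⟩ := hJ g hg
  exact ⟨W, max δ 1, j, x, hj, hx⟩

lemma comm_pow_mem_E {f g : Γ} {k : ℤ} (hk : k ≠ 0) (hf : Commute f (g ^ k)) (j : ℕ) :
    f ∈ Lox.E (g ^ j) := by
  refine ⟨k, k, hk, hk, ?_⟩
  have h1 : (g ^ j) ^ k = (g ^ k) ^ j := by
    rw [← zpow_natCast, ← zpow_natCast, ← zpow_mul, ← zpow_mul, mul_comm]
  have h2 : Commute f ((g ^ j) ^ k) := by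
    rw [h1]
    exact hf.pow_right j
  rw [h2.eq, mul_inv_cancel_right]

theorem com (hΓ : HypGroup Γ) {f g : Γ} (hg : ¬ IsOfFinOrder g) {k : ℤ} (hk : k ≠ 0)
    (hf : Commute f (g ^ k)) : ∃ (r : ℕ) (s : ℤ), 0 < r ∧ f ^ r = g ^ s := by
  obtain ⟨W, δ, j, x, hj, hx⟩ := exists_lox hΓ hg
  have hfE := comm_pow_mem_E hk hf j
  have hF : {γ : Γ | dist x (γ • x) ≤ Lox.c5 x (g ^ j) δ}.Finite := proper x _
  have hall : ∀ n : ℕ, ∃ i : ℤ, ((g ^ j) ^ i)⁻¹ * f ^ n ∈
      {γ : Γ | dist x (γ • x) ≤ Lox.c5 x (g ^ j) δ} := by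
    intro n
    obtain ⟨i, hi⟩ := hx.E_near (pow_mem hfE n)
    refine ⟨i, ?_⟩
    change dist x ((((g ^ j) ^ i)⁻¹ * f ^ n) • x) ≤ _
    rw [mul_smul, ← dist_smul ((g ^ j) ^ i), smul_inv_smul, dist_comm]
    exact hi
  choose i hi using hall
  obtain ⟨a, ha, b, hb, hne, heq⟩ := Set.infinite_univ.exists_ne_map_eq_of_mapsTo
    (f := fun n : ℕ => ((g ^ j) ^ i n)⁻¹ * f ^ n) (s := Set.univ) (fun n _ => hi n) hF
  clear ha hb
  wlog hlt : a < b generalizing a b
  · exact this b a (Ne.symm hne) heq.symm (by omega)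
  refine ⟨b - a, j * (i b - i a), by omega, ?_⟩
  have h1 : f ^ b = (g ^ j) ^ (i b) * ((g ^ j) ^ i a)⁻¹ * f ^ a := by
    rw [mul_assoc, heq]; group
  have h2 : f ^ b = f ^ (b - a) * f ^ a := by rw [← pow_add]; congr 1; omega
  rw [h2] at h1
  have h3 := mul_right_cancel h1
  rw [h3, ← zpow_neg, ← zpow_add, zpow_mul, zpow_natCast]
  congr 1

/-- a torsion free group with a central element whose powers have finite index is cyclic -/
lemma cyclic_of_central {H : Type*} [Group H] (htf : ∀ x : H, IsOfFinOrder x → x = 1) (z : H)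
    (hz : z ∈ Subgroup.center H) (hfi : (Subgroup.zpowers z).FiniteIndex) : IsCyclic H := by
  have hle : Subgroup.zpowers z ≤ Subgroup.center H := by
    rw [Subgroup.zpowers_le]; exact hz
  have hpow : ∀ (x : H) (n : ℕ), n ≠ 0 → x ^ n = 1 → x = 1 := by
    intro x n hn h
    exact htf x (isOfFinOrder_iff_pow_eq_one.2 ⟨n, Nat.pos_of_ne_zero hn, h⟩)
  have hcfi : (Subgroup.center H).FiniteIndex := Subgroup.finiteIndex_of_le hle
  have hinj : Function.Injective (MonoidHom.transferCenterPow H) := by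
    rw [injective_iff_map_eq_one]
    intro x hx
    have := congrArg (Subtype.val) hx
    rw [MonoidHom.transferCenterPow_apply] at this
    exact hpow x _ hcfi.index_ne_zero this
  have hcomm : ∀ x y : H, x * y = y * x := by
    intro x y
    apply hinj
    rw [map_mul, map_mul]
    apply Subtype.ext
    exact ((Subgroup.mem_center_iff.1 (MonoidHom.transferCenterPow H y).2) _)
  have hn : (Subgroup.zpowers z).Normal := ⟨by
    intro x hx y
    rw [hcomm y x, mul_inv_cancel_right]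
    exact hx⟩
  let φ : H →* Subgroup.zpowers z :=
    { toFun := fun x => ⟨x ^ (Subgroup.zpowers z).index, Subgroup.pow_index_mem _ x⟩
      map_one' := by
        apply Subtype.ext
        exact one_pow _
      map_mul' := by
        intro x y
        apply Subtype.ext
        exact (show Commute x y from hcomm x y).mul_pow _ }
  refine isCyclic_of_injective φ ?_
  rw [injective_iff_map_eq_one]
  intro x hx
  have h1 : x ^ (Subgroup.zpowers z).index = 1 := congrArg (Subtype.val) hx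
  exact hpow x _ hfi.index_ne_zero h1

/-- elements commuting with a power -/
def Hsub (g : Γ) : Subgroup Γ where
  carrier := {y | ∃ k : ℤ, k ≠ 0 ∧ Commute y (g ^ k)}
  one_mem' := ⟨1, one_ne_zero, Commute.one_left _⟩
  mul_mem' := by
    rintro y y' ⟨k, hk, h⟩ ⟨k', hk', h'⟩
    refine ⟨k * k', mul_ne_zero hk hk', ?_⟩
    have h1 : Commute y (g ^ (k * k')) := by
      rw [zpow_mul]; exact h.zpow_right k'
    have h2 : Commute y' (g ^ (k * k')) := by
      rw [mul_comm, zpow_mul]; exact h'.zpow_right k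
    exact h1.mul_left h2
  inv_mem' := by
    rintro y ⟨k, hk, h⟩
    exact ⟨k, hk, h.inv_left⟩

lemma mem_Hsub {g y : Γ} : y ∈ Hsub g ↔ ∃ k : ℤ, k ≠ 0 ∧ Commute y (g ^ k) := Iff.rfl

theorem ez (hΓ : HypGroup Γ) {g : Γ} (hg : ¬ IsOfFinOrder g)
    (ht : ∀ (x : Γ) (k : ℤ), k ≠ 0 → IsOfFinOrder x → Commute x (g ^ k) → x = 1) :
    ∃ g₀ : Γ, Root g₀ ∧ g ∈ Subgroup.zpowers g₀ := by
  obtain ⟨W, δ, j, x, hj, hx⟩ := exists_lox hΓ hg
  obtain ⟨k, hk, hk0⟩ := hx.exists_k0 (proper x)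
  set z : Γ := (g ^ j) ^ (k : ℤ) with hz
  have hzg : z = g ^ ((j : ℤ) * k) := by rw [hz, ← zpow_natCast g j, ← zpow_mul]
  have hHE : ∀ e ∈ Hsub g, e ∈ Lox.E (g ^ j) := by
    rintro e ⟨a, ha, he⟩
    exact comm_pow_mem_E ha he j
  have hjk : (j : ℤ) * k ≠ 0 := mul_ne_zero (by omega) (by omega)
  have hcen : ∀ e ∈ Hsub g, Commute e z := by
    intro e he
    rcases hk0 e (hHE e he) with h1 | h1
    · exact mul_inv_eq_iff_eq_mul.1 h1
    · exfalso
      obtain ⟨a, ha, hc⟩ := he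
      have h2 : Commute e (z ^ a) := by
        rw [hzg, ← zpow_mul, mul_comm, zpow_mul]
        exact hc.zpow_right _
      have h3 : e * z ^ a * e⁻¹ = z ^ (-a) := by
        rw [← conj_zpow, h1, ← zpow_mul, zpow_neg z, hz, ← zpow_mul]
        rw [← zpow_neg]
        congr 1
        ring
      rw [h2.eq, mul_inv_cancel_right] at h3
      have h4 : z ^ (a + a) = 1 := by
        rw [zpow_add]
        nth_rewrite 1 [h3]
        rw [← zpow_add]; simp
      rw [hzg, ← zpow_mul] at h4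
      exact inf_zpow_ne hg (mul_ne_zero hjk (by omega)) h4
  have hzH : z ∈ Hsub g := by
    rw [mem_Hsub]
    refine ⟨1, one_ne_zero, ?_⟩
    rw [hzg]
    exact (Commute.refl g).zpow_zpow _ _
  let zz : Hsub g := ⟨z, hzH⟩
  have hzz : zz ∈ Subgroup.center (Hsub g) := by
    rw [Subgroup.mem_center_iff]
    intro e
    apply Subtype.ext
    exact (hcen e e.2).eq
  have hF : {γ : Γ | dist x (γ • x) ≤ Lox.c5 x (g ^ j) δ}.Finite := proper x _
  have hall : ∀ e : Hsub g, ∃ i : ℤ, ((g ^ j) ^ i)⁻¹ * (e : Γ) ∈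
      {γ : Γ | dist x (γ • x) ≤ Lox.c5 x (g ^ j) δ} := by
    intro e
    obtain ⟨i, hi⟩ := hx.E_near (hHE e e.2)
    refine ⟨i, ?_⟩
    change dist x ((((g ^ j) ^ i)⁻¹ * (e : Γ)) • x) ≤ _
    rw [mul_smul, ← dist_smul ((g ^ j) ^ i), smul_inv_smul, dist_comm]
    exact hi
  choose i hi using hall
  have hfinF : Finite {γ : Γ | dist x (γ • x) ≤ Lox.c5 x (g ^ j) δ} := hF
  have : NeZero k := ⟨hk.ne'⟩
  have hfin : Finite (Hsub g ⧸ Subgroup.zpowers zz) := by
    refine Finite.of_injective (β := {γ : Γ | dist x (γ • x) ≤ Lox.c5 x (g ^ j) δ} × ZMod k)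
      (fun q => (⟨_, hi q.out⟩, (i q.out : ZMod k))) ?_
    intro q q' hqq
    have h1 : ((g ^ j) ^ i q.out)⁻¹ * (q.out : Γ) = ((g ^ j) ^ i q'.out)⁻¹ * (q'.out : Γ) :=
      congrArg (fun t => (t.1 : Γ)) hqq
    have h2 : (i q.out : ZMod k) = (i q'.out : ZMod k) := congrArg (fun t => t.2) hqq
    rw [← QuotientGroup.out_eq' q, ← QuotientGroup.out_eq' q']
    rw [QuotientGroup.eq]
    rw [ZMod.intCast_eq_intCast_iff_dvd_sub] at h2
    obtain ⟨c, hc⟩ := h2
    rw [Subgroup.mem_zpowers_iff]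
    refine ⟨c, ?_⟩
    apply Subtype.ext
    have h3 : (q'.out : Γ) = z ^ c * (q.out : Γ) := by
      have h4 : (q'.out : Γ) = (g ^ j) ^ i q'.out * ((g ^ j) ^ i q.out)⁻¹ * (q.out : Γ) := by
        rw [mul_assoc, h1]; group
      rw [h4, ← zpow_neg, ← zpow_add, hz, ← zpow_mul, ← hc]
      congr 2
    change z ^ c = (q.out : Γ)⁻¹ * (q'.out : Γ)
    rw [h3, ((hcen q.out q.out.2).zpow_right c).symm.eq]
    group
  have hfi : (Subgroup.zpowers zz).FiniteIndex := Subgroup.finiteIndex_of_finite_quotient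
  have htf : ∀ e : Hsub g, IsOfFinOrder e → e = 1 := by
    intro e he
    apply Subtype.ext
    obtain ⟨a, ha, hc⟩ := e.2
    refine ht e a ha ?_ hc
    exact (Subgroup.subtype (Hsub g)).isOfFinOrder he
  have hcyc := cyclic_of_central htf zz hzz hfi
  obtain ⟨g0, hg0⟩ := hcyc.exists_generator
  have hgen : ∀ y ∈ Hsub g, y ∈ Subgroup.zpowers (g0 : Γ) := by
    intro y hy
    obtain ⟨c, hc⟩ := Subgroup.mem_zpowers_iff.1 (hg0 ⟨y, hy⟩)
    rw [Subgroup.mem_zpowers_iff]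
    exact ⟨c, congrArg Subtype.val hc⟩
  have hgH : g ∈ Hsub g := ⟨1, one_ne_zero, by rw [zpow_one]⟩
  have hgg := hgen g hgH
  refine ⟨g0, ⟨?_, ?_⟩, hgg⟩
  · intro h
    exact hg (h.of_mem_zpowers hgg)
  · intro y a ha hy
    apply hgen
    obtain ⟨b, hb⟩ := Subgroup.mem_zpowers_iff.1 hgg
    refine ⟨a, ha, ?_⟩
    rw [← hb, ← zpow_mul, mul_comm, zpow_mul]
    exact hy.zpow_right b

theorem one_inv (hΓ : KGrp Γ) {f : Γ} (hf : ¬ IsOfFinOrder f) {x y : Γ} (hx : orderOf x = 2)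
    (hy : orderOf y = 2) {k l : ℤ} (hk : k ≠ 0) (hl : l ≠ 0) (hxf : Commute x (f ^ k))
    (hyf : Commute y (f ^ l)) : x = y := by
  have hx2 : x * x = 1 := by rw [← pow_two, ← hx, pow_orderOf_eq_one]
  have hy2 : y * y = 1 := by rw [← pow_two, ← hy, pow_orderOf_eq_one]
  have hxi : x⁻¹ = x := inv_eq_of_mul_eq_one_left hx2
  have hyi : y⁻¹ = y := inv_eq_of_mul_eq_one_left hy2
  have hxm : Commute x (f ^ (k * l)) := by rw [zpow_mul]; exact hxf.zpow_right l
  have hym : Commute y (f ^ (k * l)) := by rw [mul_comm, zpow_mul]; exact hyf.zpow_right k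
  have htm : Commute (x * y) (f ^ (k * l)) := hxm.mul_left hym
  have hkl : k * l ≠ 0 := mul_ne_zero hk hl
  have hfm := inf_zpow hf hkl
  by_cases htf : IsOfFinOrder (x * y)
  · rcases hΓ.ord _ htf with h1 | h1
    · calc x = x * y * y⁻¹ := by group
        _ = y := by rw [h1, one_mul, hyi]
    · by_cases h2 : orderOf (x * y) = 2
      · have h3 : x * y * (x * y) = 1 := by rw [← pow_two, ← h2, pow_orderOf_eq_one]
        apply hΓ.inv x y hx hy
        have h4 : x * y = (x * y)⁻¹ := (inv_eq_of_mul_eq_one_left h3).symm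
        rw [mul_inv_rev, hxi, hyi] at h4
        exact h4
      · exact absurd (htf.of_mem_zpowers (hΓ.cent _ h1 h2 _ htm)) hfm
  · exfalso
    obtain ⟨r, s, hr, hrs⟩ := com hΓ.hyp hf hkl htm
    have h1 : x * (x * y) * x⁻¹ = (x * y)⁻¹ := by
      rw [mul_inv_rev, hxi, hyi, ← mul_assoc, hx2, one_mul]
    have h2 : (x * y) ^ ((r : ℤ) * (k * l)) = (f ^ (k * l)) ^ s := by
      rw [zpow_mul, zpow_natCast, hrs, ← zpow_mul, ← zpow_mul, mul_comm]
    have h3 : Commute x ((x * y) ^ ((r : ℤ) * (k * l))) := by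
      rw [h2]; exact hxm.zpow_right s
    have h4 : x * (x * y) ^ ((r : ℤ) * (k * l)) * x⁻¹ = (x * y) ^ (-((r : ℤ) * (k * l))) := by
      rw [← conj_zpow, h1, inv_zpow, zpow_neg]
    rw [h3.eq, mul_inv_cancel_right] at h4
    have h5 : (x * y) ^ ((r : ℤ) * (k * l) + (r : ℤ) * (k * l)) = 1 := by
      rw [zpow_add]
      nth_rewrite 1 [h4]
      rw [← zpow_add]; simp
    refine inf_zpow_ne htf ?_ h5
    have : (r : ℤ) * (k * l) ≠ 0 := mul_ne_zero (by omega) hkl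
    omega

theorem e1 (hΓ : KGrp Γ) {a b : Γ} (ha : orderOf a = 2) (hb : orderOf b = 2)
    (hab : ¬ IsOfFinOrder (a * b)) :
    ∃ g₀ : Γ, Root g₀ ∧ a * b ∈ Subgroup.zpowers g₀ := by
  have ha2 : a * a = 1 := by rw [← pow_two, ← ha, pow_orderOf_eq_one]
  have hb2 : b * b = 1 := by rw [← pow_two, ← hb, pow_orderOf_eq_one]
  have hai : a⁻¹ = a := inv_eq_of_mul_eq_one_left ha2
  have hbi : b⁻¹ = b := inv_eq_of_mul_eq_one_left hb2
  have hinv : ∀ k : ℤ, a * (a * b) ^ k * a⁻¹ = (a * b) ^ (-k) := by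
    intro k
    have h1 : a * (a * b) * a⁻¹ = (a * b)⁻¹ := by
      rw [mul_inv_rev, hai, hbi, ← mul_assoc, ha2, one_mul]
    rw [← conj_zpow, h1, inv_zpow, zpow_neg]
  refine ez hΓ.hyp hab ?_
  intro x k hk hx hxk
  rcases hΓ.ord x hx with h1 | h1
  · exact h1
  exfalso
  by_cases h2 : orderOf x = 2
  · have h3 : orderOf (a * x * a⁻¹) = 2 := by
      rw [← h2]
      exact orderOf_injective (MulAut.conj a).toMonoidHom (MulAut.conj a).injective x
    have h4 : Commute (a * x * a⁻¹) ((a * b) ^ (-k)) := by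
      rw [← hinv]
      exact hxk.conj a
    have h5 := one_inv hΓ hab h2 h3 hk (neg_ne_zero.2 hk) hxk h4
    have h6 : Commute a x := by
      have : a * x = x * a := by
        calc a * x = a * x * a⁻¹ * a := by group
          _ = x * a := by rw [← h5]
      exact this
    have h7 := hΓ.inv a x ha h2 h6
    rw [← h7] at hxk
    have h8 := hinv k
    rw [hxk.eq, mul_inv_cancel_right] at h8
    have h9 : (a * b) ^ (k + k) = 1 := by
      rw [zpow_add]
      nth_rewrite 1 [h8]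
      rw [← zpow_add]; simp
    exact inf_zpow_ne hab (by omega) h9
  · exact inf_zpow hab hk (hx.of_mem_zpowers (hΓ.cent x h1 h2 _ hxk))

end ez

end Pool.Agent.TH68
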