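import Pool.Agent.TH68.Sys

set_option autoImplicit false

/-! Elements of infinite order in a hyperbolic group have a uniform loxodromic power. -/

namespace Pool.Agent.TH68

open Pool.Agent.Helper97.Hyp

section jd

variable {Γ : Type*} [Group Γ] {W : WNorm Γ} {δ : ℝ}

/-- the main estimate: moving the base point along a long displacement decreases displacements -/
lemma jd_move (h : GHyp (Pt W) δ) (hδ : 1 ≤ δ) {x y : Pt W} {s t : Γ} {l η : ℝ}
    (hl : 100 * δ < l) (hη1 : 4 * δ < η) (hη2 : η ≤ 5 * δ)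
    (hs : dist x (s • x) = l) (hxy : dist x y = η) (hys : dist y (s • x) = l - η)
    (ht : dist x (t • x) ≤ l) (hst : dist (s • x) (t • x) ≤ l)
    (hnl : ¬ Lox δ x t) : dist y (t • y) < l := by
  have h2 : dist (t • x) (t • y) = η := by rw [dist_smul]; exact hxy
  by_cases hm : dist x (t • x) + 2 * η < l
  · have h1 := dist_triangle4 y x (t • x) (t • y)
    rw [h2, dist_comm y x, hxy] at h1
    linarith
  · have hm' : l ≤ dist x (t • x) + 2 * η := not_lt.1 hm
    have hsq : dist x (t ^ 2 • x) < dist x (t • x) + 4 * δ + 1 := by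
      by_contra hcon
      exact hnl ⟨h, not_lt.1 hcon⟩
    have h3 : dist (t • x) (t ^ 2 • x) = dist x (t • x) := by
      rw [pow_two, mul_smul, dist_smul]
    -- `y` is near `[x, t x]`
    have h4 : dist y (t • x) ≤ dist x (t • x) - η + 2 * δ := by
      rcases h.cases y (t • x) x (s • x) with h5 | h5
      · rw [dist_comm y x, hxy, dist_comm (t • x) (s • x), hs] at h5
        linarith
      · rw [hys, dist_comm (t • x) x, hs] at h5
        linarith
    have h6 : dist (t • y) (t ^ 2 • x) ≤ dist x (t • x) - η + 2 * δ := by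
      rw [pow_two, mul_smul, dist_smul]
      exact h4
    have h7 : dist x (t • y) ≤ dist x (t • x) - η + 4 * δ := by
      rcases h.cases x (t • y) (t • x) (t ^ 2 • x) with h5 | h5
      · rw [h3] at h5
        linarith
      · rw [h3, dist_comm (t • y) (t • x), h2] at h5
        linarith
    rcases h.cases y (t • y) x (t • x) with h5 | h5
    · rw [dist_comm y x, hxy, dist_comm (t • y) (t • x), h2] at h5
      linarith
    · rw [dist_comm (t • y) x] at h5
      linarith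

theorem jd (h : GHyp (Pt W) δ) (hδ : 1 ≤ δ) (u : Γ) (J : ℕ) :
    (∃ j : ℕ, 1 ≤ j ∧ j ≤ J ∧ ∃ x : Pt W, Lox δ x (u ^ j)) ∨
      ∃ x : Pt W, ∀ j : ℕ, 1 ≤ j → j ≤ J → dist x (u ^ j • x) ≤ 100 * δ := by
  by_contra hcon
  push Not at hcon
  obtain ⟨hnl, hbig⟩ := hcon
  let f : Pt W → ℕ := fun x => (Finset.Icc 1 J).sup fun j => nd x (u ^ j • x)
  have hne : Nonempty (Pt W) := ⟨pt W 1⟩
  obtain ⟨x, hx⟩ : ∃ x, ∀ y, f x ≤ f y := by
    obtain ⟨x, hx⟩ := WellFounded.has_min (measure f).wf Set.univ ⟨pt W 1, trivial⟩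
    exact ⟨x, fun y => not_lt.1 (hx.2 y trivial)⟩
  obtain ⟨j1, hj1, hj1', hj1b⟩ := hbig x
  have hmem : ∀ j, j ∈ Finset.Icc 1 J ↔ 1 ≤ j ∧ j ≤ J := fun j => Finset.mem_Icc
  have hle : ∀ j, 1 ≤ j → j ≤ J → nd x (u ^ j • x) ≤ f x := fun j h1 h2 =>
    Finset.le_sup (f := fun j => nd x (u ^ j • x)) ((hmem j).2 ⟨h1, h2⟩)
  have hle' : ∀ j, 1 ≤ j → j ≤ J → dist x (u ^ j • x) ≤ (f x : ℝ) := by
    intro j h1 h2
    rw [dist_eq_nd]
    exact_mod_cast hle j h1 h2
  have hlbig : 100 * δ < (f x : ℝ) := lt_of_lt_of_le hj1b (hle' j1 hj1 hj1')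
  obtain ⟨j, hj, hjf⟩ := Finset.exists_mem_eq_sup (Finset.Icc 1 J) ⟨j1, (hmem j1).2 ⟨hj1, hj1'⟩⟩
    (fun j => nd x (u ^ j • x))
  have hjs : dist x (u ^ j • x) = (f x : ℝ) := by
    rw [dist_eq_nd]
    exact_mod_cast hjf.symm
  have hj2 := (hmem j).1 hj
  have hd : ∀ a b : ℕ, a ≤ b → b ≤ J → dist (u ^ a • x) (u ^ b • x) ≤ (f x : ℝ) := by
    intro a b hab hb
    obtain ⟨c, rfl⟩ := Nat.exists_eq_add_of_le hab
    rw [pow_add, mul_smul, dist_smul]
    rcases Nat.eq_zero_or_pos c with rfl | hc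
    · rw [pow_zero, one_smul, dist_self]
      exact Nat.cast_nonneg _
    · exact hle' c hc (by omega)
  have hδ0 : 0 ≤ 4 * δ := by linarith
  set η : ℕ := ⌊4 * δ⌋₊ + 1 with hη
  have hη1 : 4 * δ < (η : ℝ) := by
    rw [hη]; push_cast; exact Nat.lt_floor_add_one _
  have hη2 : (η : ℝ) ≤ 5 * δ := by
    rw [hη]; push_cast
    have := Nat.floor_le hδ0
    linarith
  obtain ⟨y, hy1, hy2⟩ := exists_between x (u ^ j • x) η (by rw [hjs]; linarith)
  rw [hjs] at hy2
  have hlt : f y < f x := by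
    refine (Finset.sup_lt_iff ?_).2 ?_
    · rw [Nat.bot_eq_zero]
      have : (0 : ℝ) < (f x : ℝ) := by linarith
      exact_mod_cast this
    · intro i hi
      have hi2 := (hmem i).1 hi
      have := jd_move h hδ hlbig hη1 hη2 hjs hy1 hy2 (hle' i hi2.1 hi2.2)
        (by
          rcases le_total j i with hji | hji
          · exact hd j i hji hi2.2
          · rw [dist_comm]
            exact hd i j hji hj2.2)
        (fun hL => hnl i hi2.1 hi2.2 x hL)
      rw [dist_eq_nd] at this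
      exact_mod_cast this
  exact absurd (hx y) (not_le.2 hlt)

theorem lox_of_inf (h : GHyp (Pt W) δ) (hδ : 1 ≤ δ) :
    ∃ J : ℕ, ∀ u : Γ, ¬ IsOfFinOrder u →
      ∃ j : ℕ, 1 ≤ j ∧ j ≤ J ∧ ∃ x : Pt W, Lox δ x (u ^ j) := by
  classical
  have hF := W.fin ⌊100 * δ⌋₊
  refine ⟨hF.toFinset.card + 1, fun u hu => ?_⟩
  rcases jd h hδ u (hF.toFinset.card + 1) with h1 | ⟨x, hx⟩
  · exact h1
  · exfalso
    have hmaps : ∀ j ∈ Finset.Icc 1 (hF.toFinset.card + 1),
        x.out⁻¹ * (u ^ j * x.out) ∈ hF.toFinset := by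
      intro j hj
      rw [Finset.mem_Icc] at hj
      rw [Set.Finite.mem_toFinset]
      have := hx j hj.1 hj.2
      rw [dist_def, smul_out] at this
      exact Nat.le_floor this
    have hinj : Set.InjOn (fun j : ℕ => x.out⁻¹ * (u ^ j * x.out))
        (Finset.Icc 1 (hF.toFinset.card + 1) : Finset ℕ) := by
      intro a _ b _ hab
      have h2 : u ^ a = u ^ b := by
        have h3 : x.out⁻¹ * (u ^ a * x.out) = x.out⁻¹ * (u ^ b * x.out) := hab
        exact mul_right_cancel (mul_left_cancel h3)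
      exact injective_pow_iff_not_isOfFinOrder.2 hu h2
    have := Finset.card_le_card_of_injOn _ hmaps hinj
    rw [Nat.card_Icc] at this
    omega

theorem disp_of_fin (h : GHyp (Pt W) δ) (hδ : 1 ≤ δ) (u : Γ) (hu : IsOfFinOrder u) :
    ∃ x : Pt W, dist x (u • x) ≤ 100 * δ := by
  have hpos : 0 < orderOf u := hu.orderOf_pos
  rcases jd h hδ u (orderOf u) with ⟨j, _, _, x, hx⟩ | ⟨x, hx⟩
  · exfalso
    have h1 := hx.zpow_ne (n := (orderOf u : ℤ)) (by exact_mod_cast hpos.ne')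
    apply h1
    rw [zpow_natCast, ← pow_mul, mul_comm, pow_mul, pow_orderOf_eq_one, one_pow]
  · have := hx 1 le_rfl hpos
    rw [pow_one] at this
    exact ⟨x, this⟩

end jd

end Pool.Agent.TH68
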