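import Pool.Agent.TH68.Sys

set_option autoImplicit false
set_option linter.unusedSectionVars false

/-! Closest displaced sets of two elements far apart: the product has infinite order (helper73). -/

namespace Pool.Agent.TH68

open Pool.Agent.Helper97.Hyp

variable {Γ : Type*} [Group Γ] {W : WNorm Γ} {δ : ℝ}

theorem cp (h : GHyp (Pt W) δ) (hδ : 1 ≤ δ) {y : Γ} {x₀ : Pt W} {C₀ : ℝ}
    (hx₀ : dist x₀ (y • x₀) ≤ C₀) (q : Pt W) :
    ∃ z : Pt W, dist z (y • z) ≤ 3 * C₀ + 6 * δ + 4 ∧ 2 * dist q z ≤ dist q (y • q) + 2 := by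
  have hC₀ : 0 ≤ C₀ := dist_nonneg.trans hx₀
  set n : ℕ := nd q (y • q) with hn
  have hf : dist q (y • q) = (n : ℝ) := dist_eq_nd _ _
  set m : ℕ := n / 2 with hm
  have hm1 : (2 * m : ℝ) ≤ n := by
    have : 2 * m ≤ n := by omega
    exact_mod_cast this
  have hm2 : (n : ℝ) ≤ 2 * m + 1 := by
    have : n ≤ 2 * m + 1 := by omega
    exact_mod_cast this
  rcases le_or_gt (m : ℝ) (dist q x₀) with h1 | h1
  swap
  · refine ⟨x₀, by linarith, ?_⟩
    rw [hf]
    linarith
  obtain ⟨z, hz1, hz2⟩ := exists_between q x₀ m h1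
  refine ⟨z, ?_, by rw [hf, hz1]; linarith⟩
  have e0 : exc q x₀ z = 0 := by unfold exc; linarith
  have t1 : dist (y • q) (y • x₀) = dist q x₀ := dist_smul _ _ _
  have t2 : dist (y • q) (y • z) = m := by rw [dist_smul, hz1]
  have t3 : dist (y • z) (y • x₀) = dist q x₀ - m := by rw [dist_smul, hz2]
  -- distance from `y q` to `x₀`
  have u1 : dist (y • q) x₀ ≤ dist q x₀ + C₀ := by
    have := dist_triangle (y • q) (y • x₀) x₀
    rw [t1, dist_comm (y • x₀) x₀] at this
    linarith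
  have u2 : dist q x₀ - C₀ ≤ dist (y • q) x₀ := by
    have := dist_triangle (y • q) x₀ (y • x₀)
    rw [t1] at this
    linarith
  -- distance from `y q` to `z`
  have v1 : dist (y • q) z ≤ m + C₀ + 2 * δ + 1 := by
    rcases exc_split h q x₀ (y • q) z with h3 | h3
    · rw [e0] at h3
      unfold exc at h3
      rw [dist_comm z (y • q), hf, hz1] at h3
      linarith
    · rw [e0] at h3
      unfold exc at h3
      rw [hz2] at h3
      linarith
  have v2 : (m : ℝ) - C₀ ≤ dist (y • q) z := by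
    have := dist_triangle (y • q) z x₀
    rw [hz2] at this
    linarith
  have w1 : exc (y • q) x₀ z ≤ 2 * C₀ + 2 * δ + 1 := by
    unfold exc
    rw [hz2]
    linarith
  have w2 : exc (y • q) x₀ (y • z) ≤ 2 * C₀ + 2 * δ + 1 := by
    have := dist_triangle (y • z) (y • x₀) x₀
    rw [t3, dist_comm (y • x₀) x₀] at this
    unfold exc
    rw [t2]
    linarith
  have h4 := order_close h w1 w2
  rw [t2] at h4
  have h5 : |dist (y • q) z - m| ≤ C₀ + 2 * δ + 1 := by
    rw [abs_le]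
    constructor <;> linarith
  linarith

theorem far (h : GHyp (Pt W) δ) (hδ : 1 ≤ δ) {C₀ : ℝ} (hC₀ : 0 ≤ C₀) {y y' : Γ}
    (hy : ∃ x : Pt W, dist x (y • x) ≤ C₀) (hy' : ∃ x : Pt W, dist x (y' • x) ≤ C₀)
    (hfar : ∀ p q : Pt W, dist p (y • p) ≤ 3 * C₀ + 6 * δ + 4 →
      dist q (y' • q) ≤ 3 * C₀ + 6 * δ + 4 → 100 * (C₀ + δ) ≤ dist p q) :
    ¬ IsOfFinOrder (y * y') := by
  classical
  obtain ⟨x₀, hx₀⟩ := hy
  obtain ⟨x₁, hx₁⟩ := hy'
  set C : ℝ := 3 * C₀ + 6 * δ + 4 with hC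
  -- a pair of minimal distance
  have hex : ∃ n : ℕ, ∃ p q : Pt W, dist p (y • p) ≤ C ∧ dist q (y' • q) ≤ C ∧ nd p q = n :=
    ⟨_, x₀, x₁, by linarith, by linarith, rfl⟩
  obtain ⟨p, q, hp, hq, hpq⟩ := Nat.find_spec hex
  have hmin : ∀ p' q' : Pt W, dist p' (y • p') ≤ C → dist q' (y' • q') ≤ C →
      dist p q ≤ dist p' q' := by
    intro p' q' hp' hq'
    rw [dist_eq_nd, dist_eq_nd, hpq]
    exact_mod_cast Nat.find_min' hex ⟨p', q', hp', hq', rfl⟩
  set D : ℝ := dist p q with hD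
  have hDbig : 100 * (C₀ + δ) ≤ D := hfar p q hp hq
  -- large displacement
  have a1 : 2 * D - 2 ≤ dist q (y • q) := by
    obtain ⟨z, hz1, hz2⟩ := cp h hδ hx₀ q
    have := hmin z q hz1 hq
    rw [dist_comm z q] at this
    linarith
  have a2 : 2 * D - 2 ≤ dist p (y' • p) := by
    obtain ⟨z, hz1, hz2⟩ := cp h hδ hx₁ p
    have := hmin p z hp hz1
    linarith
  have b1 : exc q (y • q) p ≤ C + 2 := by
    have h1 := dist_triangle p (y • p) (y • q)
    rw [dist_smul] at h1
    unfold exc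
    rw [dist_comm q p]
    linarith
  have b2 : exc p (y' • p) q ≤ C + 2 := by
    have h1 := dist_triangle q (y' • q) (y' • p)
    rw [dist_smul, dist_comm q p] at h1
    unfold exc
    linarith
  set w : Γ := y * y' with hw
  have c1 : exc q (w • q) p ≤ 5 * C + 2 := by
    have h1 := exc_move_right q (y • q) (w • q) p
    have h2 : dist (y • q) (w • q) = dist q (y' • q) := by
      rw [hw, mul_smul, dist_smul]
    rw [h2] at h1
    linarith
  have c2 : exc p (w • p) (w • q) ≤ 5 * C + 2 := by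
    have h1 : exc p (w • p) (w • q) = exc (y⁻¹ • p) (y' • p) (y' • q) := by
      rw [← exc_smul y⁻¹ p (w • p) (w • q), hw, smul_smul, smul_smul, inv_mul_cancel_left]
    have h2 : dist p (y⁻¹ • p) = dist p (y • p) := by
      rw [← dist_smul y p (y⁻¹ • p), smul_smul, mul_inv_cancel, one_smul, dist_comm]
    have h3 := exc_move_left p (y⁻¹ • p) (y' • p) (y' • q)
    have h4 := exc_move p (y' • p) q (y' • q)
    rw [h1]
    rw [h2] at h3
    linarith
  have d1 : D - 2 * C ≤ dist p (w • q) := by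
    have h1 : dist p (w • q) = dist (y⁻¹ • p) (y' • q) := by
      rw [← dist_smul y⁻¹ p (w • q), hw, smul_smul, inv_mul_cancel_left]
    have h2 : dist p (y⁻¹ • p) = dist p (y • p) := by
      rw [← dist_smul y p (y⁻¹ • p), smul_smul, mul_inv_cancel, one_smul, dist_comm]
    have h3 := dist_triangle p (y⁻¹ • p) q
    have h4 := dist_triangle (y⁻¹ • p) (y' • q) q
    rw [dist_comm (y' • q) q] at h4
    rw [h1]
    linarith
  intro hfin
  obtain ⟨n, hn, hn1⟩ := hfin.exists_pow_eq_one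
  -- the broken geodesic
  let x : ℕ → Pt W := fun i => w ^ (i / 2) • (if i % 2 = 0 then q else p)
  have xe : ∀ k, x (2 * k) = w ^ k • q := by
    intro k
    show w ^ (2 * k / 2) • (if 2 * k % 2 = 0 then q else p) = _
    rw [Nat.mul_div_cancel_left k (by norm_num), Nat.mul_mod_right, if_pos rfl]
  have xo : ∀ k, x (2 * k + 1) = w ^ k • p := by
    intro k
    show w ^ ((2 * k + 1) / 2) • (if (2 * k + 1) % 2 = 0 then q else p) = _
    rw [show (2 * k + 1) / 2 = k by omega, if_neg (by omega)]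
  have h1 : ∀ i, exc (x i) (x (i + 2)) (x (i + 1)) ≤ 5 * C + 2 := by
    intro i
    obtain ⟨k, hk | hk⟩ : ∃ k, i = 2 * k ∨ i = 2 * k + 1 := ⟨i / 2, by omega⟩
    · subst hk
      rw [show 2 * k + 2 = 2 * (k + 1) by ring, xe, xe, xo, pow_succ, mul_smul, exc_smul]
      exact c1
    · subst hk
      rw [show 2 * k + 1 + 2 = 2 * (k + 1) + 1 by ring, show 2 * k + 1 + 1 = 2 * (k + 1) by ring,
        xe, xo, xo, pow_succ, mul_smul (w ^ k) w p, mul_smul (w ^ k) w q, exc_smul]
      exact c2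
  have hL : ∀ i, D - 2 * C ≤ dist (x i) (x (i + 1)) := by
    intro i
    obtain ⟨k, hk | hk⟩ : ∃ k, i = 2 * k ∨ i = 2 * k + 1 := ⟨i / 2, by omega⟩
    · subst hk
      rw [xe, xo, dist_smul, dist_comm q p]
      linarith
    · subst hk
      rw [show 2 * k + 1 + 1 = 2 * (k + 1) by ring, xe, xo, pow_succ, mul_smul, dist_smul]
      exact d1
  have h2 : ∀ i, 5 * C + 2 + 3 * δ < dist (x i) (x (i + 1)) := by
    intro i
    have := hL i
    linarith
  have h3 := bg_growth h h1 h2 hL 0 (2 * n)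
  have e0 : x 0 = q := by
    have := xe 0
    simpa using this
  rw [zero_add, xe n, hn1, one_smul, e0, dist_self] at h3
  have hn' : (1 : ℝ) ≤ n := by exact_mod_cast hn
  have h5 : 0 < D - 2 * C - (5 * C + 2) - 2 * δ := by linarith
  push_cast at h3
  nlinarith

end Pool.Agent.TH68
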