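import Pool.Agent.TH68.EZ
import Pool.Agent.TH68.Far

set_option autoImplicit false
set_option linter.unusedSectionVars false

/-! In a hyperbolic K-group, `a * b ^ w` has infinite order for some `w` in the normal closure of a
given nontrivial element (helper73). -/

namespace Pool.Agent.TH68

open Pool.Agent.Helper97.Hyp

section line

variable {X : Type*} [PseudoMetricSpace X] {Γ : Type*} [Group Γ] [MulAction Γ X]
  [IsIsometricSMul Γ X] {δ : ℝ} {o : X} {g : Γ}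

/-- points of the axis between the projections of two points with small displacement have small
displacement -/
lemma disp_line (h : Lox δ o g) {b : Γ} {p p' : X} {m m' i : ℤ} {C : ℝ}
    (hm : ∀ j : ℤ, dist p (g ^ m • o) ≤ dist p (g ^ j • o))
    (hm' : ∀ j : ℤ, dist p' (g ^ m' • o) ≤ dist p' (g ^ j • o))
    (hp : dist p (b • p) ≤ C) (hp' : dist p' (b • p') ≤ C)
    (hfar : Lox.c1 o g δ + δ < ((m' - m : ℤ) : ℝ)) (hmi : m ≤ i) (him : i ≤ m') :
    dist (g ^ i • o) (b • g ^ i • o) ≤ 5 * C + 2 * Lox.c1 o g δ + 4 * δ + tl o g 1 := by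
  have hP := h.isProj_line hm
  have hP' := h.isProj_line hm'
  have hδ := h.δ_nonneg
  have hC : 0 ≤ C := dist_nonneg.trans hp
  have d1 : ((m' - m : ℤ) : ℝ) ≤ dist (g ^ m • o) (g ^ m' • o) := by
    rw [dist_zpow]
    have h1 := h.tl_ge (m' - m).natAbs
    have h2 : (((m' - m).natAbs : ℕ) : ℝ) = ((m' - m : ℤ) : ℝ) := by
      rw [← Int.cast_natCast]
      congr 1
      omega
    rw [← h2]
    exact h1
  have h1 := far_of_proj h.hyp hP hP' (by linarith)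
  have h2 := h.chain hmi him
  set z := g ^ i • o with hz
  have e1 : exc p p' z ≤ 2 * Lox.c1 o g δ + 2 * δ + tl o g 1 := by
    have t1 := dist_triangle p (g ^ m • o) z
    have t2 := dist_triangle z (g ^ m' • o) p'
    rw [dist_comm (g ^ m' • o) p'] at t2
    unfold exc
    linarith
  have e2 : exc p p' (b • z) ≤ 2 * Lox.c1 o g δ + 2 * δ + tl o g 1 + 4 * C := by
    have s1 := exc_smul b p p' z
    have s2 := exc_move_left (b • p) p (b • p') (b • z)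
    have s3 := exc_move_right p (b • p') p' (b • z)
    rw [dist_comm (b • p) p] at s2
    rw [dist_comm (b • p') p'] at s3
    linarith
  have e3 := order_close h.hyp (x := p) (y := p') (z := z) (t := b • z)
    (a := 2 * Lox.c1 o g δ + 2 * δ + tl o g 1 + 4 * C) (by linarith) e2
  have e4 : |dist p z - dist p (b • z)| ≤ C := by
    have t1 := dist_triangle p (b • p) (b • z)
    have t2 := dist_triangle (b • p) p (b • z)
    rw [dist_smul] at t1
    rw [dist_smul, dist_comm (b • p) p] at t2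
    rw [abs_le]
    constructor <;> linarith
  linarith

/-- the projections of the points with small displacement are bounded -/
lemma index_bdd (h : Lox δ o g) (hprop : ∀ r : ℝ, {γ : Γ | dist o (γ • o) ≤ r}.Finite) {b : Γ}
    (hb : ∀ k : ℤ, k ≠ 0 → ¬ Commute b (g ^ k)) (C : ℝ) :
    ∃ P : ℕ, ∀ (p p' : X) (m m' : ℤ), (∀ j : ℤ, dist p (g ^ m • o) ≤ dist p (g ^ j • o)) →
      (∀ j : ℤ, dist p' (g ^ m' • o) ≤ dist p' (g ^ j • o)) → dist p (b • p) ≤ C →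
      dist p' (b • p') ≤ C → m' - m ≤ P := by
  classical
  have hF := hprop (5 * C + 2 * Lox.c1 o g δ + 4 * δ + tl o g 1)
  refine ⟨hF.toFinset.card + ⌈Lox.c1 o g δ + δ⌉₊ + 1, fun p p' m m' hm hm' hp hp' => ?_⟩
  by_contra hcon
  push Not at hcon
  push_cast at hcon
  have h1 : Lox.c1 o g δ + δ < ((m' - m : ℤ) : ℝ) := by
    have h2 := Nat.le_ceil (Lox.c1 o g δ + δ)
    have h3 : ((⌈Lox.c1 o g δ + δ⌉₊ : ℤ) + 1 : ℤ) ≤ m' - m := by omega
    have h4 : (((⌈Lox.c1 o g δ + δ⌉₊ : ℤ) + 1 : ℤ) : ℝ) ≤ ((m' - m : ℤ) : ℝ) := by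
      exact_mod_cast h3
    push_cast at h4 ⊢
    linarith
  have hmaps : ∀ i ∈ Finset.Icc m m', (g ^ i)⁻¹ * b * g ^ i ∈ hF.toFinset := by
    intro i hi
    rw [Finset.mem_Icc] at hi
    rw [Set.Finite.mem_toFinset]
    have h2 := disp_line h hm hm' hp hp' h1 hi.1 hi.2
    show dist o (((g ^ i)⁻¹ * b * g ^ i) • o) ≤ _
    rw [mul_smul, mul_smul, ← dist_smul (g ^ i) o, smul_inv_smul]
    exact h2
  have hcard : hF.toFinset.card < (Finset.Icc m m').card := by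
    rw [Int.card_Icc]
    omega
  obtain ⟨i, _, j, _, hij, he⟩ := Finset.exists_ne_map_eq_of_card_lt_of_maps_to hcard hmaps
  refine hb (i - j) (sub_ne_zero.2 hij) ?_
  show b * g ^ (i - j) = g ^ (i - j) * b
  rw [zpow_sub]
  calc b * (g ^ i * (g ^ j)⁻¹) = g ^ i * ((g ^ i)⁻¹ * b * g ^ i) * (g ^ j)⁻¹ := by group
    _ = g ^ i * ((g ^ j)⁻¹ * b * g ^ j) * (g ^ j)⁻¹ := by rw [he]
    _ = g ^ i * (g ^ j)⁻¹ * b := by group

end line

section main

variable {Γ : Type*} [Group Γ] {W : WNorm Γ} {δ : ℝ}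

/-- conjugating by a high power of a loxodromic element -/
lemma far_conj {o : Pt W} {g : Γ} (h : Lox δ o g) (hδ : 1 ≤ δ) {a b : Γ}
    (ha : ∀ k : ℤ, k ≠ 0 → ¬ Commute a (g ^ k)) (hb : ∀ k : ℤ, k ≠ 0 → ¬ Commute b (g ^ k))
    (ha' : ∃ x : Pt W, dist x (a • x) ≤ 100 * δ) (hb' : ∃ x : Pt W, dist x (b • x) ≤ 100 * δ) :
    ∃ k : ℕ, ¬ IsOfFinOrder (a * ((g ^ k)⁻¹ * b * g ^ k)) := by
  obtain ⟨p₀, hp₀⟩ := ha'
  obtain ⟨q₀, hq₀⟩ := hb'
  set C : ℝ := 3 * (100 * δ) + 6 * δ + 4 with hC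
  obtain ⟨ma, hma⟩ := h.exists_min p₀
  obtain ⟨mb, hmb⟩ := h.exists_min q₀
  obtain ⟨Pa, hPa⟩ := index_bdd h (proper o) ha C
  obtain ⟨Pb, hPb⟩ := index_bdd h (proper o) hb C
  set c := Lox.c1 o g δ with hc
  set R : ℕ := ⌈100 * (100 * δ + δ) + 2 * c + 2 * δ⌉₊ with hR
  set R' : ℕ := ⌈c + δ⌉₊ + 1 with hR'
  refine ⟨(ma - mb).natAbs + Pa + Pb + R + R', ?_⟩
  set k : ℕ := (ma - mb).natAbs + Pa + Pb + R + R' with hk
  have conj : ∀ q : Pt W, dist q (((g ^ k)⁻¹ * b * g ^ k) • q) = dist (g ^ k • q) (b • g ^ k • q) := by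
    intro q
    rw [mul_smul, mul_smul, ← dist_smul (g ^ k) q, smul_inv_smul]
  refine far h.hyp hδ (C₀ := 100 * δ) (by linarith) ⟨p₀, hp₀⟩ ⟨(g ^ k)⁻¹ • q₀, ?_⟩ ?_
  · rw [conj, smul_inv_smul]
    exact hq₀
  · intro p q hp hq
    rw [conj] at hq
    obtain ⟨m, hm⟩ := h.exists_min p
    obtain ⟨m', hm'⟩ := h.exists_min (g ^ k • q)
    have i1 := hPa p₀ p ma m hma hm (by linarith) hp
    have i2 := hPa p p₀ m ma hm hma hp (by linarith)
    have i3 := hPb q₀ (g ^ k • q) mb m' hmb hm' (by linarith) hq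
    have i4 := hPb (g ^ k • q) q₀ m' mb hm' hmb hq (by linarith)
    have key : ∀ j : ℤ, dist q (g ^ (j - k) • o) = dist (g ^ k • q) (g ^ j • o) := by
      intro j
      rw [← dist_smul (g ^ k) q, smul_smul]
      congr 2
      rw [← zpow_natCast, ← zpow_add]
      congr 1
      ring
    have hm'' : ∀ j : ℤ, dist q (g ^ (m' - k) • o) ≤ dist q (g ^ j • o) := by
      intro j
      rw [key]
      have := key (j + k)
      rw [add_sub_cancel_right] at this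
      rw [this]
      exact hm' _
    have hP := h.isProj_line hm
    have hQ := h.isProj_line hm''
    have hlow : ((R + R' : ℕ) : ℝ) ≤ dist (g ^ m • o) (g ^ (m' - k) • o) := by
      rw [dist_zpow]
      have h1 := h.tl_ge (m' - k - m).natAbs
      have h2 : R + R' ≤ (m' - k - m).natAbs := by omega
      have h3 : ((R + R' : ℕ) : ℝ) ≤ ((m' - k - m).natAbs : ℝ) := by exact_mod_cast h2
      linarith
    have hR1 : 100 * (100 * δ + δ) + 2 * c + 2 * δ ≤ R := Nat.le_ceil _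
    have hR2 : c + δ < R' := by
      have := Nat.le_ceil (c + δ)
      rw [hR']
      push_cast
      linarith
    have hR0 : (0 : ℝ) ≤ R := Nat.cast_nonneg _
    have hR0' : (0 : ℝ) ≤ R' := Nat.cast_nonneg _
    push_cast at hlow
    have h1 := far_of_proj h.hyp hP hQ (by linarith)
    have h2 := dist_nonneg (x := p) (y := g ^ m • o)
    have h3 := dist_nonneg (x := q) (y := g ^ (m' - k) • o)
    linarith

/-- the fixed set of an element with finite centralizer is finite -/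
lemma fix_finite {v : Γ} (hv : IsOfFinOrder v)
    (hcent : ∀ y, Commute v y → y ∈ Subgroup.zpowers v) (C : ℝ) :
    {x : Pt W | dist x (v • x) ≤ C}.Finite := by
  have hB := W.fin ⌊C⌋₊
  let φ : Pt W → Γ := fun x => x.out⁻¹ * (v * x.out)
  have hsub : {x : Pt W | dist x (v • x) ≤ C} ⊆ φ ⁻¹' {g | W.ℓ g ≤ ⌊C⌋₊} := by
    intro x hx
    have h1 : dist x (v • x) ≤ C := hx
    rw [dist_def, smul_out] at h1
    exact Nat.le_floor h1
  refine Set.Finite.subset (Set.Finite.preimage' hB fun β _ => ?_) hsub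
  rcases Set.eq_empty_or_nonempty (φ ⁻¹' {β}) with h1 | ⟨x₀, hx₀⟩
  · rw [h1]
    exact Set.finite_empty
  have hz : (Subgroup.zpowers v : Set Γ).Finite := by
    have := hv.finite_zpowers
    exact this
  refine Set.Finite.subset (hz.image fun γ => pt W (γ * x₀.out)) ?_
  intro x hx
  have e1 : x.out⁻¹ * (v * x.out) = x₀.out⁻¹ * (v * x₀.out) := by
    have h1 : φ x = β := hx
    have h2 : φ x₀ = β := hx₀
    exact h1.trans h2.symm
  refine ⟨x.out * x₀.out⁻¹, hcent _ ?_, ?_⟩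
  · show v * (x.out * x₀.out⁻¹) = x.out * x₀.out⁻¹ * v
    calc v * (x.out * x₀.out⁻¹) = x.out * (x.out⁻¹ * (v * x.out)) * x₀.out⁻¹ := by group
      _ = x.out * (x₀.out⁻¹ * (v * x₀.out)) * x₀.out⁻¹ := by rw [e1]
      _ = x.out * x₀.out⁻¹ * v := by group
  · show pt W (x.out * x₀.out⁻¹ * x₀.out) = x
    rw [inv_mul_cancel_right, pt_out]

/-- the normal closure of an element of odd prime order has elements of infinite order -/
lemma inf_odd (h : GHyp (Pt W) δ) (hδ : 1 ≤ δ) (hΓ : KGrp Γ) [Infinite Γ] {v : Γ}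
    (hv : (orderOf v).Prime) (hv2 : orderOf v ≠ 2) :
    ∃ f ∈ Subgroup.normalClosure {v}, ¬ IsOfFinOrder f := by
  have hvf : IsOfFinOrder v := by
    rw [← orderOf_pos_iff]
    exact hv.pos
  set C : ℝ := 3 * (100 * δ) + 6 * δ + 4 with hC
  have hfix := fix_finite (W := W) hvf (hΓ.cent v hv hv2) C
  set Fx : Set (Pt W) := {x : Pt W | dist x (v • x) ≤ C} with hFx
  have hbad : (⋃ p ∈ Fx, ⋃ q ∈ Fx, {γ : Γ | dist p (γ • q) ≤ 100 * (100 * δ + δ)}).Finite := by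
    refine hfix.biUnion fun p _ => hfix.biUnion fun q _ => ?_
    refine (proper q (100 * (100 * δ + δ) + dist p q)).subset ?_
    intro γ hγ
    have h1 : dist p (γ • q) ≤ 100 * (100 * δ + δ) := hγ
    have h2 := dist_triangle q p (γ • q)
    rw [dist_comm q p] at h2
    show dist q (γ • q) ≤ _
    linarith
  obtain ⟨t, ht⟩ := hbad.exists_notMem
  have ht' : ∀ p ∈ Fx, ∀ q ∈ Fx, 100 * (100 * δ + δ) ≤ dist p (t • q) := by
    intro p hp q hq
    by_contra hcon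
    push Not at hcon
    exact ht (Set.mem_biUnion hp (Set.mem_biUnion hq hcon.le))
  have hvN : v ∈ Subgroup.normalClosure {v} := Subgroup.subset_normalClosure rfl
  have hconjN : t * v * t⁻¹ ∈ Subgroup.normalClosure {v} :=
    Subgroup.normalClosure_normal.conj_mem v hvN t
  refine ⟨v * (t * v * t⁻¹), mul_mem hvN hconjN, ?_⟩
  obtain ⟨x₀, hx₀⟩ := disp_of_fin h hδ v hvf
  have conj : ∀ q : Pt W, dist q ((t * v * t⁻¹) • q) = dist (t⁻¹ • q) (v • t⁻¹ • q) := by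
    intro q
    rw [mul_smul, mul_smul, ← dist_smul t (t⁻¹ • q), smul_inv_smul]
  refine far h hδ (C₀ := 100 * δ) (by linarith) ⟨x₀, hx₀⟩ ⟨t • x₀, ?_⟩ ?_
  · rw [conj, inv_smul_smul]
    exact hx₀
  · intro p q hp hq
    rw [conj] at hq
    have := ht' p hp (t⁻¹ • q) hq
    rwa [smul_inv_smul] at this

theorem e2 (hΓ : KGrp Γ) [Infinite Γ] {y₀ : Γ} (hy₀ : (orderOf y₀).Prime) (hy₀' : orderOf y₀ ≠ 2)
    {a b v : Γ} (ha : orderOf a = 2) (hb : orderOf b = 2) (hv : v ≠ 1) :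
    ∃ w ∈ Subgroup.normalClosure {v}, ¬ IsOfFinOrder (a * (w⁻¹ * b * w)) := by
  obtain ⟨W, δ', h'⟩ := hΓ.hyp
  set δ : ℝ := max δ' 1 with hδd
  have h : GHyp (Pt W) δ := GHyp.mono h' (le_max_left _ _)
  have hδ : 1 ≤ δ := le_max_right _ _
  have hN : (Subgroup.normalClosure {v}).Normal := Subgroup.normalClosure_normal
  have hvN : v ∈ Subgroup.normalClosure {v} := Subgroup.subset_normalClosure rfl
  -- involutions and powers of `y₀`
  have hpow : ∀ m : ℤ, m ≠ 0 → m.natAbs ≤ 2 → (orderOf (y₀ ^ m)) = orderOf y₀ := by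
    intro m hm hm2
    have h1 : orderOf (y₀ ^ m) = orderOf (y₀ ^ m.natAbs) := by
      rcases Int.natAbs_eq m with h2 | h2
      · conv_lhs => rw [h2]
        rw [zpow_natCast]
      · conv_lhs => rw [h2]
        rw [zpow_neg, orderOf_inv, zpow_natCast]
    rw [h1]
    refine Nat.Coprime.orderOf_pow ?_
    rw [Nat.Prime.coprime_iff_not_dvd hy₀]
    intro hd
    have h2 := Nat.le_of_dvd (by omega) hd
    have h3 := hy₀.two_le
    omega
  have hnc : ∀ m : ℤ, m ≠ 0 → m.natAbs ≤ 2 → ∀ x : Γ, orderOf x = 2 → ¬ Commute (y₀ ^ m) x := by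
    intro m hm hm2 x hx hcomm
    have h1 := hpow m hm hm2
    have h2 := hΓ.cent (y₀ ^ m) (by rw [h1]; exact hy₀) (by rw [h1]; exact hy₀') x hcomm
    have h3 := orderOf_dvd_of_mem_zpowers h2
    rw [h1, hx] at h3
    rcases (Nat.dvd_prime hy₀).1 h3 with h4 | h4
    · norm_num at h4
    · exact hy₀' h4.symm
  -- an element of infinite order
  have hf₀ : ∃ f ∈ Subgroup.normalClosure {v}, ¬ IsOfFinOrder f := by
    by_cases hvf : IsOfFinOrder v
    swap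
    · exact ⟨v, hvN, hvf⟩
    rcases hΓ.ord v hvf with h1 | hvp
    · exact absurd h1 hv
    by_cases hv2 : orderOf v = 2
    swap
    · exact inf_odd h hδ hΓ hvp hv2
    have hvv : v * v = 1 := by rw [← pow_two, ← hv2, pow_orderOf_eq_one]
    have hv'N : y₀ * v * y₀⁻¹ ∈ Subgroup.normalClosure {v} := hN.conj_mem v hvN y₀
    have htN : v * (y₀ * v * y₀⁻¹) ∈ Subgroup.normalClosure {v} := mul_mem hvN hv'N
    have hv'v' : (y₀ * v * y₀⁻¹) * (y₀ * v * y₀⁻¹) = 1 := by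
      calc (y₀ * v * y₀⁻¹) * (y₀ * v * y₀⁻¹) = y₀ * (v * v) * y₀⁻¹ := by group
        _ = 1 := by rw [hvv]; group
    have hne : v ≠ y₀ * v * y₀⁻¹ := by
      intro he
      apply hnc 1 one_ne_zero (by norm_num) v hv2
      rw [zpow_one]
      show y₀ * v = v * y₀
      conv_rhs => rw [he]
      group
    have hv'2 : orderOf (y₀ * v * y₀⁻¹) = 2 := by
      rw [orderOf_eq_prime_iff]
      refine ⟨by rw [pow_two]; exact hv'v', fun h1 => hv ?_⟩
      rw [conj_eq_one_iff] at h1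
      exact h1
    have ht1 : v * (y₀ * v * y₀⁻¹) ≠ 1 := by
      intro h1
      apply hne
      have h2 : v * (v * (y₀ * v * y₀⁻¹)) = v := by rw [h1, mul_one]
      rw [← mul_assoc, hvv, one_mul] at h2
      exact h2.symm
    by_cases htf : IsOfFinOrder (v * (y₀ * v * y₀⁻¹))
    swap
    · exact ⟨_, htN, htf⟩
    rcases hΓ.ord _ htf with h1 | htp
    · exact absurd h1 ht1
    by_cases ht2 : orderOf (v * (y₀ * v * y₀⁻¹)) = 2
    · exfalso
      apply hne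
      refine hΓ.inv v (y₀ * v * y₀⁻¹) hv2 hv'2 ?_
      have htt : (v * (y₀ * v * y₀⁻¹)) * (v * (y₀ * v * y₀⁻¹)) = 1 := by
        rw [← pow_two, ← ht2, pow_orderOf_eq_one]
      have hvi : v⁻¹ = v := inv_eq_of_mul_eq_one_left hvv
      have hv'i : (y₀ * v * y₀⁻¹)⁻¹ = y₀ * v * y₀⁻¹ := inv_eq_of_mul_eq_one_left hv'v'
      have h3 := inv_eq_of_mul_eq_one_left htt
      rw [mul_inv_rev, hvi, hv'i] at h3
      exact h3.symm
    · obtain ⟨f, hf, hf'⟩ := inf_odd h hδ hΓ htp ht2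
      exact ⟨f, Subgroup.normalClosure_le_normal (Set.singleton_subset_iff.2 htN) hf, hf'⟩
  obtain ⟨f₀, hf₀N, hf₀⟩ := hf₀
  -- make `a`, `b` not commute with powers
  have hinj : ∀ x : Γ, orderOf x = 2 → ∀ k l : ℕ, k ≤ 2 → l ≤ 2 →
      (∃ m : ℤ, m ≠ 0 ∧ Commute (y₀ ^ k * x * (y₀ ^ k)⁻¹) (f₀ ^ m)) →
      (∃ m : ℤ, m ≠ 0 ∧ Commute (y₀ ^ l * x * (y₀ ^ l)⁻¹) (f₀ ^ m)) → k = l := by
    intro x hx k l hk hl ⟨m, hm, h1⟩ ⟨n, hn, h2⟩
    have hxx : x ^ 2 = 1 := by rw [← hx, pow_orderOf_eq_one]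
    have hx1 : x ≠ 1 := by
      intro h3
      rw [h3, orderOf_one] at hx
      norm_num at hx
    have hord : ∀ y : Γ, orderOf (y * x * y⁻¹) = 2 := by
      intro y
      rw [orderOf_eq_prime_iff]
      refine ⟨?_, fun h3 => hx1 (conj_eq_one_iff.1 h3)⟩
      rw [conj_pow, hxx]
      group
    have h3 := one_inv hΓ hf₀ (hord _) (hord _) hm hn h1 h2
    by_contra hkl
    apply hnc ((l : ℤ) - k) (by omega) (by omega) x hx
    show y₀ ^ ((l : ℤ) - k) * x = x * y₀ ^ ((l : ℤ) - k)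
    have h4 : y₀ ^ ((l : ℤ) - k) = (y₀ ^ k)⁻¹ * y₀ ^ l := by
      rw [sub_eq_neg_add, zpow_add, zpow_neg, zpow_natCast, zpow_natCast]
    rw [h4]
    calc (y₀ ^ k)⁻¹ * y₀ ^ l * x = (y₀ ^ k)⁻¹ * (y₀ ^ l * x * (y₀ ^ l)⁻¹) * y₀ ^ l := by group
      _ = (y₀ ^ k)⁻¹ * (y₀ ^ k * x * (y₀ ^ k)⁻¹) * y₀ ^ l := by rw [h3]
      _ = x * ((y₀ ^ k)⁻¹ * y₀ ^ l) := by group
  obtain ⟨k, hka, hkb⟩ : ∃ k : ℕ,
      (¬ ∃ m : ℤ, m ≠ 0 ∧ Commute (y₀ ^ k * a * (y₀ ^ k)⁻¹) (f₀ ^ m)) ∧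
      (¬ ∃ m : ℤ, m ≠ 0 ∧ Commute (y₀ ^ k * b * (y₀ ^ k)⁻¹) (f₀ ^ m)) := by
    by_contra hcon
    push Not at hcon
    have hor : ∀ k : ℕ, (∃ m : ℤ, m ≠ 0 ∧ Commute (y₀ ^ k * a * (y₀ ^ k)⁻¹) (f₀ ^ m)) ∨
        (∃ m : ℤ, m ≠ 0 ∧ Commute (y₀ ^ k * b * (y₀ ^ k)⁻¹) (f₀ ^ m)) := by
      intro k
      by_cases h1 : ∃ m : ℤ, m ≠ 0 ∧ Commute (y₀ ^ k * a * (y₀ ^ k)⁻¹) (f₀ ^ m)
      · exact Or.inl h1
      · right
        push Not at h1
        exact hcon k h1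
    rcases hor 0 with h0 | h0 <;> rcases hor 1 with h1 | h1 <;> rcases hor 2 with h2 | h2
    · exact absurd (hinj a ha 0 1 (by norm_num) (by norm_num) h0 h1) (by norm_num)
    · exact absurd (hinj a ha 0 1 (by norm_num) (by norm_num) h0 h1) (by norm_num)
    · exact absurd (hinj a ha 0 2 (by norm_num) (by norm_num) h0 h2) (by norm_num)
    · exact absurd (hinj b hb 1 2 (by norm_num) (by norm_num) h1 h2) (by norm_num)
    · exact absurd (hinj a ha 1 2 (by norm_num) (by norm_num) h1 h2) (by norm_num)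
    · exact absurd (hinj b hb 0 2 (by norm_num) (by norm_num) h0 h2) (by norm_num)
    · exact absurd (hinj b hb 0 1 (by norm_num) (by norm_num) h0 h1) (by norm_num)
    · exact absurd (hinj b hb 0 1 (by norm_num) (by norm_num) h0 h1) (by norm_num)
  set f : Γ := (y₀ ^ k)⁻¹ * f₀ * y₀ ^ k with hf
  have hfN : f ∈ Subgroup.normalClosure {v} := by
    have := hN.conj_mem f₀ hf₀N (y₀ ^ k)⁻¹
    rwa [inv_inv] at this
  have hfpow : ∀ m : ℤ, f ^ m = (y₀ ^ k)⁻¹ * f₀ ^ m * y₀ ^ k := by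
    intro m
    have := conj_zpow (i := m) (a := (y₀ ^ k)⁻¹) (b := f₀)
    rw [inv_inv] at this
    exact this
  have hfinf : ¬ IsOfFinOrder f := by
    intro h1
    rw [isOfFinOrder_iff_zpow_eq_one] at h1
    obtain ⟨m, hm, h2⟩ := h1
    rw [hfpow] at h2
    apply inf_zpow_ne hf₀ hm
    calc f₀ ^ m = y₀ ^ k * ((y₀ ^ k)⁻¹ * f₀ ^ m * y₀ ^ k) * (y₀ ^ k)⁻¹ := by group
      _ = 1 := by rw [h2]; group
  have htrans : ∀ x : Γ, (¬ ∃ m : ℤ, m ≠ 0 ∧ Commute (y₀ ^ k * x * (y₀ ^ k)⁻¹) (f₀ ^ m)) →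
      ∀ m : ℤ, m ≠ 0 → ¬ Commute x (f ^ m) := by
    intro x hx m hm hc
    apply hx
    refine ⟨m, hm, ?_⟩
    have hc' : x * f ^ m = f ^ m * x := hc
    rw [hfpow] at hc'
    show y₀ ^ k * x * (y₀ ^ k)⁻¹ * f₀ ^ m = f₀ ^ m * (y₀ ^ k * x * (y₀ ^ k)⁻¹)
    calc y₀ ^ k * x * (y₀ ^ k)⁻¹ * f₀ ^ m
        = y₀ ^ k * (x * ((y₀ ^ k)⁻¹ * f₀ ^ m * y₀ ^ k)) * (y₀ ^ k)⁻¹ := by group
      _ = y₀ ^ k * ((y₀ ^ k)⁻¹ * f₀ ^ m * y₀ ^ k * x) * (y₀ ^ k)⁻¹ := by rw [hc']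
      _ = f₀ ^ m * (y₀ ^ k * x * (y₀ ^ k)⁻¹) := by group
  -- a loxodromic power
  obtain ⟨J, hJ⟩ := lox_of_inf h hδ
  obtain ⟨j, hj, _, x, hx⟩ := hJ f hfinf
  have htrans2 : ∀ y : Γ, (∀ m : ℤ, m ≠ 0 → ¬ Commute y (f ^ m)) →
      ∀ m : ℤ, m ≠ 0 → ¬ Commute y ((f ^ j) ^ m) := by
    intro y hy m hm
    rw [← zpow_natCast, ← zpow_mul]
    refine hy _ (mul_ne_zero ?_ hm)
    omega
  have hafin : IsOfFinOrder a := by rw [← orderOf_pos_iff]; omega
  have hbfin : IsOfFinOrder b := by rw [← orderOf_pos_iff]; omega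
  obtain ⟨n, hn⟩ := far_conj hx hδ (htrans2 a (htrans a hka)) (htrans2 b (htrans b hkb))
    (disp_of_fin h hδ a hafin) (disp_of_fin h hδ b hbfin)
  exact ⟨(f ^ j) ^ n, pow_mem (pow_mem hfN j) n, hn⟩

end main

end Pool.Agent.TH68
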