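import Mathlib

set_option autoImplicit false

/-! A finite group with all elements of prime order, self-centralizing odd elements and commuting
involutions equal has at most two primes. -/

namespace Pool.Agent.TH68

/-- such a group has cyclic Sylow subgroups -/
theorem fin_sylow {G : Type*} [Group G] [Finite G]
    (ord : ∀ x : G, x = 1 ∨ (orderOf x).Prime)
    (cent : ∀ x : G, (orderOf x).Prime → orderOf x ≠ 2 → ∀ y, Commute x y → y ∈ Subgroup.zpowers x)
    (inv : ∀ a b : G, orderOf a = 2 → orderOf b = 2 → Commute a b → a = b) : IsZGroup G := by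
  refine ⟨fun r hr P => ?_⟩
  have : Fact r.Prime := ⟨hr⟩
  by_cases hP : Nontrivial P
  · have hPG : IsPGroup r P := P.isPGroup'
    have := hPG.center_nontrivial
    obtain ⟨c, hc⟩ := exists_ne (1 : Subgroup.center P)
    have hc1 : ((c : P) : G) ≠ 1 := by
      intro h
      apply hc
      ext
      simpa using h
    have hcom : ∀ y : P, Commute ((c : P) : G) (y : G) := by
      intro y
      have h := Subgroup.mem_center_iff.1 c.2 y
      have h2 := congrArg (fun t : P => (t : G)) h
      simp only [Subgroup.coe_mul] at h2
      exact h2.symm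
    have hpr : (orderOf ((c : P) : G)).Prime := (ord _).resolve_left hc1
    -- P ≤ zpowers c
    have hle : (P : Subgroup G) ≤ Subgroup.zpowers ((c : P) : G) := by
      intro y hy
      by_cases h2 : orderOf ((c : P) : G) = 2
      · by_cases hy1 : y = 1
        · rw [hy1]; exact Subgroup.one_mem _
        · have hyp : (orderOf y).Prime := (ord _).resolve_left hy1
          obtain ⟨k, hk⟩ := IsPGroup.iff_orderOf.1 hPG (c : P)
          obtain ⟨l, hl⟩ := IsPGroup.iff_orderOf.1 hPG (⟨y, hy⟩ : P)
          rw [← Subgroup.orderOf_coe] at hk hl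
          have hr2 : r = 2 := by
            have hd : 2 ∣ r ^ k := by rw [← hk, h2]
            exact ((Nat.prime_dvd_prime_iff_eq Nat.prime_two hr).1
              (Nat.prime_two.dvd_of_dvd_pow hd)).symm
          have hy2 : orderOf y = 2 := by
            have hd : orderOf y ∣ r ^ l := by rw [← hl]
            have := (Nat.prime_dvd_prime_iff_eq hyp hr).1 (hyp.dvd_of_dvd_pow hd)
            rw [this, hr2]
          have := inv _ _ h2 hy2 (hcom ⟨y, hy⟩)
          rw [← this]
          exact Subgroup.mem_zpowers _
      · exact cent _ hpr h2 y (hcom ⟨y, hy⟩)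
    exact Subgroup.isCyclic_of_le hle
  · rw [not_nontrivial_iff_subsingleton] at hP
    infer_instance

theorem fin_primes {G : Type*} [Group G] [Finite G]
    (ord : ∀ x : G, x = 1 ∨ (orderOf x).Prime)
    (cent : ∀ x : G, (orderOf x).Prime → orderOf x ≠ 2 → ∀ y, Commute x y → y ∈ Subgroup.zpowers x)
    (inv : ∀ a b : G, orderOf a = 2 → orderOf b = 2 → Commute a b → a = b)
    {x y z : G} {p q : ℕ} (hp : p.Prime) (hq : q.Prime) (hp2 : p ≠ 2) (hq2 : q ≠ 2) (hpq : p ≠ q)
    (hx : orderOf x = 2) (hy : orderOf y = p) (hz : orderOf z = q) : False := by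
  have := fin_sylow ord cent inv
  have hord : ∀ g : G, orderOf g = 1 ∨ (orderOf g).Prime := fun g => by
    rcases ord g with h | h
    · left; rw [h, orderOf_one]
    · right; exact h
  -- the commutator subgroup
  have hA : Nat.card (commutator G) = 1 ∨ (Nat.card (commutator G)).Prime := by
    have := IsZGroup.isCyclic_commutator G
    obtain ⟨g, hg⟩ := IsCyclic.exists_generator (α := commutator G)
    have h := orderOf_eq_card_of_forall_mem_zpowers hg
    rw [← h, ← Subgroup.orderOf_coe]
    exact hord _
  have hB : Nat.card (Abelianization G) = 1 ∨ (Nat.card (Abelianization G)).Prime := by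
    have := IsZGroup.isCyclic_abelianization (G := G)
    obtain ⟨g, hg⟩ := IsCyclic.exists_generator (α := Abelianization G)
    have h := orderOf_eq_card_of_forall_mem_zpowers hg
    obtain ⟨g', hg'⟩ : ∃ g' : G, Abelianization.of g' = g := by
      obtain ⟨g', hg'⟩ := Quotient.exists_rep g
      exact ⟨g', hg'⟩
    have hd : orderOf g ∣ orderOf g' := by
      rw [← hg']
      exact orderOf_map_dvd _ _
    rw [← h]
    rcases hord g' with h1 | h1
    · left
      rw [h1] at hd
      exact Nat.dvd_one.1 hd
    · rcases (Nat.dvd_prime h1).1 hd with h2 | h2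
      · left; exact h2
      · right; rw [h2]; exact h1
  have hcard : Nat.card G = Nat.card (Abelianization G) * Nat.card (commutator G) :=
    Subgroup.card_eq_card_quotient_mul_card_subgroup (commutator G)
  have key : ∀ r : ℕ, r.Prime → r ∣ Nat.card G → r = Nat.card (Abelianization G) ∨
      r = Nat.card (commutator G) := by
    intro r hr hd
    rw [hcard] at hd
    rcases hr.dvd_mul.1 hd with h | h
    · left
      rcases hB with h1 | h1
      · rw [h1] at h; exact absurd (Nat.dvd_one.1 h) hr.one_lt.ne'
      · exact (Nat.prime_dvd_prime_iff_eq hr h1).1 h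
    · right
      rcases hA with h1 | h1
      · rw [h1] at h; exact absurd (Nat.dvd_one.1 h) hr.one_lt.ne'
      · exact (Nat.prime_dvd_prime_iff_eq hr h1).1 h
  have k1 := key 2 Nat.prime_two (hx ▸ orderOf_dvd_natCard x)
  have k2 := key p hp (hy ▸ orderOf_dvd_natCard y)
  have k3 := key q hq (hz ▸ orderOf_dvd_natCard z)
  rcases k1 with k1 | k1 <;> rcases k2 with k2 | k2 <;> rcases k3 with k3 | k3 <;> omega

end Pool.Agent.TH68
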