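import Pool.Agent.TH68.Step
import Pool.Agent.TH68.E2
import Pool.Agent.TH68.Fin

set_option autoImplicit false
set_option linter.unusedSectionVars false

/-! The direct limit. -/

namespace Pool.Agent.TH68

open Pool.Agent.Helper97.Hyp

section equiv

variable {G H : Type*} [Group G] [Group H]

/-- transport of norms -/
def WNorm.transport (W : WNorm G) (e : H ≃* G) : WNorm H where
  ℓ x := W.ℓ (e x)
  one' := by rw [map_one, W.one']
  eq_one g hg := by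
    have := W.eq_one _ hg
    exact (map_eq_one_iff e e.injective).mp this
  inv' g := by rw [map_inv, W.inv']
  mul_le g h := by rw [map_mul]; exact W.mul_le _ _
  geod g k hk := by
    obtain ⟨a, b, hab, ha, hb⟩ := W.geod (e g) k hk
    refine ⟨e.symm a, e.symm b, ?_, ?_, ?_⟩
    · rw [← map_mul, hab, e.symm_apply_apply]
    · rw [e.apply_symm_apply, ha]
    · rw [e.apply_symm_apply, hb]
  fin r := by
    have h := W.fin r
    exact h.preimage e.injective.injOn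

lemma HypGroup.of_equiv (hG : HypGroup G) (e : H ≃* G) : HypGroup H := by
  obtain ⟨W, δ, h⟩ := hG
  refine ⟨W.transport e, δ, ?_⟩
  intro x y z w
  have key : ∀ a b : Pt (W.transport e), dist a b = dist (pt W (e a.out)) (pt W (e b.out)) := by
    intro a b
    rw [dist_def, dist_def, out_pt, out_pt]
    change (W.ℓ (e (a.out⁻¹ * b.out)) : ℝ) = _
    rw [map_mul, map_inv]
  rw [key, key, key, key, key, key]
  exact h _ _ _ _

lemma KGrp.of_equiv (hG : KGrp G) (e : H ≃* G) : KGrp H where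
  hyp := hG.hyp.of_equiv e
  ord x hx := by
    rcases hG.ord (e x) (e.toMonoidHom.isOfFinOrder hx) with h | h
    · left; exact (map_eq_one_iff e e.injective).mp h
    · right; rwa [MulEquiv.orderOf_eq] at h
  cent x hx hx2 y hxy := by
    obtain ⟨s, hs⟩ := hG.cent (e x) (by rwa [MulEquiv.orderOf_eq]) (by rwa [MulEquiv.orderOf_eq])
      (e y) (hxy.map e)
    refine ⟨s, e.injective ?_⟩
    have hs' : e x ^ s = e y := hs
    simp only [map_zpow]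
    exact hs'
  inv a b ha hb hab := by
    apply e.injective
    exact hG.inv _ _ (by rwa [MulEquiv.orderOf_eq]) (by rwa [MulEquiv.orderOf_eq]) (hab.map e)

end equiv

/-- a stage of the construction -/
structure St {Γ : Type*} [Group Γ] (L : Set Γ) (p q : ℕ) (i y z : Γ) where
  K : Subgroup Γ
  normal : K.Normal
  kgrp : KGrp (Γ ⧸ K)
  hL : ∀ x ∈ L, x ∉ K
  hy : y ^ p ∈ K
  hz : z ^ q ∈ K

attribute [instance] St.normal

/-- the constant data -/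
structure Dat {Γ : Type*} [Group Γ] (L : Set Γ) (p q : ℕ) (i y z : Γ) : Prop where
  fin : L.Finite
  hi : i ∈ L
  hyL : y ∈ L
  hzL : z ∈ L
  i2 : i ^ 2 = 1
  hp : p.Prime
  hq : q.Prime
  hp2 : p ≠ 2
  hq2 : q ≠ 2
  hpq : p ≠ q

namespace St

variable {Γ : Type*} [Group Γ] {L : Set Γ} {p q : ℕ} {i y z : Γ}

lemma ord_i (hD : Dat L p q i y z) (S : St L p q i y z) : orderOf (i : Γ ⧸ S.K) = 2 := by
  apply orderOf_eq_prime
  · rw [← QuotientGroup.mk_pow, hD.i2]; rfl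
  · rw [Ne, mk_eq_one]; exact S.hL _ hD.hi

lemma ord_y (hD : Dat L p q i y z) (S : St L p q i y z) : orderOf (y : Γ ⧸ S.K) = p := by
  have := Fact.mk hD.hp
  apply orderOf_eq_prime
  · rw [← QuotientGroup.mk_pow, mk_eq_one]; exact S.hy
  · rw [Ne, mk_eq_one]; exact S.hL _ hD.hyL

lemma ord_z (hD : Dat L p q i y z) (S : St L p q i y z) : orderOf (z : Γ ⧸ S.K) = q := by
  have := Fact.mk hD.hq
  apply orderOf_eq_prime
  · rw [← QuotientGroup.mk_pow, mk_eq_one]; exact S.hz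
  · rw [Ne, mk_eq_one]; exact S.hL _ hD.hzL

lemma inf (hD : Dat L p q i y z) (S : St L p q i y z) : Infinite (Γ ⧸ S.K) := by
  by_contra h
  rw [not_infinite_iff_finite] at h
  exact fin_primes (fun x => S.kgrp.ord x (isOfFinOrder_of_finite x)) S.kgrp.cent S.kgrp.inv
    hD.hp hD.hq hD.hp2 hD.hq2 hD.hpq (S.ord_i hD) (S.ord_y hD) (S.ord_z hD)

/-- the preimage of a normal subgroup of the quotient -/
def pull (K : Subgroup Γ) [K.Normal] (N : Subgroup (Γ ⧸ K)) : Subgroup Γ :=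
  N.comap (QuotientGroup.mk' K)

lemma mem_pull {K : Subgroup Γ} [K.Normal] {N : Subgroup (Γ ⧸ K)} {x : Γ} :
    x ∈ pull K N ↔ (x : Γ ⧸ K) ∈ N := Iff.rfl

instance pull_normal (K : Subgroup Γ) [K.Normal] (N : Subgroup (Γ ⧸ K)) [N.Normal] :
    (pull K N).Normal := Subgroup.Normal.comap ‹_› _

lemma pull_kgrp (K : Subgroup Γ) [K.Normal] (N : Subgroup (Γ ⧸ K)) [N.Normal]
    (h : KGrp ((Γ ⧸ K) ⧸ N)) : KGrp (Γ ⧸ pull K N) := by
  have hs : Function.Surjective ((QuotientGroup.mk' N).comp (QuotientGroup.mk' K)) :=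
    (QuotientGroup.mk'_surjective N).comp (QuotientGroup.mk'_surjective K)
  have hk : pull K N = ((QuotientGroup.mk' N).comp (QuotientGroup.mk' K)).ker := by
    ext x
    rw [mem_pull, MonoidHom.mem_ker]
    exact (QuotientGroup.eq_one_iff _).symm
  exact h.of_equiv (QuotientGroup.liftEquiv _ hs hk)

/-- one kill, as a statement about the quotient -/
lemma kill_aux {G : Type*} [Group G] (hG : KGrp G) {g : G} (hg : Root g) (m₁ : ℕ) {B : Set G}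
    (hB : B.Finite) (hB1 : ∀ b ∈ B, b ≠ 1) :
    ∃ m : ℕ, m₁ ≤ m ∧ m.Prime ∧ ∃ N : Subgroup G, N.Normal ∧ g ^ m ∈ N ∧
      (∀ b ∈ B, b ∉ N) ∧ ∀ [N.Normal], KGrp (G ⧸ N) := by
  obtain ⟨m₀, hm₀⟩ := step hG hg (hB.insert 1) (F := ∅) Set.finite_empty (by simp) (by simp)
  obtain ⟨m, hm, hmp⟩ := Nat.exists_infinite_primes (max m₀ m₁)
  obtain ⟨h1, h2, -⟩ := hm₀ m (le_trans (le_max_left _ _) hm) hmp
  refine ⟨m, le_trans (le_max_right _ _) hm, hmp, Subgroup.normalClosure {g ^ m},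
    Subgroup.normalClosure_normal, Subgroup.subset_normalClosure rfl, ?_, ?_⟩
  · intro b hb hbN
    apply hB1 b hb
    symm
    apply h2 1 (Or.inl rfl) b (Or.inr hb)
    rwa [inv_one, one_mul]
  · intro _
    exact h1

lemma kill (hD : Dat L p q i y z) (S : St L p q i y z) {g : Γ ⧸ S.K} (hg : Root g) (m₁ : ℕ)
    {T : Set Γ} (hT : T.Finite) (hTK : ∀ x ∈ T, x ∉ S.K) :
    ∃ m : ℕ, m₁ ≤ m ∧ m.Prime ∧ ∃ S' : St L p q i y z, S.K ≤ S'.K ∧ (∀ x ∈ T, x ∉ S'.K) ∧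
      ∀ x : Γ, (x : Γ ⧸ S.K) ∈ Subgroup.zpowers g → x ^ m ∈ S'.K := by
  have hB : ((QuotientGroup.mk : Γ → Γ ⧸ S.K) '' (L ∪ T)).Finite := (hD.fin.union hT).image _
  obtain ⟨m, hm, hmp, N, hN, hgN, hBN, hKN⟩ := kill_aux S.kgrp hg m₁ hB (by
    rintro _ ⟨x, hx, rfl⟩ h4
    rw [mk_eq_one] at h4
    rcases hx with hx | hx
    · exact S.hL x hx h4
    · exact hTK x hx h4)
  refine ⟨m, hm, hmp, ?_⟩
  have h1' := pull_kgrp S.K N hKN
  have hnt : ∀ x ∈ L ∪ T, x ∉ pull S.K N := fun x hx hxk => hBN _ ⟨x, hx, rfl⟩ hxk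
  have hle : S.K ≤ pull S.K N := by
    intro x hx
    rw [mem_pull, mk_eq_one.mpr hx]
    exact one_mem _
  refine ⟨⟨_, pull_normal _ _, h1', fun x hx => hnt x (Or.inl hx), hle S.hy, hle S.hz⟩, hle,
    fun x hx => hnt x (Or.inr hx), ?_⟩
  intro x hx
  obtain ⟨s, hs⟩ := hx
  have hs' : g ^ s = (x : Γ ⧸ S.K) := hs
  change x ^ m ∈ pull S.K N
  have h5 : (g ^ s) ^ m = (g ^ m) ^ s := by
    rw [← zpow_natCast, ← zpow_mul, mul_comm, zpow_mul, zpow_natCast]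
  rw [mem_pull, QuotientGroup.mk_pow, ← hs', h5]
  exact Subgroup.zpow_mem _ hgN _

lemma ord_two_of_le {S S' : St L p q i y z} (h : S.K ≤ S'.K) {a : Γ}
    (ha : orderOf (a : Γ ⧸ S.K) = 2) (ha' : a ∉ S'.K) : orderOf (a : Γ ⧸ S'.K) = 2 := by
  apply orderOf_eq_prime
  · rw [← QuotientGroup.mk_pow, mk_eq_one]
    apply h
    rw [← mk_eq_one, QuotientGroup.mk_pow, ← ha, pow_orderOf_eq_one]
  · rw [Ne, mk_eq_one]; exact ha'

lemma not_mem_of_ord {S : St L p q i y z} {a : Γ} (ha : orderOf (a : Γ ⧸ S.K) = 2) :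
    a ∉ S.K := by
  intro h
  rw [← mk_eq_one] at h
  rw [h, orderOf_one] at ha
  omega

/-- killing a product of two involutions -/
lemma kill2 (hD : Dat L p q i y z) (S : St L p q i y z) (m₁ : ℕ) {a b : Γ}
    (ha : orderOf (a : Γ ⧸ S.K) = 2) (hb : orderOf (b : Γ ⧸ S.K) = 2)
    (hab : ¬ IsOfFinOrder ((a * b : Γ) : Γ ⧸ S.K))
    {T : Set Γ} (hT : T.Finite) (hTK : ∀ x ∈ T, x ∉ S.K) :
    ∃ m : ℕ, m₁ ≤ m ∧ m.Prime ∧ ∃ S' : St L p q i y z, S.K ≤ S'.K ∧ (∀ x ∈ T, x ∉ S'.K) ∧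
      (a * b) ^ m ∈ S'.K := by
  obtain ⟨g, hg, hg'⟩ := e1 S.kgrp ha hb (by rwa [← QuotientGroup.mk_mul])
  obtain ⟨m, hm, hmp, S', h1, h2, h3⟩ := S.kill hD hg m₁ hT hTK
  exact ⟨m, hm, hmp, S', h1, h2, h3 _ (by rwa [QuotientGroup.mk_mul])⟩

/-- finite order of `a * b` modulo the normal closure of `v` -/
lemma half (hD : Dat L p q i y z) (S : St L p q i y z) (m₁ : ℕ) {a b v : Γ}
    (ha : orderOf (a : Γ ⧸ S.K) = 2) (hb : orderOf (b : Γ ⧸ S.K) = 2) (hv : v ∉ S.K) :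
    ∃ m : ℕ, m₁ ≤ m ∧ m.Prime ∧ ∃ S' : St L p q i y z, S.K ≤ S'.K ∧
      a ∉ S'.K ∧ b ∉ S'.K ∧ v ∉ S'.K ∧ (a * b) ^ m ∈ Subgroup.normalClosure {v} ⊔ S'.K := by
  have := S.inf hD
  obtain ⟨w, hw, hinf⟩ := e2 S.kgrp (y₀ := (y : Γ ⧸ S.K)) (by rw [S.ord_y hD]; exact hD.hp)
    (by rw [S.ord_y hD]; exact hD.hp2) ha hb (v := (v : Γ ⧸ S.K)) (by rwa [Ne, mk_eq_one])
  have h1 : Subgroup.normalClosure {(v : Γ ⧸ S.K)} =
      (Subgroup.normalClosure {v}).map (QuotientGroup.mk' S.K) := by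
    rw [Subgroup.map_normalClosure _ _ (QuotientGroup.mk'_surjective S.K), Set.image_singleton]
    rfl
  rw [h1] at hw
  obtain ⟨w₀, hw₀, rfl⟩ := hw
  have hw₀' : w₀ ∈ Subgroup.normalClosure {v} := hw₀
  have hb' : orderOf ((w₀⁻¹ * b * w₀ : Γ) : Γ ⧸ S.K) = 2 := by
    have h2 : ((w₀⁻¹ * b * w₀ : Γ) : Γ ⧸ S.K) =
        MulAut.conj (w₀ : Γ ⧸ S.K)⁻¹ (b : Γ ⧸ S.K) := by
      rw [MulAut.conj_apply, inv_inv]; rfl
    rw [h2, MulEquiv.orderOf_eq, hb]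
  obtain ⟨m, hm, hmp, S', h3, h4, h5⟩ := S.kill2 hD m₁ ha hb' hinf (T := {a, b, v})
    (by simp) (by
      rintro x (rfl | rfl | rfl)
      · exact not_mem_of_ord ha
      · exact not_mem_of_ord hb
      · exact hv)
  refine ⟨m, hm, hmp, S', h3, h4 a (by simp), h4 b (by simp), h4 v (by simp), ?_⟩
  -- the two products agree modulo the normal closure of `v`
  set V := Subgroup.normalClosure {v} ⊔ S'.K with hV
  have hVn : V.Normal := Subgroup.sup_normal _ _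
  have h6 : ((a * b : Γ) : Γ ⧸ V) = ((a * (w₀⁻¹ * b * w₀) : Γ) : Γ ⧸ V) := by
    have h7 : (w₀ : Γ ⧸ V) = 1 := mk_eq_one.mpr ((le_sup_left : _ ≤ V) hw₀')
    simp only [QuotientGroup.mk_mul, QuotientGroup.mk_inv, h7]
    group
  rw [← mk_eq_one, QuotientGroup.mk_pow, h6, ← QuotientGroup.mk_pow, mk_eq_one]
  exact (le_sup_right : _ ≤ V) h5

lemma task (hD : Dat L p q i y z) (S : St L p q i y z) (a b v : Γ) :
    ∃ S' : St L p q i y z, S.K ≤ S'.K ∧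
      (orderOf (a : Γ ⧸ S.K) = 2 → orderOf (b : Γ ⧸ S.K) = 2 →
        (∃ k : ℕ, 0 < k ∧ (a * b) ^ k ∈ S'.K) ∧
        (v ∉ S.K → a * b ∈ Subgroup.normalClosure {v} ⊔ S'.K)) := by
  by_cases ha : orderOf (a : Γ ⧸ S.K) = 2
  swap
  · exact ⟨S, le_rfl, fun h => absurd h ha⟩
  by_cases hb : orderOf (b : Γ ⧸ S.K) = 2
  swap
  · exact ⟨S, le_rfl, fun _ h => absurd h hb⟩
  -- first step
  have first : ∃ S' : St L p q i y z, S.K ≤ S'.K ∧ a ∉ S'.K ∧ b ∉ S'.K ∧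
      (v ∉ S.K → v ∉ S'.K) ∧ ∃ k : ℕ, 0 < k ∧ (a * b) ^ k ∈ S'.K := by
    by_cases hab : IsOfFinOrder ((a * b : Γ) : Γ ⧸ S.K)
    · obtain ⟨k, hk, hk1⟩ := hab.exists_pow_eq_one
      rw [← QuotientGroup.mk_pow, mk_eq_one] at hk1
      exact ⟨S, le_rfl, not_mem_of_ord ha, not_mem_of_ord hb, id, k, hk, hk1⟩
    · obtain ⟨m, -, hmp, S', h3, h4, h5⟩ := S.kill2 hD 0 ha hb hab
        (T := {x | x ∈ ({a, b, v} : Set Γ) ∧ x ∉ S.K})
        (Set.Finite.subset (s := ({a, b, v} : Set Γ)) (by simp) (fun x hx => hx.1))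
        (fun x hx => hx.2)
      exact ⟨S', h3, h4 a ⟨by simp, not_mem_of_ord ha⟩, h4 b ⟨by simp, not_mem_of_ord hb⟩,
        fun hv => h4 v ⟨by simp, hv⟩, m, hmp.pos, h5⟩
  obtain ⟨S₁, h1, ha1, hb1, hv1, k, hk, hk1⟩ := first
  by_cases hv : v ∈ S.K
  · exact ⟨S₁, h1, fun _ _ => ⟨⟨k, hk, hk1⟩, fun h => absurd hv h⟩⟩
  obtain ⟨m, -, hm, S₂, h2, ha2, hb2, hv2, h3⟩ := S₁.half hD 0 (ord_two_of_le h1 ha ha1)
    (ord_two_of_le h1 hb hb1) (hv1 hv)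
  obtain ⟨m', hmm', hm', S₃, h4, -, -, -, h5⟩ := S₂.half hD (m + 1)
    (ord_two_of_le (h1.trans h2) ha ha2) (ord_two_of_le (h1.trans h2) hb hb2) hv2
  refine ⟨S₃, (h1.trans h2).trans h4, fun _ _ => ⟨⟨k, hk, h4 (h2 hk1)⟩, fun _ => ?_⟩⟩
  have h6 : (a * b) ^ m ∈ Subgroup.normalClosure {v} ⊔ S₃.K :=
    (sup_le_sup_left h4 _ : Subgroup.normalClosure {v} ⊔ S₂.K ≤ _) h3
  have h7 : IsCoprime (m : ℤ) (m' : ℤ) := by
    rw [Nat.isCoprime_iff_coprime, Nat.coprime_primes hm hm']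
    omega
  obtain ⟨c, d, hcd⟩ := h7
  have h8 : a * b = ((a * b) ^ m) ^ c * ((a * b) ^ m') ^ d := by
    rw [← zpow_natCast, ← zpow_natCast, ← zpow_mul, ← zpow_mul, ← zpow_add]
    have : (m : ℤ) * c + (m' : ℤ) * d = 1 := by linarith
    rw [this, zpow_one]
  rw [h8]
  exact mul_mem (Subgroup.zpow_mem _ h6 _) (Subgroup.zpow_mem _ h5 _)

end St

end Pool.Agent.TH68
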