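import Pool.Agent.Helper97.Hyp.Windmill

set_option autoImplicit false
set_option linter.unusedSectionVars false

/-! The windmill theorem with the rotation. -/

namespace Pool.Agent.Helper97.Hyp

namespace Spin

variable {Γ : Type*} [Group Γ] {𝒜 P : Type*} [MulAction Γ 𝒜] [MulAction Γ P]
variable {D : ProjSys Γ 𝒜 P} {R : Spin D}

open ProjSys

variable {x : P}

namespace Stage

variable (s : Stage R x)

/-- visibility of the first axis -/
lemma V' {prev : Option 𝒜} {p : 𝒜 × Γ × Γ} {l : List (𝒜 × Γ × Γ)} (h : s.Adm prev (p :: l)) :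
    D.d p.1 (p.2.1 • x) (val (p :: l) • x) ≤ 30 * D.θ := by
  have hθ := D.θpos
  have hM := R.hM
  cases l with
  | nil =>
    obtain ⟨hY, hg, hg1, hm, -, -⟩ := h
    simp only [val, mul_one]
    have h2 := s.w3 p.1 hY.1 p.2.2 hm
    have h3 : D.d p.1 (p.2.1 • x) (p.2.1 • p.2.2 • x) ≤ 12 * D.θ := by
      have := D.inv p.2.1 p.1 x (p.2.2 • x)
      rw [R.Gfix _ _ hg] at this
      rw [this]; exact h2
    rw [mul_smul]
    linarith
  | cons p' l =>
    obtain ⟨hY, hg, hg1, hm, -, hadm⟩ := h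
    have hV := s.V hadm
    have hY₂ := hadm.1
    have hne : p'.1 ≠ p.2.2⁻¹ • p.1 := by
      intro h
      exact hadm.2.2.2.2.1 (by rw [h])
    set v := val (p' :: l) with hv
    have hval : val (p :: p' :: l) = p.2.1 * p.2.2 * v := rfl
    rw [hval]
    set Ys := p.2.2⁻¹ • p.1 with hYs
    have hYsL : Ys ∈ s.L := s.L_smul (inv_mem hm) hY
    obtain ⟨ys, hys⟩ := D.Sne Ys
    obtain ⟨y₂, hy₂⟩ := D.Sne p'.1
    have h1 := s.f1 hYsL hY₂.1 hne (one_mem _) hys
    have h2 := s.f1 hY₂ hYsL.1 hne.symm (one_mem _) hy₂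
    rw [one_smul] at h1 h2
    have h3 : D.d Ys (v • x) y₂ ≤ D.θ := by
      rcases D.beh p'.1 Ys (v • x) y₂ ys hne hy₂ hys with h | h
      · have h4 := D.tri p'.1 x ys (v • x)
        rw [D.symm p'.1 ys (v • x)] at h4
        linarith
      · exact h
    have h4 : D.d Ys x (v • x) ≤ 18 * D.θ := by
      have := D.tri Ys x y₂ (v • x)
      rw [D.symm Ys y₂ (v • x)] at this
      linarith
    have h5 : D.d p.1 ((p.2.1 * p.2.2) • x) ((p.2.1 * p.2.2 * v) • x) ≤ 18 * D.θ := by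
      have := D.inv (p.2.1 * p.2.2) Ys x (v • x)
      rw [hYs, mul_smul p.2.1 p.2.2 (p.2.2⁻¹ • p.1), smul_inv_smul, R.Gfix _ _ hg, ← hYs] at this
      rw [mul_smul (p.2.1 * p.2.2) v x, this]
      exact h4
    have h7 : D.d p.1 (p.2.1 • x) ((p.2.1 * p.2.2) • x) ≤ 12 * D.θ := by
      have := D.inv p.2.1 p.1 x (p.2.2 • x)
      rw [R.Gfix _ _ hg] at this
      rw [mul_smul, this]; exact s.w3 p.1 hY.1 p.2.2 hm
    have h8 := D.tri p.1 (p.2.1 • x) ((p.2.1 * p.2.2) • x) ((p.2.1 * p.2.2 * v) • x)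
    linarith

end Stage

/-- the strong windmill theorem -/
theorem swind (R : Spin D) (x : P) {n : Γ} (hn : n ∈ ⨆ A, R.G A) (hn1 : n ≠ 1) :
    ∃ A, ∃ r ∈ R.G A, r ≠ 1 ∧ D.d A (r • x) (n • x) ≤ 42 * D.θ := by
  have h1 : (⨆ A, R.G A) ≤ ⨆ i, (Stage.stg R x i).N := by
    apply iSup_le
    intro A
    obtain ⟨i, hi⟩ := Stage.exhaust (R := R) (x := x) A
    exact le_trans ((Stage.stg R x i).w2 A hi) (le_iSup (fun i => (Stage.stg R x i).N) i)
  have h2 := h1 hn
  have hdir : Directed (· ≤ ·) (fun i => (Stage.stg R x i).N) :=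
    directed_of_isDirected_le (fun i j h => Stage.stg_N_mono h)
  rw [Subgroup.mem_iSup_of_directed hdir] at h2
  obtain ⟨i, hi⟩ := h2
  have hθ := D.θpos
  induction i generalizing n with
  | zero =>
    exact absurd (Subgroup.mem_bot.mp hi) hn1
  | succ i ih =>
    set s := Stage.stg R x i with hs
    have hi' : n ∈ s.N' := hi
    obtain ⟨n₀, hn₀, l, hl, rfl⟩ := s.exists_word hi'
    cases l with
    | nil =>
      simp only [Stage.val, mul_one] at hn hn1 ⊢
      exact ih hn hn1 hn₀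
    | cons p l =>
      have hV := s.V' hl
      refine ⟨n₀ • p.1, n₀ * p.2.1 * n₀⁻¹, R.Gconj n₀ _ _ hl.2.1, ?_, ?_⟩
      · intro h
        apply hl.2.2.1
        calc p.2.1 = n₀⁻¹ * (n₀ * p.2.1 * n₀⁻¹) * n₀ := by group
          _ = 1 := by rw [h]; group
      · have h2 := s.w3 p.1 hl.1.1 n₀⁻¹ (inv_mem hn₀)
        have h3 := D.inv p.2.1 p.1 x (n₀⁻¹ • x)
        rw [R.Gfix _ _ hl.2.1] at h3
        have h4 := D.inv n₀ p.1 (p.2.1 • n₀⁻¹ • x) (Stage.val (p :: l) • x)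
        rw [← mul_smul n₀, ← mul_smul n₀, ← mul_smul] at h4
        rw [h4]
        have h5 := D.tri p.1 (p.2.1 • n₀⁻¹ • x) (p.2.1 • x) (Stage.val (p :: l) • x)
        rw [D.symm p.1 (p.2.1 • n₀⁻¹ • x) (p.2.1 • x), h3] at h5
        linarith

end Spin

end Pool.Agent.Helper97.Hyp
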