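import Pool.Agent.Helper97.Hyp.Basic

set_option autoImplicit false
set_option linter.unusedSectionVars false

/-! Word norms on groups, the associated metric space, hyperbolic groups. -/

namespace Pool.Agent.TH68

open Pool.Agent.Helper97.Hyp

/-- a proper discrete geodesic norm on a group (the word norm of a finite generating set) -/
structure WNorm (Γ : Type*) [Group Γ] where
  ℓ : Γ → ℕ
  one' : ℓ 1 = 0
  eq_one : ∀ g, ℓ g = 0 → g = 1
  inv' : ∀ g, ℓ g⁻¹ = ℓ g
  mul_le : ∀ g h, ℓ (g * h) ≤ ℓ g + ℓ h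
  geod : ∀ g k, k ≤ ℓ g → ∃ a b, a * b = g ∧ ℓ a = k ∧ k + ℓ b = ℓ g
  fin : ∀ r : ℕ, {g | ℓ g ≤ r}.Finite

/-- the group with the metric given by a norm -/
def Pt {Γ : Type*} [Group Γ] (_W : WNorm Γ) : Type _ := Γ

section pt

variable {Γ : Type*} [Group Γ] (W : WNorm Γ)

/-- group elements as points -/
def pt (g : Γ) : Pt W := g

/-- points as group elements -/
def Pt.out {W : WNorm Γ} (x : Pt W) : Γ := x

@[simp] lemma pt_out (x : Pt W) : pt W x.out = x := rfl

@[simp] lemma out_pt (g : Γ) : (pt W g).out = g := rfl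

instance : Dist (Pt W) := ⟨fun x y => (W.ℓ (x.out⁻¹ * y.out) : ℝ)⟩

lemma dist_def (x y : Pt W) : dist x y = (W.ℓ (x.out⁻¹ * y.out) : ℝ) := rfl

instance : PseudoMetricSpace (Pt W) where
  dist_self x := by simp [dist_def, W.one']
  dist_comm x y := by
    rw [dist_def, dist_def, ← W.inv' (x.out⁻¹ * y.out)]
    congr 2
    group
  dist_triangle x y z := by
    rw [dist_def, dist_def, dist_def]
    have h := W.mul_le (x.out⁻¹ * y.out) (y.out⁻¹ * z.out)
    have e : x.out⁻¹ * y.out * (y.out⁻¹ * z.out) = x.out⁻¹ * z.out := by group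
    rw [e] at h
    exact_mod_cast h

instance : MulAction Γ (Pt W) where
  smul γ x := pt W (γ * x.out)
  one_smul x := by
    change pt W (1 * x.out) = x
    rw [one_mul, pt_out]
  mul_smul γ γ' x := by
    change pt W (γ * γ' * x.out) = pt W (γ * (pt W (γ' * x.out)).out)
    rw [out_pt, mul_assoc]

lemma smul_out (γ : Γ) (x : Pt W) : (γ • x).out = γ * x.out := rfl

lemma smul_pt (γ g : Γ) : γ • pt W g = pt W (γ * g) := rfl

lemma smul_base (γ : Γ) : γ • pt W 1 = pt W γ := by rw [smul_pt, mul_one]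

instance : IsIsometricSMul Γ (Pt W) where
  isometry_smul γ := by
    apply Isometry.of_dist_eq
    intro x y
    rw [dist_def, dist_def, smul_out, smul_out]
    congr 2
    group

variable {W}

lemma eq_of_dist {x y : Pt W} (h : dist x y = 0) : x = y := by
  rw [dist_def] at h
  have h1 : W.ℓ (x.out⁻¹ * y.out) = 0 := by exact_mod_cast h
  have h2 := W.eq_one _ h1
  have h3 : x.out = y.out := by rwa [inv_mul_eq_one] at h2
  exact h3

/-- distances are natural numbers -/
def nd (x y : Pt W) : ℕ := W.ℓ (x.out⁻¹ * y.out)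

lemma dist_eq_nd (x y : Pt W) : dist x y = (nd x y : ℝ) := rfl

/-- points on geodesics -/
lemma exists_between (x y : Pt W) (k : ℕ) (hk : (k : ℝ) ≤ dist x y) :
    ∃ z : Pt W, dist x z = k ∧ dist z y = dist x y - k := by
  have hk' : k ≤ W.ℓ (x.out⁻¹ * y.out) := by
    rw [dist_def] at hk
    exact_mod_cast hk
  obtain ⟨a, b, hab, ha, hb⟩ := W.geod _ k hk'
  refine ⟨pt W (x.out * a), ?_, ?_⟩
  · rw [dist_def, out_pt]
    have : x.out⁻¹ * (x.out * a) = a := by group
    rw [this, ha]
  · rw [dist_def, dist_def, out_pt]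
    have h1 : (x.out * a)⁻¹ * y.out = b := by
      have : y.out = x.out * (a * b) := by rw [hab]; group
      rw [this]; group
    rw [h1, ← hb]
    push_cast
    ring

/-- properness -/
lemma proper (x : Pt W) (r : ℝ) : {γ : Γ | dist x (γ • x) ≤ r}.Finite := by
  have h := W.fin ⌊r⌋₊
  apply (h.image (fun g => x.out * g * x.out⁻¹)).subset
  intro γ hγ
  refine ⟨x.out⁻¹ * γ * x.out, ?_, by group⟩
  have h1 : dist x (γ • x) ≤ r := hγ
  rw [dist_def, smul_out, ← mul_assoc] at h1
  exact Nat.le_floor h1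

lemma smul_trans (x y : Pt W) : ∃ γ : Γ, γ • x = y :=
  ⟨y.out * x.out⁻¹, by
    change pt W (y.out * x.out⁻¹ * x.out) = y
    rw [inv_mul_cancel_right, pt_out]⟩

end pt

/-- hyperbolic groups -/
def HypGroup (Γ : Type*) [Group Γ] : Prop := ∃ (W : WNorm Γ) (δ : ℝ), GHyp (Pt W) δ

/-- the class of groups used in the construction -/
structure KGrp (Γ : Type*) [Group Γ] : Prop where
  hyp : HypGroup Γ
  ord : ∀ x : Γ, IsOfFinOrder x → x = 1 ∨ (orderOf x).Prime
  cent : ∀ x : Γ, (orderOf x).Prime → orderOf x ≠ 2 → ∀ y, Commute x y → y ∈ Subgroup.zpowers x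
  inv : ∀ a b : Γ, orderOf a = 2 → orderOf b = 2 → Commute a b → a = b

/-- elements of infinite order whose powers have centralizer generated by the element -/
structure Root {Γ : Type*} [Group Γ] (g : Γ) : Prop where
  inf : ¬ IsOfFinOrder g
  cent : ∀ (y : Γ) (a : ℤ), a ≠ 0 → Commute y (g ^ a) → y ∈ Subgroup.zpowers g

end Pool.Agent.TH68
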