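import Pool.Agent.TH68.Sys
import Pool.Agent.TH68.Wind
import Pool.Agent.Helper97.Hyp.Rot

set_option autoImplicit false
set_option linter.unusedSectionVars false

/-! Rotations along the axes of a root element. -/

namespace Pool.Agent.TH68

open Pool.Agent.Helper97.Hyp

section alg

variable {Γ : Type*} [Group Γ]

lemma Root.zpow_ne {g : Γ} (hg : Root g) {n : ℤ} (hn : n ≠ 0) : g ^ n ≠ 1 := by
  intro h
  exact hg.inf (isOfFinOrder_iff_zpow_eq_one.mpr ⟨n, hn, h⟩)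

lemma Root.zpow_inj {g : Γ} (hg : Root g) {a b : ℤ} (h : g ^ a = g ^ b) : a = b := by
  by_contra hne
  apply hg.zpow_ne (n := a - b) (by omega)
  rw [zpow_sub, h, mul_inv_cancel]

/-- elements of the commensurator of a root -/
lemma Root.comm {g : Γ} (hg : Root g) {e : Γ} {a b : ℤ} (_ha : a ≠ 0) (hb : b ≠ 0)
    (hab : b.natAbs = a.natAbs) (h : e * g ^ a * e⁻¹ = g ^ b) :
    e ∈ Subgroup.zpowers g ∨ orderOf e = 2 ∧ e * g * e⁻¹ = g⁻¹ := by
  have h1 : Commute (e * g * e⁻¹) (g ^ b) := by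
    rw [← h, ← conj_zpow]
    exact (Commute.refl _).zpow_right a
  obtain ⟨s, hs⟩ := hg.cent _ b hb h1
  have hs' : g ^ s = e * g * e⁻¹ := hs
  have h2 : g ^ (s * a) = g ^ b := by
    rw [zpow_mul, hs', conj_zpow, h]
  have h3 := hg.zpow_inj h2
  have h4 : s.natAbs = 1 := by
    have h5 : s.natAbs * a.natAbs = a.natAbs := by
      rw [← Int.natAbs_mul, h3, hab]
    have h6 : 0 < a.natAbs := by omega
    nlinarith
  rcases Int.natAbs_eq s with h5 | h5
  · left
    rw [h4] at h5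
    rw [h5, Nat.cast_one, zpow_one] at hs'
    apply hg.cent e 1 one_ne_zero
    rw [zpow_one]
    have h6 : e * g = g * e := by rw [← mul_inv_eq_iff_eq_mul, ← hs']
    exact h6
  · rw [h4] at h5
    rw [h5, Nat.cast_one, zpow_neg, zpow_one] at hs'
    by_cases he : e = 1
    · left; rw [he]; exact one_mem _
    right
    refine ⟨?_, hs'.symm⟩
    -- `e ^ 2` commutes with `g`
    have h6 : ∀ n : ℤ, e * g ^ n * e⁻¹ = g ^ (-n) := by
      intro n
      rw [← conj_zpow, ← hs', inv_zpow, zpow_neg]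
    have h7 : Commute (e ^ 2) (g ^ (1 : ℤ)) := by
      have : e ^ 2 * g ^ (1 : ℤ) * (e ^ 2)⁻¹ = g ^ (1 : ℤ) := by
        calc e ^ 2 * g ^ (1 : ℤ) * (e ^ 2)⁻¹ = e * (e * g ^ (1 : ℤ) * e⁻¹) * e⁻¹ := by
              rw [pow_two, mul_inv_rev]; simp only [mul_assoc]
          _ = g ^ (1 : ℤ) := by rw [h6, h6, neg_neg]
      exact mul_inv_eq_iff_eq_mul.mp this
    obtain ⟨t, ht⟩ := hg.cent _ 1 one_ne_zero h7
    have ht' : g ^ t = e ^ 2 := ht
    have h8 : g ^ (-t) = g ^ t := by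
      rw [← h6 t, ht']; group
    have h9 := hg.zpow_inj h8
    have h10 : t = 0 := by omega
    rw [h10, zpow_zero] at ht'
    exact orderOf_eq_prime ht'.symm he

end alg

/-- the data of a root with a loxodromic power -/
structure RD (Γ : Type*) [Group Γ] (W : WNorm Γ) where
  δ : ℝ
  hδ : 1 ≤ δ
  o : Pt W
  g : Γ
  k : ℕ
  hk : 0 < k
  lox : Lox δ o (g ^ k)
  root : Root g

namespace RD

variable {Γ : Type*} [Group Γ] {W : WNorm Γ} (D : RD Γ W)

/-- the commensurator -/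
abbrev E : Subgroup Γ := Lox.E (D.g ^ D.k)

lemma mem_E {e : Γ} (he : e ∈ D.E) :
    e ∈ Subgroup.zpowers D.g ∨ orderOf e = 2 ∧ e * D.g * e⁻¹ = D.g⁻¹ := by
  obtain ⟨a, b, ha, hb, hab⟩ := he
  have h1 := D.lox.natAbs_eq_of_conj hab
  have hk := D.hk
  rw [← zpow_natCast, ← zpow_mul, ← zpow_mul] at hab
  apply D.root.comm _ _ _ hab
  · exact mul_ne_zero (by omega) ha
  · exact mul_ne_zero (by omega) hb
  · rw [Int.natAbs_mul, Int.natAbs_mul, h1]

lemma g_mem : D.g ∈ D.E := by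
  refine ⟨1, 1, one_ne_zero, one_ne_zero, ?_⟩
  rw [zpow_one]
  have := (Commute.refl D.g).pow_right D.k
  rw [this.eq, mul_inv_cancel_right]

lemma zpow_mem (n : ℤ) : D.g ^ n ∈ D.E := Subgroup.zpow_mem _ D.g_mem n

lemma conj_or {e : Γ} (he : e ∈ D.E) :
    (∀ n : ℤ, e * D.g ^ n * e⁻¹ = D.g ^ n) ∨ ∀ n : ℤ, e * D.g ^ n * e⁻¹ = D.g ^ (-n) := by
  rcases D.mem_E he with ⟨t, rfl⟩ | ⟨-, h⟩
  · left
    intro n
    simp only
    rw [← zpow_add, add_comm, zpow_add, mul_inv_cancel_right]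
  · right
    intro n
    rw [← conj_zpow, h, inv_zpow, zpow_neg]

/-- displacement -/
lemma disp_neg (n : ℤ) : dist D.o (D.g ^ (-n) • D.o) = dist D.o (D.g ^ n • D.o) := by
  rw [zpow_neg, ← dist_smul (D.g ^ n), smul_inv_smul, dist_comm]

/-- rotation subgroups -/
noncomputable def rot (m : ℕ) (A : Γ ⧸ D.E) : Subgroup Γ :=
  Subgroup.zpowers (A.out * D.g ^ (m : ℤ) * A.out⁻¹)

variable {m : ℕ}

lemma out_mk (A : Γ ⧸ D.E) : ((A.out : Γ) : Γ ⧸ D.E) = A := QuotientGroup.out_eq' A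

/-- the stabilizers -/
lemma stab {A : Γ ⧸ D.E} {e : Γ} : e • A = A ↔ A.out⁻¹ * e * A.out ∈ D.E := by
  have h1 := D.out_mk A
  constructor
  · intro h
    have h2 : ((A.out : Γ) : Γ ⧸ D.E) = ((e * A.out : Γ) : Γ ⧸ D.E) := by
      have h3 : ((e * A.out : Γ) : Γ ⧸ D.E) = e • ((A.out : Γ) : Γ ⧸ D.E) := rfl
      rw [h3, h1, h]
    have := QuotientGroup.eq.mp h2
    rwa [← mul_assoc] at this
  · intro h
    have h2 : ((A.out : Γ) : Γ ⧸ D.E) = ((e * A.out : Γ) : Γ ⧸ D.E) := by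
      apply QuotientGroup.eq.mpr
      rwa [← mul_assoc]
    have h3 : ((e * A.out : Γ) : Γ ⧸ D.E) = e • ((A.out : Γ) : Γ ⧸ D.E) := rfl
    rw [h3, h1] at h2
    exact h2.symm

lemma rot_fix (A : Γ ⧸ D.E) {n : Γ} (hn : n ∈ D.rot m A) : n • A = A := by
  obtain ⟨t, rfl⟩ := hn
  rw [stab]
  simp only
  have : A.out⁻¹ * (A.out * D.g ^ (m : ℤ) * A.out⁻¹) ^ t * A.out = D.g ^ ((m : ℤ) * t) := by
    rw [conj_zpow, zpow_mul]; group
  rw [this]
  exact D.zpow_mem _

lemma rot_conj (γ : Γ) (A : Γ ⧸ D.E) {n : Γ} (hn : n ∈ D.rot m A) :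
    γ * n * γ⁻¹ ∈ D.rot m (γ • A) := by
  obtain ⟨t, rfl⟩ := hn
  simp only
  have h1 := D.out_mk A
  have h1' := D.out_mk (γ • A)
  set α := A.out with hα
  set β := (γ • A).out with hβ
  have he : β⁻¹ * (γ * α) ∈ D.E := by
    apply QuotientGroup.eq.mp
    rw [h1']
    conv_lhs => rw [← h1]
    rfl
  set e := β⁻¹ * (γ * α) with hedef
  have h2 : γ * (α * D.g ^ (m : ℤ) * α⁻¹) ^ t * γ⁻¹ =
      (β * (e * D.g ^ (m : ℤ) * e⁻¹) * β⁻¹) ^ t := by
    rw [← conj_zpow]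
    congr 1
    rw [hedef]; group
  unfold rot
  rw [← hβ, h2]
  rcases D.conj_or he with h3 | h3
  · rw [h3]
    exact Subgroup.zpow_mem _ (Subgroup.mem_zpowers _) t
  · rw [h3]
    have h4 : β * D.g ^ (-(m : ℤ)) * β⁻¹ = (β * D.g ^ (m : ℤ) * β⁻¹)⁻¹ := by group
    rw [h4]
    exact Subgroup.zpow_mem _ (inv_mem (Subgroup.mem_zpowers _)) t

/-- the normal subgroup -/
noncomputable def nk (m : ℕ) : Subgroup Γ := ⨆ A, D.rot m A

lemma rot_le (A : Γ ⧸ D.E) : D.rot m A ≤ D.nk m := le_iSup (fun A => D.rot m A) A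

lemma nk_normal : (D.nk m).Normal := by
  constructor
  intro n hn γ
  have h1 : D.nk m ≤ (D.nk m).comap (MulAut.conj γ).toMonoidHom := by
    apply iSup_le
    intro A n hn
    rw [Subgroup.mem_comap]
    exact D.rot_le (γ • A) (D.rot_conj γ A hn)
  exact h1 hn

lemma pow_mem_nk : D.g ^ m ∈ D.nk m := by
  set A : Γ ⧸ D.E := ((1 : Γ) : Γ ⧸ D.E) with hA
  have h1 : A.out ∈ D.E := by
    have := QuotientGroup.eq.mp (D.out_mk A).symm
    rwa [inv_one, one_mul] at this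
  apply D.rot_le A
  rcases D.conj_or h1 with h3 | h3
  · unfold rot
    rw [h3, zpow_natCast]
    exact Subgroup.mem_zpowers _
  · unfold rot
    rw [h3, zpow_neg, zpow_natCast]
    exact (Subgroup.zpowers_inv (g := D.g ^ m)).symm ▸ Subgroup.mem_zpowers _

lemma nk_eq : D.nk m = Subgroup.normalClosure {D.g ^ m} := by
  apply le_antisymm
  · apply iSup_le
    intro A
    unfold rot
    rw [Subgroup.zpowers_le, zpow_natCast]
    exact Subgroup.normalClosure_normal.conj_mem _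
      (Subgroup.subset_normalClosure (Set.mem_singleton _)) _
  · have := D.nk_normal (m := m)
    apply Subgroup.normalClosure_le_normal
    rw [Set.singleton_subset_iff]
    exact D.pow_mem_nk

/-- points of the axes -/
lemma mem_ax {A : Γ ⧸ D.E} {x : Pt W} (hx : x ∈ Lox.ax D.o (D.g ^ D.k) A) :
    ∃ f ∈ D.E, (A.out * f) • D.o = x := by
  obtain ⟨γ, hγ, rfl⟩ := hx
  refine ⟨A.out⁻¹ * γ, ?_, ?_⟩
  · apply QuotientGroup.eq.mp
    rw [D.out_mk, hγ]
  · rw [mul_inv_cancel_left]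

/-- the displacement of conjugates of powers of `g` on the axes is constant -/
lemma disp_ax {A : Γ ⧸ D.E} {x : Pt W} (hx : x ∈ Lox.ax D.o (D.g ^ D.k) A) (t : ℤ) :
    dist x ((A.out * D.g ^ t * A.out⁻¹) • x) = dist D.o (D.g ^ t • D.o) := by
  obtain ⟨f, hf, rfl⟩ := D.mem_ax hx
  have h1 : dist ((A.out * f) • D.o) ((A.out * D.g ^ t * A.out⁻¹) • (A.out * f) • D.o) =
      dist D.o ((f⁻¹ * D.g ^ t * f⁻¹⁻¹) • D.o) := by
    rw [← dist_smul (A.out * f) D.o, smul_smul, smul_smul]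
    congr 2
    group
  rw [h1]
  rcases D.conj_or (inv_mem hf) with h3 | h3
  · rw [h3]
  · rw [h3, D.disp_neg]

lemma dist_zpow_le (t : ℤ) : dist D.o (D.g ^ t • D.o) ≤ t.natAbs * dist D.o (D.g • D.o) := by
  have key : ∀ n : ℕ, dist D.o (D.g ^ n • D.o) ≤ n * dist D.o (D.g • D.o) := by
    intro n
    induction n with
    | zero => simp
    | succ n ih =>
      have h1 := dist_triangle D.o (D.g ^ n • D.o) (D.g ^ (n + 1) • D.o)
      have h2 : dist (D.g ^ n • D.o) (D.g ^ (n + 1) • D.o) = dist D.o (D.g • D.o) := by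
        rw [pow_succ, mul_smul, dist_smul]
      push_cast
      linarith
  rcases Int.natAbs_eq t with h | h
  · have h1 := key t.natAbs
    rw [← zpow_natCast, ← h] at h1
    exact h1
  · have h1 := key t.natAbs
    have h2 := D.disp_neg t.natAbs
    rw [← h] at h2
    rw [h2, zpow_natCast]
    exact h1

/-- lower bound of the displacement of the powers of the root -/
noncomputable def low (m : ℕ) : ℝ := (m : ℝ) / D.k - 1 - D.k * dist D.o (D.g • D.o)

lemma low_le {t : ℤ} (ht : m ≤ t.natAbs) : D.low m ≤ dist D.o (D.g ^ t • D.o) := by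
  have hk := D.hk
  have hk' : (0 : ℝ) < D.k := by exact_mod_cast hk
  set s := t / (D.k : ℤ) with hs
  set r := t % (D.k : ℤ) with hr
  have h1 : (D.k : ℤ) * s + r = t := Int.mul_ediv_add_emod t D.k
  have h2 : 0 ≤ r := Int.emod_nonneg _ (by omega)
  have h3 : r < D.k := Int.emod_lt_of_pos _ (by omega)
  have h4 : dist D.o (D.g ^ ((D.k : ℤ) * s) • D.o) ≤
      dist D.o (D.g ^ t • D.o) + dist D.o (D.g ^ r • D.o) := by
    have h5 := dist_triangle D.o (D.g ^ t • D.o) (D.g ^ ((D.k : ℤ) * s) • D.o)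
    have h6 : dist (D.g ^ t • D.o) (D.g ^ ((D.k : ℤ) * s) • D.o) = dist D.o (D.g ^ r • D.o) := by
      rw [← h1, zpow_add, mul_smul, dist_smul, dist_comm]
    linarith
  have h5 : (s.natAbs : ℝ) ≤ dist D.o (D.g ^ ((D.k : ℤ) * s) • D.o) := by
    have h6 := dist_zpow D.o (D.g ^ D.k) 0 s
    rw [zpow_zero, one_smul, sub_zero] at h6
    have h7 := D.lox.tl_ge s.natAbs
    rw [zpow_mul, zpow_natCast, h6]
    exact h7
  have h6 := D.dist_zpow_le r
  have h7 : (r.natAbs : ℝ) ≤ D.k := by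
    have : r.natAbs ≤ D.k := by omega
    exact_mod_cast this
  have h8 : (r.natAbs : ℝ) * dist D.o (D.g • D.o) ≤ D.k * dist D.o (D.g • D.o) :=
    mul_le_mul_of_nonneg_right h7 dist_nonneg
  have h9 : (m : ℝ) / D.k ≤ s.natAbs + 1 := by
    rw [div_le_iff₀ hk']
    have h10 : m ≤ (s.natAbs + 1) * D.k := by
      have h11 : t.natAbs ≤ D.k * s.natAbs + r.natAbs := by
        have := Int.natAbs_add_le ((D.k : ℤ) * s) r
        rw [h1, Int.natAbs_mul, Int.natAbs_natCast] at this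
        exact this
      have h12 : r.natAbs ≤ D.k := by omega
      nlinarith
    exact_mod_cast h10
  unfold low
  linarith

lemma low_tendsto (K : ℝ) : ∃ m₀ : ℕ, ∀ m : ℕ, m₀ ≤ m → K ≤ D.low m := by
  have hk := D.hk
  have hk' : (0 : ℝ) < D.k := by exact_mod_cast hk
  refine ⟨⌈(K + 1 + D.k * dist D.o (D.g • D.o)) * D.k⌉₊, ?_⟩
  intro m hm
  have h1 := Nat.le_of_ceil_le hm
  unfold low
  have h2 : K + 1 + D.k * dist D.o (D.g • D.o) ≤ (m : ℝ) / D.k := by
    rw [le_div_iff₀ hk']; exact h1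
  linarith

/-- the constant -/
noncomputable def θ : ℝ := Lox.th D.o (D.g ^ D.k) D.δ

lemma hc2 : Lox.c2 D.o (D.g ^ D.k) D.δ ≤ D.θ := by
  have h1 := D.lox.th1_nonneg
  have h2 := D.lox.c2_nonneg
  have h3 := D.hδ
  unfold θ Lox.th
  linarith

/-- the system of axes -/
noncomputable def sys : Sys Γ W (Γ ⧸ D.E) where
  δ := D.δ
  θ := D.θ
  hyp := D.lox.hyp
  hδ := D.hδ
  hθ := by
    have h1 := D.lox.th1_nonneg
    have h2 := D.lox.c2_nonneg
    have h3 := D.hδ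
    unfold θ Lox.th
    linarith
  S := Lox.ax D.o (D.g ^ D.k)
  Sne := Lox.ax_ne
  smul_mem γ A x hx := by rw [Lox.ax_smul, inv_smul_smul]; exact hx
  proj A x := by
    obtain ⟨q, hq⟩ := (D.lox.qline_ax A).proj x
    refine ⟨q, hq.1, fun s hs => ?_⟩
    have h1 := hq.2 s hs
    have h2 := D.hc2
    linarith
  small A B hAB p hp q hq := by
    have h0 := D.lox.proj_bound (proper D.o) hAB hp hq
    have h2 := D.lox.c2_nonneg
    have h3 := D.hδ
    unfold θ Lox.th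
    linarith

lemma spin_le {A : Γ ⧸ D.E} {r : Γ} (hr : r ∈ D.rot m A) (hr1 : r ≠ 1) {q : Pt W}
    (hq : q ∈ Lox.ax D.o (D.g ^ D.k) A) : D.low m ≤ dist q (r • q) := by
  obtain ⟨t, rfl⟩ := hr
  simp only at *
  have ht : t ≠ 0 := by
    rintro rfl
    exact hr1 (zpow_zero _)
  rw [conj_zpow, ← zpow_mul, D.disp_ax hq]
  apply D.low_le
  rw [Int.natAbs_mul, Int.natAbs_natCast]
  have : 1 ≤ t.natAbs := by omega
  nlinarith

lemma isProj_rot {A : Γ ⧸ D.E} {c : ℝ} {p p' : Pt W}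
    (hp : IsProj c (Lox.ax D.o (D.g ^ D.k) A) p p') {n : Γ}
    (hn : n • A = A) : IsProj c (Lox.ax D.o (D.g ^ D.k) A) (n • p) (n • p') := by
  apply hp.smul (γ := n)
  intro x
  have := Lox.ax_smul n A x (o := D.o) (g := D.g ^ D.k)
  rwa [hn] at this

/-- the spinning family of the library -/
noncomputable def spin (hM : 101 * D.θ ≤ D.low m) :
    Spin (D.lox.sys (proper D.o)) where
  G := D.rot m
  M := D.low m - D.θ
  hM := by
    change 100 * D.θ ≤ _
    linarith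
  Gconj γ A n hn := D.rot_conj γ A hn
  Gfix A n hn := D.rot_fix A hn
  spin A n p hn hn1 := by
    obtain ⟨p', hp'⟩ := (D.lox.qline_ax A).proj p
    have h1 := D.isProj_rot hp' (D.rot_fix A hn)
    have h2 := le_pd_of_proj hp' h1
    have h3 := D.spin_le hn hn1 hp'.1
    have h4 := D.hc2
    change D.low m - D.θ ≤ pd _ _ _
    linarith

/-- nontrivial elements of the normal subgroup move every point a lot -/
lemma nk_far (hM : 101 * D.θ ≤ D.low m) {n : Γ} (hn : n ∈ D.nk m) (hn1 : n ≠ 1) (x : Pt W) :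
    D.low m - 51 * D.θ ≤ dist x (n • x) := by
  obtain ⟨A, hA⟩ := (D.spin hM).windmill x hn hn1
  have h1 : (D.spin hM).M - 50 * D.θ ≤ pd (Lox.ax D.o (D.g ^ D.k) A) x (n • x) := hA
  have h2 := pd_le_dist (Lox.ax_ne (o := D.o) (g := D.g ^ D.k) A) x (n • x)
  have h3 : (D.spin hM).M = D.low m - D.θ := rfl
  rw [h3] at h1
  linarith

lemma cob (hm : 0 < m) : ∃ R : ℝ, ∀ A, ∀ p ∈ D.sys.S A, ∀ q ∈ D.sys.S A, ∃ r ∈ D.rot m A,
    dist p (r • q) ≤ R := by
  set c := Lox.c5 D.o (D.g ^ D.k) D.δ with hc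
  refine ⟨2 * c + m * dist D.o (D.g • D.o), ?_⟩
  intro A p hp q hq
  obtain ⟨f, hf, rfl⟩ := D.mem_ax hp
  obtain ⟨f', hf', rfl⟩ := D.mem_ax hq
  obtain ⟨j, hj⟩ := D.lox.E_near hf
  obtain ⟨l, hl⟩ := D.lox.E_near hf'
  rw [← hc, ← zpow_natCast, ← zpow_mul] at hj hl
  set a : ℤ := (D.k : ℤ) * l - (D.k : ℤ) * j with ha
  set s : ℤ := a / (m : ℤ) with hs
  set r : ℤ := a % (m : ℤ) with hr
  have h1 : (m : ℤ) * s + r = a := Int.mul_ediv_add_emod a m
  have h2 : 0 ≤ r := Int.emod_nonneg _ (by omega)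
  have h3 : r < m := Int.emod_lt_of_pos _ (by omega)
  refine ⟨(A.out * D.g ^ (m : ℤ) * A.out⁻¹) ^ (-s), Subgroup.zpow_mem _
    (Subgroup.mem_zpowers _) _, ?_⟩
  have h4 : (A.out * D.g ^ (m : ℤ) * A.out⁻¹) ^ (-s) • (A.out * f') • D.o =
      A.out • D.g ^ ((m : ℤ) * (-s)) • f' • D.o := by
    rw [conj_zpow, ← zpow_mul, smul_smul, smul_smul, smul_smul]
    congr 1
    group
  rw [h4, mul_smul, dist_smul]
  have h5 := dist_triangle4 (f • D.o) (D.g ^ ((D.k : ℤ) * j) • D.o)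
    (D.g ^ ((m : ℤ) * (-s)) • D.g ^ ((D.k : ℤ) * l) • D.o) (D.g ^ ((m : ℤ) * (-s)) • f' • D.o)
  have h6 : dist (D.g ^ ((m : ℤ) * (-s)) • D.g ^ ((D.k : ℤ) * l) • D.o)
      (D.g ^ ((m : ℤ) * (-s)) • f' • D.o) ≤ c := by
    rw [dist_smul, dist_comm]; exact hl
  have h7 : dist (D.g ^ ((D.k : ℤ) * j) • D.o)
      (D.g ^ ((m : ℤ) * (-s)) • D.g ^ ((D.k : ℤ) * l) • D.o) = dist D.o (D.g ^ r • D.o) := by
    rw [smul_smul, ← zpow_add, ← dist_smul (D.g ^ ((D.k : ℤ) * j)) D.o, smul_smul, ← zpow_add]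
    congr 3
    rw [← sub_eq_iff_eq_add'.mpr h1.symm, ha]
    ring
  have h8 := D.dist_zpow_le r
  have h9 : (r.natAbs : ℝ) ≤ m := by
    have : r.natAbs ≤ m := by omega
    exact_mod_cast this
  have h10 : (r.natAbs : ℝ) * dist D.o (D.g • D.o) ≤ m * dist D.o (D.g • D.o) :=
    mul_le_mul_of_nonneg_right h9 dist_nonneg
  linarith

/-- elements preserving an axis -/
lemma stab_or {A : Γ ⧸ D.E} {e : Γ} (he : e • A = A) :
    (∃ t : ℤ, e = A.out * D.g ^ t * A.out⁻¹) ∨ orderOf e = 2 ∧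
      ∀ t : ℤ, e * (A.out * D.g ^ t * A.out⁻¹) * e⁻¹ = A.out * D.g ^ (-t) * A.out⁻¹ := by
  rw [stab] at he
  rcases D.mem_E he with ⟨t, ht⟩ | ⟨h1, h2⟩
  · left
    refine ⟨t, ?_⟩
    have ht' : D.g ^ t = A.out⁻¹ * e * A.out := ht
    rw [ht']; group
  · right
    have h3 : e = A.out * (A.out⁻¹ * e * A.out) * A.out⁻¹ := by group
    refine ⟨?_, ?_⟩
    · rw [h3, ← MulAut.conj_apply, MulEquiv.orderOf_eq, h1]
    · intro t
      have h4 : (A.out⁻¹ * e * A.out) * D.g ^ t * (A.out⁻¹ * e * A.out)⁻¹ = D.g ^ (-t) := by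
        rw [← conj_zpow, h2, inv_zpow, zpow_neg]
      rw [← h4]; group

/-- the spinning family -/
noncomputable def spn (hm : m.Prime) (hm2 : m ≠ 2) (hM : 101 * D.θ ≤ D.low m)
    (hM' : dist D.o (D.g • D.o) + 51 * D.θ < D.low m) : Spn D.sys where
  M := D.low m
  N := D.nk m
  normal := D.nk_normal
  G := D.rot m
  G_le := D.rot_le
  fix A r hr := D.rot_fix A hr
  spin A r hr hr1 q hq := D.spin_le hr hr1 hq
  wind n hn hn1 x := by
    obtain ⟨A, r, hr, hr1, h⟩ := (D.spin hM).swind x hn hn1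
    refine ⟨A, r, hr, hr1, ?_⟩
    have h1 : pd (Lox.ax D.o (D.g ^ D.k) A) (r • x) (n • x) ≤ 42 * D.θ := h
    have h2 := D.hc2
    have h3 := D.lox.c2_nonneg
    change pd (Lox.ax D.o (D.g ^ D.k) A) (r • x) (n • x) ≤ 50 * D.θ
    linarith
  cob := D.cob hm.pos
  flip A e he he2 r hr := by
    obtain ⟨t, rfl⟩ := hr
    rcases D.stab_or he with ⟨s, hs⟩ | ⟨-, h⟩
    · exfalso
      have h1 : s ≠ 0 := by
        rintro rfl
        rw [zpow_zero, mul_one, mul_inv_cancel] at hs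
        rw [hs, orderOf_one] at he2
        omega
      have h2 : D.g ^ (s * 2) = 1 := by
        have h3 : e ^ 2 = 1 := by rw [← he2, pow_orderOf_eq_one]
        rw [hs, conj_pow] at h3
        have h4 : (D.g ^ s) ^ 2 = 1 := by
          calc (D.g ^ s) ^ 2 = A.out⁻¹ * (A.out * (D.g ^ s) ^ 2 * A.out⁻¹) * A.out := by group
            _ = 1 := by rw [h3]; group
        rw [zpow_mul]
        exact_mod_cast h4
      exact D.root.zpow_ne (by omega) h2
    · simp only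
      rw [conj_zpow, ← zpow_mul, h, zpow_neg]
      group
  disp A e he he2 p hp q hq := by
    rcases D.stab_or he with ⟨s, rfl⟩ | ⟨h, -⟩
    · rw [D.disp_ax hp, D.disp_ax hq]
    · exact absurd h he2
  root u A k hk hu hA hN := by
    have hgN : D.g ∉ D.nk m := by
      intro hg
      have hg1 : D.g ≠ 1 := by
        intro h
        exact D.root.inf (h ▸ IsOfFinOrder.one)
      have h1 := D.nk_far hM hg hg1 D.o
      linarith
    rcases D.stab_or hA with ⟨s, hs⟩ | ⟨h, -⟩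
    · have hs0 : s ≠ 0 := by
        rintro rfl
        rw [zpow_zero, mul_one, mul_inv_cancel] at hs
        exact hu (isOfFinOrder_iff_zpow_eq_one.mpr ⟨k, hk, hs⟩)
      have h1 : Commute (A.out⁻¹ * u * A.out) (D.g ^ s) := by
        have h2 : Commute u (A.out * D.g ^ s * A.out⁻¹) := hs ▸ (Commute.refl u).zpow_right k
        have h3 : D.g ^ s = A.out⁻¹ * (A.out * D.g ^ s * A.out⁻¹) * A.out := by group
        rw [h3]
        unfold Commute SemiconjBy
        have h4 := h2.eq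
        calc A.out⁻¹ * u * A.out * (A.out⁻¹ * (A.out * D.g ^ s * A.out⁻¹) * A.out) =
            A.out⁻¹ * (u * (A.out * D.g ^ s * A.out⁻¹)) * A.out := by group
          _ = A.out⁻¹ * ((A.out * D.g ^ s * A.out⁻¹) * u) * A.out := by rw [h4]
          _ = _ := by group
      obtain ⟨t, ht⟩ := D.root.cent _ s hs0 h1
      have ht' : D.g ^ t = A.out⁻¹ * u * A.out := ht
      have hNn := D.nk_normal (m := m)
      have h5 : D.g ^ (t * 2) ∈ D.nk m := by
        have h6 := hNn.conj_mem _ hN A.out⁻¹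
        have h7 : A.out⁻¹ * u ^ 2 * A.out⁻¹⁻¹ = D.g ^ (t * 2) := by
          rw [zpow_mul, ht', zpow_ofNat, pow_two, pow_two]; group
        rwa [h7] at h6
      have h8 : D.g ^ (m : ℤ) ∈ D.nk m := by rw [zpow_natCast]; exact D.pow_mem_nk
      have h9 : (m : ℤ) ∣ t := by
        by_contra hmt
        apply hgN
        have h10 : IsCoprime (t * 2) (m : ℤ) := by
          have hp : Prime (m : ℤ) := Nat.prime_iff_prime_int.mp hm
          apply IsCoprime.symm
          rw [hp.coprime_iff_not_dvd]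
          intro h11
          rcases hp.dvd_or_dvd h11 with h12 | h12
          · exact hmt h12
          · have h13 : m ∣ 2 := by exact_mod_cast h12
            exact hm2 ((Nat.prime_dvd_prime_iff_eq hm Nat.prime_two).mp h13)
        obtain ⟨a, b, hab⟩ := h10
        have h11 : D.g = (D.g ^ (t * 2)) ^ a * (D.g ^ (m : ℤ)) ^ b := by
          rw [← zpow_mul, ← zpow_mul, ← zpow_add]
          have : t * 2 * a + (m : ℤ) * b = 1 := by linarith
          rw [this, zpow_one]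
        rw [h11]
        exact mul_mem (Subgroup.zpow_mem _ h5 _) (Subgroup.zpow_mem _ h8 _)
      obtain ⟨c, rfl⟩ := h9
      have h10 : u = A.out * (D.g ^ (m : ℤ)) ^ c * A.out⁻¹ := by
        rw [← zpow_mul, ht']; group
      rw [h10]
      exact hNn.conj_mem _ (Subgroup.zpow_mem _ h8 _) _
    · exfalso
      apply hu
      have h1 : (u ^ k) ^ 2 = 1 := by rw [← h, pow_orderOf_eq_one]
      rw [isOfFinOrder_iff_zpow_eq_one]
      refine ⟨k * 2, by omega, ?_⟩
      rw [zpow_mul]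
      exact_mod_cast h1

end RD

end Pool.Agent.TH68
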