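import Pool.Agent.TH68.Sys
import Pool.Agent.TH68.JD

set_option autoImplicit false
set_option linter.unusedSectionVars false

/-! Elements of finite order in the quotient by a spinning family. -/

namespace Pool.Agent.TH68

open Pool.Agent.Helper97.Hyp

section t1

variable {Γ : Type*} [Group Γ] {W : WNorm Γ} {𝒜 : Type*} [MulAction Γ 𝒜]

lemma Sys.mem_iff (Y : Sys Γ W 𝒜) {γ : Γ} {A : 𝒜} (hγ : γ • A = A) (x : Pt W) :
    x ∈ Y.S A ↔ γ⁻¹ • x ∈ Y.S A := by
  constructor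
  · intro hx
    have h1 := Y.smul_mem γ⁻¹ A x hx
    have h2 : γ⁻¹ • A = A := by rw [inv_smul_eq_iff, hγ]
    rwa [h2] at h1
  · intro hx
    have h1 := Y.smul_mem γ A _ hx
    rwa [smul_inv_smul, hγ] at h1

/-- elements of the killed subgroup rotate strongly about an axis -/
lemma factW (Y : Sys Γ W 𝒜) (R : Spn Y) (hM : 53 * Y.θ < R.M) {n : Γ} (hn : n ∈ R.N)
    (hn1 : n ≠ 1) (x : Pt W) :
    ∃ A, ∃ r ∈ R.G A, ∃ q1 ∈ Y.S A, ∃ q2 ∈ Y.S A, dist (r • q1) q2 ≤ 51 * Y.θ ∧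
      R.M - 51 * Y.θ ≤ dist q1 q2 ∧
      dist x q1 + dist q1 q2 + dist q2 (n • x) ≤ dist x (n • x) + 4 * Y.θ := by
  have hδ := Y.hδ
  have hθ := Y.hθ
  obtain ⟨A, r, hr, hr1, hpd⟩ := R.wind n hn hn1 x
  obtain ⟨q1, hq1⟩ := Y.proj A x
  obtain ⟨q2, hq2⟩ := Y.proj A (n • x)
  have h1 : IsProj Y.θ (Y.S A) (r • x) (r • q1) := hq1.smul (Y.mem_iff (R.fix A r hr))
  have h2 := le_pd_of_proj h1 hq2
  have h3 := R.spin A r hr hr1 q1 hq1.1
  have h4 := dist_triangle q1 q2 (r • q1)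
  rw [dist_comm q2 (r • q1)] at h4
  refine ⟨A, r, hr, q1, hq1.1, q2, hq2.1, by linarith, by linarith, ?_⟩
  have h5 := far_of_proj Y.hyp hq1 hq2 (by linarith)
  rw [dist_comm (n • x) q2] at h5
  linarith

/-- points near a segment of a loxodromic orbit -/
lemma near_orbit {δ : ℝ} {o : Pt W} {f : Γ} (h : Lox δ o f) {θ : ℝ} (hθ : 0 ≤ θ) (k : ℕ)
    {z : Pt W} (hz : exc o (f ^ k • o) z ≤ 4 * θ) :
    ∃ i : ℕ, dist z (f ^ i • o) ≤ 2 * (4 * θ + tl o f 1) + 2 * δ := by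
  have ht1 : 0 ≤ tl o f 1 := dist_nonneg
  have hch : ∀ j : ℕ, j ≤ k → exc o (f ^ k • o) (f ^ j • o) ≤ 4 * θ + tl o f 1 := by
    intro j hj
    have := h.chain (i := 0) (m := j) (j := k) (by positivity) (by exact_mod_cast hj)
    simp only [zpow_zero, one_smul, zpow_natCast] at this
    unfold exc
    linarith
  have key : ∀ j : ℕ, j ≤ k → |dist o z - tl o f j| ≤ 4 * θ + tl o f 1 →
      dist z (f ^ j • o) ≤ 2 * (4 * θ + tl o f 1) + 2 * δ := by
    intro j hj hd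
    have := order_close h.hyp (a := 4 * θ + tl o f 1) (by linarith) (hch j hj)
    have e : dist o (f ^ j • o) = tl o f j := rfl
    rw [e] at this
    linarith
  by_cases hk : tl o f k ≤ dist o z
  · refine ⟨k, key k le_rfl ?_⟩
    have h1 : dist o (f ^ k • o) = tl o f k := rfl
    have h2 := dist_nonneg (x := z) (y := f ^ k • o)
    unfold exc at hz
    rw [h1] at hz
    rw [abs_of_nonneg (by linarith)]
    linarith
  · push Not at hk
    -- the first index where the displacement exceeds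
    have hex : ∃ j : ℕ, dist o z < tl o f j := ⟨k, hk⟩
    classical
    have hj := Nat.find_spec hex
    have hjk : Nat.find hex ≤ k := Nat.find_min' hex hk
    set j := Nat.find hex with hjd
    have hj0 : j ≠ 0 := by
      intro h0
      rw [h0, Lox.tl_zero] at hj
      exact absurd (dist_nonneg (x := o) (y := z)) (not_le.2 hj)
    obtain ⟨i, hi⟩ := Nat.exists_eq_succ_of_ne_zero hj0
    have h1 : ¬ dist o z < tl o f i := Nat.find_min hex (by omega)
    refine ⟨i, key i (by omega) ?_⟩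
    have h2 := Lox.tl_sub (o := o) (g := f) i 1
    rw [hi] at hj
    change dist o z < tl o f (i + 1) at hj
    rw [abs_of_nonneg (by linarith)]
    linarith

theorem t1_short (Y : Sys Γ W 𝒜) {u : Γ} (hu : ¬ IsOfFinOrder u) :
    ∃ M₀ : ℝ, ∀ R : Spn Y, M₀ ≤ R.M → ∀ k : ℕ, 0 < k → u ^ k ∈ R.N → ∃ A : 𝒜, u • A = A := by
  have hδ := Y.hδ
  have hθ := Y.hθ
  obtain ⟨J, hJ⟩ := lox_of_inf Y.hyp Y.hδ (Γ := Γ) (W := W)
  obtain ⟨a, ha, -, o, hf⟩ := hJ u hu
  obtain ⟨f, hfd⟩ : ∃ f, f = u ^ a := ⟨_, rfl⟩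
  rw [← hfd] at hf
  have ht1 : 0 ≤ tl o f 1 := dist_nonneg
  obtain ⟨κ, hκ⟩ : ∃ κ, κ = 2 * (4 * Y.θ + tl o f 1) + 2 * Y.δ := ⟨_, rfl⟩
  have hκ0 : 0 ≤ κ := by rw [hκ]; linarith
  refine ⟨53 * Y.θ + 2 * (2 * κ + dist o (u • o)) + 1, fun R hR k hk hN => ?_⟩
  have hd0 := dist_nonneg (x := o) (y := u • o)
  have hfN : f ^ k ∈ R.N := by
    rw [hfd, ← pow_mul, mul_comm, pow_mul]
    exact R.N.pow_mem hN _
  have hf1 : f ^ k ≠ 1 := by
    have := hf.zpow_ne (n := (k : ℤ)) (by exact_mod_cast hk.ne')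
    rwa [zpow_natCast] at this
  obtain ⟨A, r, hr, q1, hq1, q2, hq2, -, h2, h3⟩ := factW Y R (by linarith) hfN hf1 o
  have e1 : exc o (f ^ k • o) q1 ≤ 4 * Y.θ := by
    have := dist_triangle q1 q2 (f ^ k • o)
    unfold exc; linarith
  have e2 : exc o (f ^ k • o) q2 ≤ 4 * Y.θ := by
    have := dist_triangle o q1 q2
    unfold exc; linarith
  have hmove : ∀ q : Pt W, exc o (f ^ k • o) q ≤ 4 * Y.θ →
      dist q (u • q) ≤ 2 * κ + dist o (u • o) := by
    intro q hq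
    obtain ⟨i, hi⟩ := near_orbit hf (by linarith) k hq
    rw [← hκ] at hi
    have h4 := dist_triangle4 q (f ^ i • o) (u • f ^ i • o) (u • q)
    have h5 : dist (f ^ i • o) (u • f ^ i • o) = dist o (u • o) := by
      have : u • f ^ i • o = f ^ i • u • o := by
        rw [smul_smul, smul_smul, hfd]
        congr 1
        rw [← pow_mul, ← pow_succ', ← pow_succ]
      rw [this, dist_smul]
    have h6 : dist (u • f ^ i • o) (u • q) = dist q (f ^ i • o) := by
      rw [dist_smul, dist_comm]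
    linarith
  refine ⟨A, ?_⟩
  by_contra hne
  have h7 := Y.small A (u • A) (fun h => hne h.symm) (u • q1) (Y.smul_mem u A q1 hq1) (u • q2)
    (Y.smul_mem u A q2 hq2)
  have hself : ∀ q ∈ Y.S A, IsProj Y.θ (Y.S A) q q := by
    intro q hq
    refine ⟨hq, fun s _ => ?_⟩
    rw [dist_self]; linarith
  have h8 := le_pd_of_proj (hself q1 hq1) (hself q2 hq2)
  have h9 := pd_tri (Y.Sne A) q1 (u • q1) q2
  have h10 := pd_tri (Y.Sne A) (u • q1) (u • q2) q2
  have h11 := pd_le_dist (Y.Sne A) q1 (u • q1)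
  have h12 := pd_le_dist (Y.Sne A) (u • q2) q2
  rw [dist_comm (u • q2) q2] at h12
  have h13 := hmove q1 e1
  have h14 := hmove q2 e2
  linarith

theorem t1_short_unif (Y : Sys Γ W 𝒜) (C : ℝ) :
    ∃ M₀ : ℝ, ∀ R : Spn Y, M₀ ≤ R.M → ∀ u : Γ, ¬ IsOfFinOrder u →
      (∃ x : Pt W, dist x (u • x) ≤ C) → ∀ k : ℕ, 0 < k → u ^ k ∈ R.N → ∃ A : 𝒜, u • A = A := by
  classical
  have hF := W.fin ⌊C⌋₊
  have hch : ∀ g : Γ, ∃ M₀ : ℝ, ¬ IsOfFinOrder g → ∀ R : Spn Y, M₀ ≤ R.M → ∀ k : ℕ, 0 < k →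
      g ^ k ∈ R.N → ∃ A : 𝒜, g • A = A := by
    intro g
    by_cases hg : IsOfFinOrder g
    · exact ⟨0, fun h => absurd hg h⟩
    · obtain ⟨M₀, hM₀⟩ := t1_short Y hg
      exact ⟨M₀, fun _ => hM₀⟩
  choose m hm using hch
  refine ⟨∑ g ∈ hF.toFinset, |m g|, fun R hR u hu hx k hk hN => ?_⟩
  obtain ⟨x, hx⟩ := hx
  have hgF : x.out⁻¹ * (u * x.out) ∈ hF.toFinset := by
    rw [Set.Finite.mem_toFinset]
    rw [dist_def, smul_out] at hx
    exact Nat.le_floor hx
  have hmR : m (x.out⁻¹ * (u * x.out)) ≤ R.M := by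
    have h1 : |m (x.out⁻¹ * (u * x.out))| ≤ ∑ g ∈ hF.toFinset, |m g| :=
      Finset.single_le_sum (f := fun g => |m g|) (fun _ _ => abs_nonneg _) hgF
    exact (le_abs_self _).trans (h1.trans hR)
  have hgu : x.out⁻¹ * (u * x.out) = x.out⁻¹ * u * x.out⁻¹⁻¹ := by group
  have hfin : ¬ IsOfFinOrder (x.out⁻¹ * (u * x.out)) := by
    intro hfin
    apply hu
    rw [isOfFinOrder_iff_pow_eq_one] at hfin ⊢
    obtain ⟨j, hj, hj1⟩ := hfin
    refine ⟨j, hj, ?_⟩
    rw [hgu, conj_pow] at hj1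
    have : u ^ j = x.out * (x.out⁻¹ * u ^ j * x.out⁻¹⁻¹) * x.out⁻¹ := by group
    rw [this, hj1]; group
  have hpow : (x.out⁻¹ * (u * x.out)) ^ k ∈ R.N := by
    rw [hgu, conj_pow]
    exact R.normal.conj_mem _ hN _
  obtain ⟨A, hA⟩ := hm _ hfin R hmR k hk hpow
  refine ⟨x.out • A, ?_⟩
  calc u • x.out • A = x.out • ((x.out⁻¹ * (u * x.out)) • A) := by
        rw [smul_smul, smul_smul]; congr 1; group
    _ = x.out • A := by rw [hA]

theorem t1 (Y : Sys Γ W 𝒜) :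
    ∃ M₀ : ℝ, ∀ R : Spn Y, M₀ ≤ R.M → ∀ u : Γ, ∀ k : ℕ, 0 < k → u ^ k ∈ R.N →
      ∃ n ∈ R.N, IsOfFinOrder (n * u) ∨ ∃ A : 𝒜, (n * u) • A = A := by
  classical
  have hδ := Y.hδ
  have hθ := Y.hθ
  obtain ⟨M₁, hM₁⟩ := t1_short_unif Y (100 * Y.θ)
  refine ⟨max M₁ (121 * Y.θ), fun R hR u k hk hN => ?_⟩
  have hR1 : M₁ ≤ R.M := (le_max_left _ _).trans hR
  have hR2 : 121 * Y.θ ≤ R.M := (le_max_right _ _).trans hR
  -- the lift of least displacement
  obtain ⟨⟨n, x⟩, hmin⟩ : ∃ t : R.N × Pt W, ∀ t' : R.N × Pt W,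
      nd t.2 (((t.1 : Γ) * u) • t.2) ≤ nd t'.2 (((t'.1 : Γ) * u) • t'.2) := by
    have hne : (Set.univ : Set (R.N × Pt W)).Nonempty := ⟨(1, pt W 1), trivial⟩
    obtain ⟨t, ht⟩ := WellFounded.has_min
      (measure fun t : R.N × Pt W => nd t.2 (((t.1 : Γ) * u) • t.2)).wf Set.univ hne
    exact ⟨t, fun t' => not_lt.1 (ht.2 t' trivial)⟩
  obtain ⟨v, hv⟩ : ∃ v, v = (n : Γ) * u := ⟨_, rfl⟩
  have hmin' : ∀ g ∈ R.N, ∀ y : Pt W, dist x (v • x) ≤ dist y ((g * v) • y) := by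
    intro g hg y
    have := hmin (⟨g * n, R.N.mul_mem hg n.2⟩, y)
    rw [dist_eq_nd, dist_eq_nd, hv, ← mul_assoc]
    exact_mod_cast this
  have hvN : v ^ k ∈ R.N := by
    rw [← QuotientGroup.eq_one_iff] at hN ⊢
    rw [QuotientGroup.mk_pow] at hN ⊢
    rw [hv, QuotientGroup.mk_mul, (QuotientGroup.eq_one_iff (n : Γ)).2 n.2, one_mul]
    exact hN
  refine ⟨n, n.2, ?_⟩
  rw [← hv]
  by_cases hfin : IsOfFinOrder v
  · exact Or.inl hfin
  right
  by_cases hl : dist x (v • x) ≤ 100 * Y.θ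
  · exact hM₁ R hR1 v hfin ⟨x, hl⟩ k hk hvN
  push Not at hl
  obtain ⟨l, hld⟩ : ∃ l, l = dist x (v • x) := ⟨_, rfl⟩
  rw [← hld] at hl hmin'
  -- the midpoint
  obtain ⟨L, hL⟩ : ∃ L : ℕ, l = L := ⟨nd x (v • x), by rw [hld, dist_eq_nd]⟩
  obtain ⟨h, hh⟩ : ∃ h : ℕ, h = L / 2 := ⟨_, rfl⟩
  have hh1 : (2 : ℝ) * h ≤ l := by
    rw [hL]
    have : 2 * h ≤ L := by omega
    exact_mod_cast this
  have hh2 : l - 1 ≤ (2 : ℝ) * h := by
    rw [hL]
    have : L ≤ 2 * h + 1 := by omega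
    have : (L : ℝ) ≤ 2 * h + 1 := by exact_mod_cast this
    linarith
  have hh0 : (0 : ℝ) ≤ h := Nat.cast_nonneg _
  obtain ⟨y, hy1, hy2⟩ := exists_between x (v • x) h (by rw [← hld]; linarith)
  rw [← hld] at hy2
  have hy3 : dist (v • x) (v • y) = h := by rw [dist_smul]; exact hy1
  have hy4 : l ≤ dist y (v • y) := by
    have := hmin' 1 R.N.one_mem y
    rwa [one_mul] at this
  have hvv : dist (v • x) (v ^ 2 • x) = l := by
    rw [pow_two, mul_smul, dist_smul, ← hld]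
  have e0 : exc y (v • y) (v • x) ≤ 0 := by
    unfold exc; linarith
  have e1 : exc x (v • y) (v • x) ≤ 2 * Y.δ := by
    rcases exc_split Y.hyp y (v • y) x (v • x) with h1 | h1
    · exfalso
      unfold exc at h1 e0
      rw [dist_comm (v • x) x, ← hld, dist_comm y x, hy1, hy2] at h1
      rw [hy2] at e0
      linarith
    · linarith
  have e2 : exc x (v ^ 2 • x) (v • x) ≤ 4 * Y.δ := by
    rcases exc_split Y.hyp x (v • y) (v ^ 2 • x) (v • x) with h1 | h1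
    · linarith
    · exfalso
      have h2 : dist (v ^ 2 • x) (v • y) = l - h := by
        rw [pow_two, mul_smul, dist_smul, dist_comm, hy2]
      have h3 : exc (v ^ 2 • x) (v • y) (v • x) = 2 * h := by
        unfold exc
        rw [h2, hy3, dist_comm (v ^ 2 • x) (v • x), hvv]; ring
      rw [h3] at h1
      linarith
  -- the broken geodesic
  have b1 : ∀ i : ℕ, exc (v ^ i • x) (v ^ (i + 2) • x) (v ^ (i + 1) • x) ≤ 4 * Y.δ := by
    intro i
    have := exc_smul (v ^ i) x (v ^ 2 • x) (v • x)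
    rw [smul_smul, smul_smul, ← pow_add, ← pow_succ] at this
    rw [this]; exact e2
  have b2 : ∀ i : ℕ, dist (v ^ i • x) (v ^ (i + 1) • x) = l := by
    intro i
    rw [pow_succ, mul_smul, dist_smul, ← hld]
  have b3 : ∀ {i j m : ℕ}, i ≤ j → j ≤ m →
      exc (v ^ i • x) (v ^ m • x) (v ^ j • x) ≤ 8 * Y.δ := by
    intro i j m hij hjm
    have := bg Y.hyp (x := fun i => v ^ i • x) (a := 4 * Y.δ) (by linarith) b1
      (fun i => by
        change 4 * Y.δ + 3 * Y.δ < dist (v ^ i • x) (v ^ (i + 1) • x)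
        rw [b2]; linarith) hij hjm
    change exc (v ^ i • x) (v ^ m • x) (v ^ j • x) ≤ 4 * Y.δ + 4 * Y.δ at this
    linarith
  have hvk : v ^ k ≠ 1 := by
    intro h1
    exact hfin (isOfFinOrder_iff_pow_eq_one.2 ⟨k, hk, h1⟩)
  obtain ⟨A, r, hr, q1, hq1, q2, hq2, w1, w2, w3⟩ := factW Y R (by linarith) hvN hvk x
  obtain ⟨w, hw⟩ : ∃ w, w = v ^ (k + 1) • x := ⟨_, rfl⟩
  obtain ⟨xk, hxk⟩ : ∃ xk, xk = v ^ k • x := ⟨_, rfl⟩
  rw [← hxk] at w3
  have c1 : exc x w xk ≤ 8 * Y.δ := by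
    have := b3 (i := 0) (j := k) (m := k + 1) (by omega) (by omega)
    rwa [pow_zero, one_smul, ← hw, ← hxk] at this
  have c2 : exc x w (v • x) ≤ 8 * Y.δ := by
    have := b3 (i := 0) (j := 1) (m := k + 1) (by omega) (by omega)
    rwa [pow_zero, one_smul, ← hw, pow_one] at this
  have hvxk : v • xk = w := by rw [hxk, hw, pow_succ', mul_smul]
  -- distances of `v q` in terms of the distances of `q`
  have t1' : dist (v • x) (v • q1) = dist x q1 := dist_smul _ _ _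
  have t2' : dist (v • x) (v • q2) = dist x q2 := dist_smul _ _ _
  have t3' : dist (v • q1) w = dist q1 xk := by rw [← hvxk, dist_smul]
  have t4' : dist (v • q2) w = dist q2 xk := by rw [← hvxk, dist_smul]
  have t5' : dist (v • x) w = dist x xk := by rw [← hvxk, dist_smul]
  have t6 := dist_triangle q1 q2 xk
  have t7 := dist_triangle x q1 q2
  have t8 := dist_triangle x (v • x) (v • q1)
  have t9 := dist_triangle x (v • x) (v • q2)
  rw [t1', ← hld] at t8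
  rw [t2', ← hld] at t9
  unfold exc at c1 c2
  rw [← hld, t5'] at c2
  have t10 := dist_triangle x (v • q1) w
  have t11 := dist_triangle x (v • q2) w
  have t12 := dist_triangle x q2 xk
  rw [t3'] at t10
  rw [t4'] at t11
  have d1 : exc x w q1 ≤ 12 * Y.θ := by
    have := dist_triangle q1 xk w
    unfold exc; linarith
  have d2 : exc x w q2 ≤ 12 * Y.θ := by
    have := dist_triangle q2 xk w
    unfold exc; linarith
  have d3 : exc x w (v • q1) ≤ 12 * Y.θ := by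
    unfold exc
    rw [t3']
    linarith
  have d4 : exc x w (v • q2) ≤ 12 * Y.θ := by
    unfold exc
    rw [t4']
    linarith
  by_cases hcase : dist x q2 - dist x q1 ≤ l + 21 * Y.θ
  · exfalso
    have f1 := order_close Y.hyp d3 d2
    have f2 := hmin' r⁻¹ (R.N.inv_mem (R.G_le A hr)) q1
    have f3 : dist q1 ((r⁻¹ * v) • q1) = dist (r • q1) (v • q1) := by
      rw [mul_smul, ← dist_smul r, smul_inv_smul]
    rw [f3] at f2
    have f4 := dist_triangle (r • q1) q2 (v • q1)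
    rw [dist_comm q2 (v • q1)] at f4
    rcases abs_cases (dist x (v • q1) - dist x q2) with ⟨f5, -⟩ | ⟨f5, -⟩
    · rw [f5] at f1
      linarith
    · rw [f5] at f1
      linarith
  · push Not at hcase
    refine ⟨A, ?_⟩
    by_contra hne
    have g0 := Y.small A (v • A) (fun h => hne h.symm) (v • q1) (Y.smul_mem v A q1 hq1) (v • q2)
      (Y.smul_mem v A q2 hq2)
    have g1 := le_pd (S := Y.S A) (p := v • q1) (q := v • q2) hq2 hq1
    have g2 := order_close Y.hyp d3 d1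
    have g3 := order_close Y.hyp d4 d2
    have g4 := dist_triangle x (v • q1) q2
    have g5 := dist_triangle x q1 (v • q2)
    rw [dist_comm q1 (v • q2)] at g5
    have g6 : |dist x (v • q1) - dist x q1| ≤ l := by
      rw [abs_le]
      constructor <;> linarith
    have g7 : |dist x (v • q2) - dist x q2| ≤ l := by
      rw [abs_le]
      constructor <;> linarith
    linarith

end t1

end Pool.Agent.TH68
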