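import Pool.Agent.TH68.Sys

set_option autoImplicit false
set_option linter.unusedSectionVars false

/-! Elements congruent modulo the killed subgroup with small displacement. -/

namespace Pool.Agent.TH68

open Pool.Agent.Helper97.Hyp

variable {Γ : Type*} [Group Γ] {W : WNorm Γ} {𝒜 : Type*} [MulAction Γ 𝒜]

lemma t23_self {X : Type*} [PseudoMetricSpace X] {c : ℝ} {S : Set X} (hc : 0 ≤ c) {a : X}
    (ha : a ∈ S) : IsProj c S a a :=
  ⟨ha, fun s _ => by rw [dist_self]; linarith⟩

lemma t23_mem_iff (Y : Sys Γ W 𝒜) {A : 𝒜} {r : Γ} (hr : r • A = A) (x : Pt W) :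
    x ∈ Y.S A ↔ r⁻¹ • x ∈ Y.S A := by
  have hr' : r⁻¹ • A = A := by rw [inv_smul_eq_iff]; exact hr.symm
  constructor
  · intro h
    have := Y.smul_mem r⁻¹ A x h
    rwa [hr'] at this
  · intro h
    have := Y.smul_mem r A _ h
    rwa [hr, smul_inv_smul] at this

theorem t23 (Y : Sys Γ W 𝒜) (C : ℝ) :
    ∃ M₀ : ℝ, ∀ R : Spn Y, M₀ ≤ R.M → ∀ (y y' : Γ) (p q : Pt W), y' * y⁻¹ ∈ R.N → y ≠ y' →
      dist p (y • p) ≤ C → dist q (y' • q) ≤ C → (∀ n ∈ R.N, dist p q ≤ dist p (n • q)) →
      orderOf y' = 2 := by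
  refine ⟨100 * C + 1000 * Y.θ, ?_⟩
  intro R hM y y' p q hN hne hp hq hmin
  have hδ := Y.hδ
  have hθ := Y.hθ
  have hC : 0 ≤ C := dist_nonneg.trans hp
  set θ := Y.θ with hθdef
  set δ := Y.δ with hδdef
  have hθ1 : 1 ≤ θ := hδ.trans hθ
  -- the rotation
  have hn1 : y' * y⁻¹ ≠ 1 := by
    intro h
    exact hne (mul_inv_eq_one.mp h).symm
  obtain ⟨A, r, hrG, hr1, hrn⟩ := R.wind _ hN hn1 p
  have hrN : r ∈ R.N := R.G_le A hrG
  have hrA : r • A = A := R.fix A r hrG
  have hSne := Y.Sne A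
  obtain ⟨a, ha⟩ := Y.proj A p
  obtain ⟨b, hb⟩ := Y.proj A q
  obtain ⟨a', ha'⟩ := Y.proj A (y' • p)
  obtain ⟨b', hb'⟩ := Y.proj A (y' • q)
  -- the basic estimates
  have hra : IsProj θ (Y.S A) (r • p) (r • a) := ha.smul (t23_mem_iff Y hrA)
  have hra' : IsProj θ (Y.S A) (r⁻¹ • (y' • p)) (r⁻¹ • a') := by
    have hrA' : r⁻¹ • A = A := by rw [inv_smul_eq_iff]; exact hrA.symm
    exact ha'.smul (t23_mem_iff Y hrA')
  have e1 : dist b b' ≤ C + θ := by
    have h1 := le_pd_of_proj hb hb'
    have h2 := pd_le_dist hSne q (y' • q)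
    linarith
  have e2 : dist a' (r • a) ≤ C + 51 * θ := by
    have h1 := le_pd_of_proj ha' hra
    have h2 := pd_tri hSne (y' • p) ((y' * y⁻¹) • p) (r • p)
    have h3 := pd_le_dist hSne (y' • p) ((y' * y⁻¹) • p)
    have h4 : dist (y' • p) ((y' * y⁻¹) • p) = dist p (y • p) := by
      rw [mul_smul, dist_smul, ← dist_smul y, smul_inv_smul, dist_comm]
    rw [pd_symm hSne (r • p)] at hrn
    linarith
  -- (1)
  have k1 : dist a b ≤ dist (r • a) b + 4 * θ := by
    by_cases hfar : θ + δ < dist a b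
    · have h1 := far_of_proj Y.hyp ha hb hfar
      have h2 := hmin r⁻¹ (inv_mem hrN)
      have h3 : dist p (r⁻¹ • q) = dist (r • p) q := by
        rw [← dist_smul r, smul_inv_smul]
      have h4 := dist_triangle4 (r • p) (r • a) b q
      rw [dist_smul, dist_comm b q] at h4
      linarith
    · have := dist_nonneg (x := r • a) (y := b)
      linarith
  have k2 : dist a' b' ≤ dist (r⁻¹ • a') b' + 4 * θ := by
    by_cases hfar : θ + δ < dist a' b'
    · have h1 := far_of_proj Y.hyp ha' hb' hfar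
      have h2 := hmin (y'⁻¹ * r * y') (by
        have := R.normal.conj_mem r hrN y'⁻¹
        simpa using this)
      have h3 : dist p ((y'⁻¹ * r * y') • q) = dist (r⁻¹ • (y' • p)) (y' • q) := by
        rw [mul_assoc, mul_smul, mul_smul, ← dist_smul y', smul_inv_smul, ← dist_smul r⁻¹,
          inv_smul_smul]
      have h4 := dist_triangle4 (r⁻¹ • (y' • p)) (r⁻¹ • a') b' (y' • q)
      rw [dist_smul, dist_comm b' _] at h4
      have h5 : dist (y' • p) (y' • q) = dist p q := dist_smul _ _ _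
      linarith
    · have := dist_nonneg (x := r⁻¹ • a') (y := b')
      linarith
  have k3 : dist (r • a) b ≤ dist a' b' + (2 * C + 52 * θ) := by
    have h1 := dist_triangle4 (r • a) a' b' b
    rw [dist_comm (r • a) a', dist_comm b' b] at h1
    linarith
  have k3' : dist a' b' ≤ dist (r • a) b + (2 * C + 52 * θ) := by
    have h1 := dist_triangle4 a' (r • a) b b'
    linarith
  have k4 : dist (r⁻¹ • a') b' ≤ dist a b + (2 * C + 52 * θ) := by
    have h1 := dist_triangle4 (r⁻¹ • a') a b b'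
    have h2 : dist (r⁻¹ • a') a = dist a' (r • a) := by
      rw [← dist_smul r, smul_inv_smul]
    linarith
  have k5 : R.M ≤ dist a (r • a) := R.spin A r hrG hr1 a ha.1
  have k6 : dist a (r • a) ≤ dist a b + dist (r • a) b := by
    have := dist_triangle a b (r • a)
    rwa [dist_comm b (r • a)] at this
  have k7 : dist (r • a) b ≤ dist a b + (4 * C + 108 * θ) := by linarith
  have k8 : R.M / 2 - 2 * C - 54 * θ ≤ dist a b := by linarith
  have k9 : R.M / 2 - 2 * C - 54 * θ ≤ dist a' b' := by linarith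
  have f1 := far_of_proj Y.hyp ha hb (show θ + δ < dist a b by linarith)
  have f2 := far_of_proj Y.hyp ha' hb' (show θ + δ < dist a' b' by linarith)
  have f3 : dist (y' • p) (y' • q) = dist p q := dist_smul _ _ _
  -- excesses
  have g1 : exc q p a ≤ 4 * θ := by
    have h1 := dist_triangle q b a
    unfold exc
    rw [dist_comm b a] at h1
    rw [dist_comm a p, dist_comm q p]
    linarith
  have g2 : exc q p b ≤ 4 * θ := by
    have h1 := dist_triangle b a p
    unfold exc
    rw [dist_comm b a, dist_comm a p] at h1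
    rw [dist_comm q p]
    linarith
  have g3 : exc q p (y'⁻¹ • a') ≤ 4 * θ := by
    have h0 := exc_smul y' q p (y'⁻¹ • a')
    rw [smul_inv_smul] at h0
    rw [← h0]
    have h1 := dist_triangle (y' • q) b' a'
    unfold exc
    rw [dist_comm b' a'] at h1
    rw [dist_comm a' _, dist_comm (y' • q) (y' • p)]
    linarith
  have g4 : exc q p (y'⁻¹ • b') ≤ 4 * θ := by
    have h0 := exc_smul y' q p (y'⁻¹ • b')
    rw [smul_inv_smul] at h0
    rw [← h0]
    have h1 := dist_triangle b' a' (y' • p)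
    unfold exc
    rw [dist_comm b' a', dist_comm a' (y' • p)] at h1
    rw [dist_comm (y' • q) (y' • p)]
    linarith
  have m1 : dist q (y'⁻¹ • b') = dist (y' • q) b' := by
    rw [← dist_smul y', smul_inv_smul]
  have m2 : dist q (y'⁻¹ • a') = dist (y' • q) a' := by
    rw [← dist_smul y', smul_inv_smul]
  have n1 : |dist q b - dist q (y'⁻¹ • b')| ≤ 2 * C + θ := by
    rw [m1, abs_le]
    have h1 := dist_triangle4 q (y' • q) b' b
    have h2 := dist_triangle4 (y' • q) q b b'
    rw [dist_comm b' b] at h1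
    rw [dist_comm (y' • q) q] at h2
    constructor <;> linarith
  have n2 : |dist q a - dist q (y'⁻¹ • a')| ≤ 8 * C + 165 * θ := by
    rw [m1, abs_le] at n1
    rw [m2, abs_le]
    have h1 := dist_triangle q b a
    have h2 := dist_triangle (y' • q) b' a'
    have h3 := dist_triangle p a q
    have h4 := dist_triangle (y' • p) a' (y' • q)
    rw [dist_comm b a] at h1
    rw [dist_comm b' a'] at h2
    rw [dist_comm a q] at h3
    rw [dist_comm a' (y' • q)] at h4
    constructor <;> linarith [n1.1, n1.2]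
  have o1 : dist b (y'⁻¹ • b') ≤ 2 * C + 7 * θ := by
    have := order_close Y.hyp g2 g4
    linarith
  have o2 : dist a (y'⁻¹ • a') ≤ 8 * C + 171 * θ := by
    have := order_close Y.hyp g1 g3
    linarith
  -- the axis is preserved
  have hinv : y'⁻¹ • A = A := by
    by_contra hcon
    have h1 := Y.small A (y'⁻¹ • A) (fun h => hcon h.symm) (y'⁻¹ • a')
      (Y.smul_mem _ _ _ ha'.1) (y'⁻¹ • b') (Y.smul_mem _ _ _ hb'.1)
    have h2 := le_pd_of_proj (t23_self (c := θ) (by linarith) ha.1)
      (t23_self (c := θ) (by linarith) hb.1)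
    have h3 := pd_tri hSne a (y'⁻¹ • a') b
    have h4 := pd_tri hSne (y'⁻¹ • a') (y'⁻¹ • b') b
    have h5 := pd_le_dist hSne a (y'⁻¹ • a')
    have h6 := pd_le_dist hSne (y'⁻¹ • b') b
    rw [dist_comm _ b] at h6
    linarith
  have hA : y' • A = A := by
    rw [inv_smul_eq_iff] at hinv
    exact hinv.symm
  by_contra hord
  have h1 := R.disp A y' hA hord a ha.1 b hb.1
  have h2 : dist b' (y' • b) = dist b (y'⁻¹ • b') := by
    rw [← dist_smul y' b, smul_inv_smul, dist_comm]
  have h3 : dist a' (y' • a) = dist a (y'⁻¹ • a') := by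
    rw [← dist_smul y' a, smul_inv_smul, dist_comm]
  have h4 := dist_triangle b b' (y' • b)
  have h5 := dist_triangle4 a (y' • a) a' (r • a)
  rw [dist_comm (y' • a) a'] at h5
  linarith

end Pool.Agent.TH68
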