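import Pool.Agent.TH68.JD
import Pool.Agent.TH68.T1

set_option autoImplicit false
set_option linter.unusedSectionVars false

/-! No Klein four groups appear in the quotient by a spinning family. -/

namespace Pool.Agent.TH68

open Pool.Agent.Helper97.Hyp

section metric

variable {X : Type*} [PseudoMetricSpace X] {δ θ : ℝ}

lemma exc_sub_one (x y z w : X) : exc x w z ≤ exc x y z + exc z y w := by
  have h1 := dist_triangle x w y
  unfold exc
  linarith

lemma exc_sub_two (x y z w : X) : exc x y w ≤ exc x y z + exc z y w := by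
  have h1 := dist_triangle x z w
  unfold exc
  linarith

lemma exc_sub_two' (x y z w : X) : exc x y w ≤ exc x y z + exc x z w := by
  have h1 := dist_triangle w z y
  unfold exc
  linarith

end metric

section act

variable {X : Type*} [PseudoMetricSpace X] {Γ : Type*} [Group Γ] [MulAction Γ X]
  [IsIsometricSMul Γ X] {δ θ : ℝ}

/-- the position of the image of a point under an approximate reflection -/
lemma refl_pos (hθ : 0 ≤ θ) {P : ℕ → X}
    (hP : ∀ i j k, i ≤ j → j ≤ k → exc (P i) (P k) (P j) ≤ 304 * θ) {c : Γ} {j : ℕ}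
    (h3 : 3 ≤ j) (h5 : j ≤ 5) (hc : ∀ i ≤ 2 * j, dist (c • P i) (P (2 * j - i)) ≤ 100 * θ)
    {z : X} (hz : exc (P 2) (P 6) z ≤ 4 * θ) :
    2 * dist (P 0) (P j) - dist (P 0) z - 1312 * θ ≤ dist (P 0) (c • z) ∧
    dist (P 0) (c • z) ≤ 2 * dist (P 0) (P j) - dist (P 0) z + 1312 * θ ∧
      exc (P 0) (P 8) (c • z) ≤ 1012 * θ := by
  have hj1 : 2 * j - 6 ≤ 2 * j - 2 := by omega
  have e1 : exc (P (2 * j - 2)) (P (2 * j - 6)) (c • z) ≤ 404 * θ := by
    have h1 := exc_smul c (P 2) (P 6) z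
    have h2 := hc 2 (by omega)
    have h4 := hc 6 (by omega)
    have h6 := exc_move_left (c • P 2) (P (2 * j - 2)) (c • P 6) (c • z)
    have h7 := exc_move_right (P (2 * j - 2)) (c • P 6) (P (2 * j - 6)) (c • z)
    linarith
  have e2 := hP 0 (2 * j - 6) (2 * j - 2) (by omega) (by omega)
  have e3 : exc (P 0) (P (2 * j - 2)) (c • z) ≤ 708 * θ := by
    have h1 := exc_sub_two (P 0) (P (2 * j - 2)) (P (2 * j - 6)) (c • z)
    rw [exc_comm (P (2 * j - 6))] at h1
    linarith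
  have e4 : exc (P 0) (P 8) (c • z) ≤ 1012 * θ := by
    have h1 := exc_sub_two' (P 0) (P 8) (P (2 * j - 2)) (c • z)
    have h2 := hP 0 (2 * j - 2) 8 (by omega) (by omega)
    linarith
  -- positions
  have f1 : dist (P 0) (P 2) + dist (P 2) z ≤ dist (P 0) z + 308 * θ := by
    have h1 := exc_sub_one (P 0) (P 6) (P 2) z
    have h2 := hP 0 2 6 (by omega) (by omega)
    have h4 : exc (P 0) z (P 2) ≤ 308 * θ := by linarith
    unfold exc at h4
    linarith
  have f2 := dist_triangle (P 0) (P 2) z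
  have g1 : dist (c • P 2) (c • z) = dist (P 2) z := dist_smul _ _ _
  have g2 := hc 2 (by omega)
  have g3 := dist_triangle (P (2 * j - 2)) (c • P 2) (c • z)
  have g4 := dist_triangle (c • P 2) (P (2 * j - 2)) (c • z)
  rw [dist_comm (P (2 * j - 2)) (c • P 2)] at g3
  have g5 := dist_triangle (P 0) (c • z) (P (2 * j - 2))
  have g6 := e3
  unfold exc at g6
  rw [dist_comm (c • z) (P (2 * j - 2))] at g5 g6
  -- the reflected point
  have k1 := hP 0 j (2 * j - 2) (by omega) (by omega)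
  have k2 := dist_triangle (P 0) (P j) (P (2 * j - 2))
  unfold exc at k1
  have k3 := hP 0 2 j (by omega) (by omega)
  have k4 := dist_triangle (P 0) (P 2) (P j)
  unfold exc at k3
  have k5 := hc j (by omega)
  rw [show 2 * j - j = j by omega] at k5
  have k6 := dist_triangle4 (P j) (c • P j) (c • P 2) (P (2 * j - 2))
  have k7 := dist_triangle4 (c • P j) (P j) (P (2 * j - 2)) (c • P 2)
  rw [dist_comm (P (2 * j - 2)) (c • P 2)] at k7
  rw [dist_comm (P j) (c • P j)] at k6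
  have k8 : dist (c • P j) (c • P 2) = dist (P 2) (P j) := by rw [dist_smul, dist_comm]
  rw [k8] at k6 k7
  refine ⟨by linarith, by linarith, e4⟩

end act

section sys

variable {Γ : Type*} [Group Γ] {W : WNorm Γ} {𝒜 : Type*} [MulAction Γ 𝒜]

lemma near_axis (Y : Sys Γ W 𝒜) {A : 𝒜} {q₁ q₂ z : Pt W} {e : ℝ} (h1 : q₁ ∈ Y.S A)
    (h2 : q₂ ∈ Y.S A) (hz : exc q₁ q₂ z ≤ e) : ∃ s ∈ Y.S A, dist z s ≤ e / 2 + Y.θ := by
  obtain ⟨s, hs⟩ := Y.proj A z
  refine ⟨s, hs.1, ?_⟩
  have h3 := hs.2 q₁ h1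
  have h4 := hs.2 q₂ h2
  have h5 := dist_triangle q₁ s q₂
  unfold exc at hz
  rw [dist_comm q₁ z] at hz
  rw [dist_comm q₁ s] at h5
  linarith

lemma stab_axis (Y : Sys Γ W 𝒜) {A : 𝒜} {c : Γ} {p q p' q' : Pt W} {ρ : ℝ} (hp : p ∈ Y.S A)
    (hq : q ∈ Y.S A) (hp' : p' ∈ Y.S A) (hq' : q' ∈ Y.S A) (h1 : dist (c • p) p' ≤ ρ)
    (h2 : dist (c • q) q' ≤ ρ) (h3 : 2 * ρ + 4 * Y.θ < dist p q) : c • A = A := by
  by_contra hA
  have hA' : A ≠ c • A := fun h => hA h.symm
  have h4 := Y.small A (c • A) hA' (c • p) (Y.smul_mem c A p hp) (c • q) (Y.smul_mem c A q hq)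
  obtain ⟨π, hπ⟩ := Y.proj A (c • p)
  obtain ⟨π', hπ'⟩ := Y.proj A (c • q)
  have h5 := le_pd_of_proj hπ hπ'
  have h6 := proj_dist_le hπ hp'
  have h7 := proj_dist_le hπ' hq'
  have h8 := dist_triangle4 (c • p) π π' (c • q)
  rw [dist_smul, dist_comm π' (c • q)] at h8
  linarith

lemma smul_proj (Y : Sys Γ W 𝒜) {A : 𝒜} {r : Γ} (hr : r • A = A) {x q : Pt W}
    (hq : IsProj Y.θ (Y.S A) x q) : IsProj Y.θ (Y.S A) (r • x) (r • q) := by
  apply hq.smul
  intro y
  constructor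
  · intro hy
    have h := Y.smul_mem r⁻¹ A y hy
    have h2 : r⁻¹ • A = A := by
      rw [inv_smul_eq_iff]; exact hr.symm
    rwa [h2] at h
  · intro hy
    have h := Y.smul_mem r A _ hy
    rwa [hr, smul_inv_smul] at h

/-- elements of the killed group move points along axes -/
lemma fact_w {Y : Sys Γ W 𝒜} (R : Spn Y) (hM : 60 * Y.θ ≤ R.M) {n : Γ} (hn : n ∈ R.N)
    (hn1 : n ≠ 1) (x : Pt W) : ∃ A, ∃ r ∈ R.G A, r ≠ 1 ∧ ∃ q₁ ∈ Y.S A, ∃ q₂ ∈ Y.S A,
      dist (r • q₁) q₂ ≤ 51 * Y.θ ∧ R.M - 51 * Y.θ ≤ dist q₁ q₂ ∧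
        dist x q₁ + dist q₁ q₂ + dist q₂ (n • x) ≤ dist x (n • x) + 4 * Y.θ := by
  have hδ := Y.hδ
  have hθ := Y.hθ
  obtain ⟨A, r, hr, hr1, hpd⟩ := R.wind n hn hn1 x
  obtain ⟨q₁, hq₁⟩ := Y.proj A x
  obtain ⟨q₂, hq₂⟩ := Y.proj A (n • x)
  have h1 := smul_proj Y (R.fix A r hr) hq₁
  have h2 := le_pd_of_proj h1 hq₂
  have h3 := R.spin A r hr hr1 q₁ hq₁.1
  have h4 := dist_triangle q₁ q₂ (r • q₁)
  rw [dist_comm q₂ (r • q₁)] at h4
  have h5 := far_of_proj Y.hyp hq₁ hq₂ (by linarith)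
  rw [dist_comm (n • x) q₂] at h5
  exact ⟨A, r, hr, hr1, q₁, hq₁.1, q₂, hq₂.1, by linarith, by linarith, by linarith⟩

/-- nontrivial elements of the killed subgroup have infinite order -/
lemma N_inf {Y : Sys Γ W 𝒜} (R : Spn Y) (hM : 200 * Y.θ ≤ R.M) {n : Γ} (hn : n ∈ R.N)
    (hn1 : n ≠ 1) : ¬ IsOfFinOrder n := by
  intro hf
  have hδ := Y.hδ
  have hθ := Y.hθ
  obtain ⟨x, hx⟩ := disp_of_fin Y.hyp Y.hδ n hf
  obtain ⟨A, r, hr, hr1, q₁, hq₁, q₂, hq₂, h1, h2, h3⟩ := fact_w R (by linarith) hn hn1 x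
  have h4 := dist_nonneg (x := x) (y := q₁)
  have h5 := dist_nonneg (x := q₂) (y := n • x)
  linarith

/-- midpoints of the displacement of an involution -/
lemma midpt {δ : ℝ} (h : GHyp (Pt W) δ) {c : Γ} (hc : c * c = 1) (P : Pt W) :
    ∃ z : Pt W, dist z (c • z) ≤ 2 * δ + 1 ∧ dist P z ≤ dist P (c • P) / 2 ∧
      ∀ Q, dist Q z + dist P (c • P) / 2 ≤ max (dist Q P) (dist Q (c • P)) + 2 * δ + 1 := by
  set L := nd P (c • P) with hL
  have hL' : dist P (c • P) = (L : ℝ) := rfl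
  have hk : ((L / 2 : ℕ) : ℝ) ≤ dist P (c • P) := by
    rw [hL']
    exact_mod_cast Nat.div_le_self L 2
  obtain ⟨z, hz1, hz2⟩ := exists_between P (c • P) (L / 2) hk
  have hk1 : 2 * ((L / 2 : ℕ) : ℝ) ≤ L := by
    have : 2 * (L / 2) ≤ L := Nat.mul_div_le L 2
    exact_mod_cast this
  have hk2 : (L : ℝ) ≤ 2 * ((L / 2 : ℕ) : ℝ) + 1 := by
    have : L ≤ 2 * (L / 2) + 1 := by omega
    exact_mod_cast this
  have hcc : c • c • P = P := by rw [smul_smul, hc, one_smul]
  have g1 : dist (c • P) (c • z) = ((L / 2 : ℕ) : ℝ) := by rw [dist_smul, hz1]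
  have g2 : dist (c • z) P = L - ((L / 2 : ℕ) : ℝ) := by
    have : dist (c • z) (c • c • P) = dist z (c • P) := dist_smul _ _ _
    rw [hcc] at this
    rw [this, hz2, hL']
  have e1 : exc P (c • P) z ≤ 0 := by
    unfold exc
    rw [hz1, hz2]
    linarith
  have e2 : exc P (c • P) (c • z) ≤ 0 := by
    unfold exc
    rw [dist_comm P (c • z), g2, dist_comm (c • z) (c • P), g1, hL']
    linarith
  refine ⟨z, ?_, ?_, ?_⟩
  · have h1 := order_close h e1 e2
    rw [hz1, dist_comm P (c • z), g2] at h1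
    have h2 : |((L / 2 : ℕ) : ℝ) - (L - ((L / 2 : ℕ) : ℝ))| ≤ 1 := by
      rw [abs_le]; constructor <;> linarith
    linarith
  · rw [hz1, hL']; linarith
  · intro Q
    have h1 := h Q z P (c • P)
    rw [hz2, dist_comm z P, hz1, hL'] at h1
    rw [hL']
    rcases le_total (dist Q P + (L - ((L / 2 : ℕ) : ℝ))) (dist Q (c • P) + ((L / 2 : ℕ) : ℝ))
      with h2 | h2
    · rw [max_eq_right h2] at h1
      have := le_max_right (dist Q P) (dist Q (c • P))
      linarith
    · rw [max_eq_left h2] at h1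
      have := le_max_left (dist Q P) (dist Q (c • P))
      linarith

end sys

section bad

variable {Γ : Type*} [Group Γ]

/-- pairs of involutions generating a Klein four group modulo `N` -/
structure Bad (N : Subgroup Γ) (a b : Γ) : Prop where
  ha : orderOf a = 2
  hb : orderOf b = 2
  sq : (a * b) ^ 2 ∈ N
  nin : a * b ∉ N

lemma ord_two_mul {a : Γ} (ha : orderOf a = 2) : a * a = 1 := by
  rw [← pow_two, ← ha, pow_orderOf_eq_one]

lemma ord_two_inv {a : Γ} (ha : orderOf a = 2) : a⁻¹ = a :=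
  inv_eq_of_mul_eq_one_left (ord_two_mul ha)

lemma ord_two_of {a : Γ} (h1 : a * a = 1) (h2 : a ≠ 1) : orderOf a = 2 :=
  orderOf_eq_prime (by rw [pow_two]; exact h1) h2

variable {N : Subgroup Γ} [hN : N.Normal] {a b : Γ}

omit hN in
lemma Bad.symm (h : Bad N a b) : Bad N b a := by
  have e : b * a = (a * b)⁻¹ := by rw [mul_inv_rev, ord_two_inv h.ha, ord_two_inv h.hb]
  refine ⟨h.hb, h.ha, ?_, ?_⟩
  · rw [e, inv_pow]; exact N.inv_mem h.sq
  · rw [e]; intro h2; exact h.nin (by simpa using N.inv_mem h2)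

lemma Bad.left (h : Bad N a b) {n : Γ} (hn : n ∈ N) (h2 : orderOf (n * a) = 2) :
    Bad N (n * a) b := by
  refine ⟨h2, h.hb, ?_, ?_⟩
  · have e : (n * a * b) ^ 2 = n * (a * b * n * (a * b)⁻¹) * (a * b) ^ 2 := by
      rw [pow_two, pow_two]; group
    rw [e]
    exact N.mul_mem (N.mul_mem hn (hN.conj_mem n hn _)) h.sq
  · intro h3
    apply h.nin
    have := N.mul_mem (N.inv_mem hn) h3
    rwa [mul_assoc n a b, inv_mul_cancel_left] at this

lemma Bad.conj (h : Bad N a b) {n : Γ} (hn : n ∈ N) : Bad N a (n * b * n⁻¹) := by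
  have e : n * b * n⁻¹ = n * (b * n⁻¹ * b⁻¹) * b := by group
  apply Bad.symm
  rw [e]
  apply h.symm.left (N.mul_mem hn (hN.conj_mem _ (N.inv_mem hn) b))
  rw [← e]
  have : orderOf (n * b * n⁻¹) = orderOf b := by
    rw [← MulAut.conj_apply, MulEquiv.orderOf_eq]
  rw [this]; exact h.hb

end bad

section zig

variable {Γ : Type*} [Group Γ] {W : WNorm Γ} {𝒜 : Type*} [MulAction Γ 𝒜]

/-- the zigzag -/
def seqP (u : Γ) (p q : Pt W) : ℕ → Pt W
  | 0 => p
  | 1 => q
  | (n + 2) => u • seqP u p q n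

/-- the minimality property of a bad pair -/
def MinBad (Y : Sys Γ W 𝒜) (N : Subgroup Γ) (D : ℝ) : Prop :=
  ∀ (a b : Γ) (p q : Pt W), Bad N a b → dist p (a • p) ≤ 100 * Y.θ →
    dist q (b • q) ≤ 100 * Y.θ → D ≤ dist p q

structure Zig (Y : Sys Γ W 𝒜) (N : Subgroup Γ) (D : ℝ) (u : Γ) (c : ℕ → Γ)
    (P : ℕ → Pt W) : Prop where
  bad : ∀ i, Bad N (c i) (c (i + 1))
  mul : ∀ i j, i ≤ j → c j * c i = u ^ (j - i)
  disp : ∀ i, dist (P i) (c i • P i) ≤ 100 * Y.θ
  low : ∀ i, D ≤ dist (P i) (P (i + 1))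
  up : ∀ i, dist (P i) (P (i + 1)) ≤ D + 200 * Y.θ
  ex : ∀ i j k, i ≤ j → j ≤ k → exc (P i) (P k) (P j) ≤ 304 * Y.θ
  refl : ∀ j i, i ≤ 2 * j → dist (c j • P i) (P (2 * j - i)) ≤ 100 * Y.θ
  per : u ^ 2 • P 2 = P 6

lemma corner {Y : Sys Γ W 𝒜} {N : Subgroup Γ} {a b : Γ} {p q : Pt W}
    (hab : Bad N a b) (hp : dist p (a • p) ≤ 100 * Y.θ) (hq : dist q (b • q) ≤ 100 * Y.θ)
    (hmin : MinBad Y N (dist p q)) : exc p (b • p) q ≤ 100 * Y.θ := by
  have hδ := Y.hδ
  have hθ := Y.hθ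
  obtain ⟨z, hz1, hz2, _⟩ := midpt Y.hyp (ord_two_mul hab.hb) p
  have h1 := hmin a b p z hab hp (by linarith)
  have h2 := dist_triangle q (b • q) (b • p)
  rw [dist_smul, dist_comm q p] at h2
  unfold exc
  linarith

lemma seqP_add (u : Γ) (p q : Pt W) (i m : ℕ) :
    seqP u p q (i + 2 * m) = u ^ m • seqP u p q i := by
  induction m with
  | zero => simp
  | succ m ih =>
    rw [show i + 2 * (m + 1) = (i + 2 * m) + 2 by ring]
    change u • seqP u p q (i + 2 * m) = _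
    rw [ih, smul_smul, pow_succ']

lemma two_step {p : ℕ → Prop} (h0 : p 0) (h1 : p 1) (h2 : ∀ i, p i → p (i + 2)) (i : ℕ) :
    p i := by
  induction i using Nat.strongRecOn with
  | _ i ih =>
    match i, ih with
    | 0, _ => exact h0
    | 1, _ => exact h1
    | (i + 2), ih => exact h2 i (ih i (by omega))

lemma zig_exists {Y : Sys Γ W 𝒜} {N : Subgroup Γ} {a b : Γ} {p q : Pt W}
    (hab : Bad N a b) (hp : dist p (a • p) ≤ 100 * Y.θ) (hq : dist q (b • q) ≤ 100 * Y.θ)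
    (hmin : MinBad Y N (dist p q)) (hD : 310 * Y.θ ≤ dist p q) :
    ∃ (c : ℕ → Γ) (P : ℕ → Pt W), Zig Y N (dist p q) (b * a) c P := by
  have hδ := Y.hδ
  have hθ := Y.hθ
  have haa := ord_two_mul hab.ha
  have hbb := ord_two_mul hab.hb
  have hai := ord_two_inv hab.ha
  have hbi := ord_two_inv hab.hb
  set u := b * a with hu
  have hui : u⁻¹ = a * b := by rw [hu, mul_inv_rev, hai, hbi]
  -- `a` inverts `u`
  have hau : a * u = u⁻¹ * a := by rw [hui, hu]; group
  have hau' : ∀ n : ℕ, a * u ^ n = (u ^ n)⁻¹ * a := by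
    intro n
    induction n with
    | zero => simp
    | succ n ih =>
      rw [pow_succ, ← mul_assoc, ih, mul_assoc, hau, ← mul_assoc, ← mul_inv_rev,
        (pow_mul_comm' u n)]
  have hau2 : ∀ n : ℕ, a * u ^ n * a = (u ^ n)⁻¹ := by
    intro n
    rw [hau' n, mul_assoc, haa, mul_one]
  have hmul : ∀ i j, i ≤ j → (u ^ j * a) * (u ^ i * a) = u ^ (j - i) := by
    intro i j hij
    have e : (u ^ j * a) * (u ^ i * a) = u ^ j * (a * u ^ i * a) := by group
    rw [e, hau2, pow_sub u hij]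
  have hstep : ∀ i, u ^ (i + 2) * a = u * (u ^ i * a) * u⁻¹ := by
    intro i
    have h1 : a * u⁻¹ = u * a := by
      rw [hui, hu, ← mul_assoc, haa, one_mul, mul_assoc, haa, mul_one]
    rw [mul_assoc u, mul_assoc (u ^ i), h1, ← mul_assoc (u ^ i), ← mul_assoc u, ← pow_succ,
      ← pow_succ']
  have hc0 : u ^ 0 * a = a := by simp
  have hc1 : u ^ 1 * a = b := by rw [pow_one, hu, mul_assoc, haa, mul_one]
  have hord : ∀ i, orderOf (u ^ i * a) = 2 := by
    apply two_step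
    · rw [hc0]; exact hab.ha
    · rw [hc1]; exact hab.hb
    · intro i hi
      rw [hstep, ← MulAut.conj_apply, MulEquiv.orderOf_eq]
      exact hi
  have hbad : ∀ i, Bad N (u ^ i * a) (u ^ (i + 1) * a) := by
    intro i
    have h1 := hmul i (i + 1) (by omega)
    rw [Nat.add_sub_cancel_left, pow_one] at h1
    have h2 : (u ^ i * a) * (u ^ (i + 1) * a) = a * b := by
      have h3 := congrArg (·⁻¹) h1
      simp only [mul_inv_rev (u ^ (i + 1) * a)] at h3
      rw [ord_two_inv (hord _), ord_two_inv (hord _), hui] at h3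
      exact h3
    refine ⟨hord _, hord _, ?_, ?_⟩
    · rw [h2]; exact hab.sq
    · rw [h2]; exact hab.nin
  have hdisp : ∀ i, dist (seqP u p q i) ((u ^ i * a) • seqP u p q i) ≤ 100 * Y.θ := by
    apply two_step
    · rw [hc0]; exact hp
    · rw [hc1]; exact hq
    · intro i hi
      have h1 : (u ^ (i + 2) * a) • seqP u p q (i + 2) = u • (u ^ i * a) • seqP u p q i := by
        change (u ^ (i + 2) * a) • u • seqP u p q i = _
        rw [hstep, smul_smul, smul_smul, inv_mul_cancel_right]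
      rw [h1]
      change dist (u • seqP u p q i) _ ≤ _
      rw [dist_smul]
      exact hi
  have hup1 : dist q (u • p) ≤ dist p q + 200 * Y.θ := by
    have h1 := dist_triangle4 q (b • q) (b • p) (u • p)
    rw [dist_smul, hu, mul_smul, dist_smul, dist_comm q p] at h1
    rw [hu, mul_smul]
    linarith
  have hup : ∀ i, dist (seqP u p q i) (seqP u p q (i + 1)) ≤ dist p q + 200 * Y.θ := by
    apply two_step
    · change dist p q ≤ _
      linarith
    · exact hup1
    · intro i hi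
      change dist (u • seqP u p q i) (u • seqP u p q (i + 1)) ≤ _
      rw [dist_smul]
      exact hi
  have hlow : ∀ i, dist p q ≤ dist (seqP u p q i) (seqP u p q (i + 1)) := by
    intro i
    exact hmin _ _ _ _ (hbad i) (hdisp i) (hdisp (i + 1))
  have hcor : ∀ i, exc (seqP u p q i) (seqP u p q (i + 2)) (seqP u p q (i + 1)) ≤
      300 * Y.θ := by
    apply two_step
    · change exc p (u • p) q ≤ _
      have h1 := corner hab hp hq hmin
      have h2 := exc_move_right p (b • p) (u • p) q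
      rw [hu, mul_smul, dist_smul] at h2
      rw [hu, mul_smul]
      linarith
    · change exc q (u • q) (u • p) ≤ _
      rw [dist_comm p q] at hmin
      have h1 := corner hab.symm hq hp hmin
      have h2 := exc_move_right q (a • q) (u⁻¹ • q) p
      rw [hui, mul_smul, dist_smul] at h2
      have h3 : exc q (u • q) (u • p) = exc (u⁻¹ • q) q p := by
        have h4 := exc_smul u (u⁻¹ • q) q p
        rwa [smul_inv_smul] at h4
      rw [h3, exc_comm, hui, mul_smul]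
      linarith
    · intro i hi
      change exc (u • seqP u p q i) (u • seqP u p q (i + 2)) (u • seqP u p q (i + 1)) ≤ _
      rw [exc_smul]
      exact hi
  refine ⟨fun i => u ^ i * a, seqP u p q, hbad, hmul, hdisp, hlow, hup, ?_, ?_, ?_⟩
  · intro i j k hij hjk
    have h1 := bg Y.hyp (x := seqP u p q) (a := 300 * Y.θ) (by linarith) hcor
      (fun i => by have := hlow i; linarith) hij hjk
    linarith
  · intro j i hij
    rcases le_total i j with h1 | h1
    · obtain ⟨m, rfl⟩ := Nat.exists_eq_add_of_le h1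
      rw [show 2 * (i + m) - i = i + 2 * m by omega, seqP_add]
      have e : u ^ (i + m) * a = u ^ m * (u ^ i * a) := by
        rw [← mul_assoc, ← pow_add, add_comm m i]
      simp only [e]
      rw [mul_smul, dist_smul, dist_comm]
      exact hdisp i
    · obtain ⟨m, rfl⟩ := Nat.exists_eq_add_of_le h1
      have h2 : seqP u p q (j + m) = u ^ m • seqP u p q (2 * j - (j + m)) := by
        rw [← seqP_add]
        congr 1
        omega
      have h3 := hdisp (j + m)
      have e : u ^ (j + m) * a = u ^ m * (u ^ j * a) := by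
        rw [← mul_assoc, ← pow_add, add_comm m j]
      rw [dist_comm, e, mul_smul] at h3
      nth_rewrite 2 [h2] at h3
      rw [dist_smul] at h3
      exact h3
  · rw [← seqP_add]

end zig

section core

variable {Γ : Type*} [Group Γ] {W : WNorm Γ} {𝒜 : Type*} [MulAction Γ 𝒜]

/-- twisting an involution by an element of the killed subgroup contradicts minimality -/
lemma reduce {Y : Sys Γ W 𝒜} {N : Subgroup Γ} [N.Normal] {D A₁ : ℝ} (hmin : MinBad Y N D)
    {c e ρ : Γ} {P Q : Pt W} (hce : Bad N c e) (hρ : ρ ∈ N) (ho : orderOf (ρ * c) = 2)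
    (hP : dist P (c • P) ≤ 100 * Y.θ) (hQ : dist Q (e • Q) ≤ 100 * Y.θ)
    (h1 : dist Q P ≤ D + A₁) (h2 : dist Q (ρ • P) ≤ D + A₁)
    (h3 : 2 * A₁ + 400 * Y.θ < dist P (ρ • P)) : False := by
  have hδ := Y.hδ
  have hθ := Y.hθ
  obtain ⟨z, hz1, _, hz3⟩ := midpt Y.hyp (ord_two_mul ho) P
  have h4 := hmin e (ρ * c) Q z (hce.left hρ ho).symm hQ (by linarith)
  have h5 := hz3 Q
  have h6 : dist (ρ • P) ((ρ * c) • P) ≤ 100 * Y.θ := by rw [mul_smul, dist_smul]; exact hP
  have h7 := dist_triangle Q (ρ • P) ((ρ * c) • P)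
  have h8 := dist_triangle P ((ρ * c) • P) (ρ • P)
  rw [dist_comm ((ρ * c) • P) (ρ • P)] at h8
  have h9 : max (dist Q P) (dist Q ((ρ * c) • P)) ≤ D + A₁ + 100 * Y.θ :=
    max_le (by linarith) (by linarith)
  linarith

lemma twist_order {Y : Sys Γ W 𝒜} (R : Spn Y) (hM : 200 * Y.θ ≤ R.M) {A : 𝒜} {c r : Γ}
    (hc : orderOf c = 2) (hcA : c • A = A) (hr : r ∈ R.G A) : orderOf (r * c) = 2 := by
  have h1 := R.flip A c hcA hc r hr
  have h2 := ord_two_mul hc
  apply ord_two_of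
  · have e : r * c * (r * c) = r * (c * r * c⁻¹) * (c * c) := by group
    rw [e, h1, h2]; group
  · intro h3
    have h4 : c = r⁻¹ := by rw [← mul_eq_one_iff_eq_inv']; exact h3
    have h5 : c ∈ R.N := by rw [h4]; exact R.N.inv_mem (R.G_le A hr)
    have h6 : c ≠ 1 := by intro h; rw [h, orderOf_one] at hc; omega
    apply N_inf R hM h5 h6
    rw [← orderOf_pos_iff, hc]
    norm_num

theorem t4_core {Y : Sys Γ W 𝒜} (R : Spn Y) (hM : 100000 * Y.θ ≤ R.M) {D : ℝ} {u : Γ}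
    {c : ℕ → Γ} {P : ℕ → Pt W} (hZ : Zig Y R.N D u c P) (hmin : MinBad Y R.N D)
    (hD : 310 * Y.θ ≤ D) (hu : ¬ IsOfFinOrder u) (hu2 : u ^ 2 ∈ R.N) (hun : u ∉ R.N) :
    False := by
  have hδ := Y.hδ
  have hθ := Y.hθ
  have hu1 : u ^ 2 ≠ 1 := fun h => hu (isOfFinOrder_iff_pow_eq_one.2 ⟨2, by norm_num, h⟩)
  obtain ⟨A, r, hr, hr1, q₁, hq₁, q₂, hq₂, h1, h2, h3⟩ :=
    fact_w R (by linarith) hu2 hu1 (P 2)
  rw [hZ.per] at h3
  -- excesses
  have e1 : exc (P 2) (P 6) q₁ ≤ 4 * Y.θ := by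
    have := dist_triangle q₁ q₂ (P 6)
    unfold exc; linarith
  have e2 : exc (P 2) (P 6) q₂ ≤ 4 * Y.θ := by
    have := dist_triangle (P 2) q₁ q₂
    unfold exc; linarith
  have x26 := hZ.ex 0 2 6 (by norm_num) (by norm_num)
  have x68 := hZ.ex 0 6 8 (by norm_num) (by norm_num)
  have win : ∀ z, exc (P 2) (P 6) z ≤ 4 * Y.θ → exc (P 0) (P 8) z ≤ 612 * Y.θ ∧
      dist (P 0) (P 2) - 308 * Y.θ ≤ dist (P 0) z ∧
      dist (P 0) z ≤ dist (P 0) (P 6) + 308 * Y.θ := by
    intro z hz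
    have h4 := exc_sub_two (P 0) (P 6) (P 2) z
    have h5 := exc_sub_two' (P 0) (P 8) (P 6) z
    have h6 := exc_sub_one (P 0) (P 6) (P 2) z
    refine ⟨by linarith, ?_, ?_⟩
    · have h7 : exc (P 0) z (P 2) ≤ 308 * Y.θ := by linarith
      unfold exc at h7
      have := dist_nonneg (x := P 2) (y := z)
      linarith
    · have h7 : exc (P 0) (P 6) z ≤ 308 * Y.θ := by linarith
      unfold exc at h7
      have := dist_nonneg (x := z) (y := P 6)
      linarith
  obtain ⟨w1, s1l, s1u⟩ := win q₁ e1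
  obtain ⟨w2, s2l, s2u⟩ := win q₂ e2
  have wj : ∀ j ≤ 8, exc (P 0) (P 8) (P j) ≤ 304 * Y.θ := fun j hj =>
    hZ.ex 0 j 8 (by omega) hj
  have cl : ∀ z z' : Pt W, exc (P 0) (P 8) z ≤ 1012 * Y.θ → exc (P 0) (P 8) z' ≤ 1012 * Y.θ →
      dist z z' ≤ |dist (P 0) z - dist (P 0) z'| + 1014 * Y.θ := by
    intro z z' hz hz'
    have := order_close Y.hyp hz hz'
    linarith
  have cl' : ∀ z z' : Pt W, exc (P 0) (P 8) z ≤ 612 * Y.θ → exc (P 0) (P 8) z' ≤ 612 * Y.θ →
      dist z z' ≤ |dist (P 0) z - dist (P 0) z'| + 614 * Y.θ := by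
    intro z z' hz hz'
    have := order_close Y.hyp hz hz'
    linarith
  -- the distance of `q₁` and `q₂`
  have s12 : dist (P 0) q₁ + dist q₁ q₂ ≤ dist (P 0) q₂ + 312 * Y.θ := by
    have h4 := exc_sub_one (P 0) (P 6) (P 2) q₂
    have h5 := exc_sub_two (P 0) q₂ (P 2) q₁
    have h6 : exc (P 2) q₂ q₁ ≤ 4 * Y.θ := by
      have := dist_triangle (P 2) q₂ (P 6)
      unfold exc; linarith
    have h7 : exc (P 0) q₂ q₁ ≤ 312 * Y.θ := by linarith
    unfold exc at h7
    linarith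
  have s21 := dist_triangle (P 0) q₁ q₂
  set s₁ := dist (P 0) q₁ with hs1
  set s₂ := dist (P 0) q₂ with hs2
  have tstep : ∀ j, dist (P 0) (P (j + 1)) ≤ dist (P 0) (P j) + (D + 200 * Y.θ) := by
    intro j
    have h4 := dist_triangle (P 0) (P j) (P (j + 1))
    have h5 := hZ.up j
    linarith
  have tlow : ∀ j, dist (P 0) (P j) + (D - 304 * Y.θ) ≤ dist (P 0) (P (j + 1)) := by
    intro j
    have h4 := hZ.ex 0 j (j + 1) (by omega) (by omega)
    have h5 := hZ.low j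
    unfold exc at h4
    linarith
  -- distances of the `q`s to the `P`s
  have d1 : ∀ j ≤ 8, dist (P j) q₁ ≤ |dist (P 0) (P j) - s₁| + 614 * Y.θ := by
    intro j hj
    have h6 := wj j hj
    exact cl' (P j) q₁ (by linarith) w1
  have d2 : ∀ j ≤ 8, dist (P j) q₂ ≤ |dist (P 0) (P j) - s₂| + 614 * Y.θ := by
    intro j hj
    have h6 := wj j hj
    exact cl' (P j) q₂ (by linarith) w2
  have side : ∀ j, j + 1 ≤ 8 → dist (P 0) (P j) - 6000 * Y.θ ≤ s₁ →
      s₂ ≤ dist (P 0) (P (j + 1)) + 6000 * Y.θ → False := by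
    intro j hj h4 h5
    have h6 := d1 j (by omega)
    have h7 := d2 (j + 1) hj
    have h8 : |dist (P 0) (P j) - s₁| ≤ s₁ - dist (P 0) (P j) + 12000 * Y.θ := by
      rw [abs_le]; constructor <;> linarith
    have h9 : |dist (P 0) (P (j + 1)) - s₂| ≤ dist (P 0) (P (j + 1)) - s₂ + 12000 * Y.θ := by
      rw [abs_le]; constructor <;> linarith
    have h10 : dist (r⁻¹ • P (j + 1)) ((r⁻¹ * c (j + 1) * (r⁻¹)⁻¹) • r⁻¹ • P (j + 1)) ≤
        100 * Y.θ := by
      rw [smul_smul, inv_mul_cancel_right, mul_smul, dist_smul]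
      exact hZ.disp (j + 1)
    have h11 := hmin _ _ _ _ ((hZ.bad j).conj (R.N.inv_mem (R.G_le A hr))) (hZ.disp j) h10
    have h12 : dist (P j) (r⁻¹ • P (j + 1)) = dist (r • P j) (P (j + 1)) := by
      rw [← dist_smul r, smul_inv_smul]
    have h13 := dist_triangle4 (r • P j) (r • q₁) q₂ (P (j + 1))
    rw [dist_smul, dist_comm q₂ (P (j + 1))] at h13
    have h14 := tstep j
    linarith
  -- indices in the middle
  have mid_axis : ∀ j, 3 ≤ j → j ≤ 5 → s₁ + 6000 * Y.θ ≤ dist (P 0) (P j) →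
      dist (P 0) (P j) ≤ s₂ - 6000 * Y.θ → (∃ s ∈ Y.S A, dist (P j) s ≤ 615 * Y.θ) ∧
        c j • A = A := by
    intro j hj3 hj5 h4 h5
    have h6 := d1 j (by omega)
    have h7 := d2 j (by omega)
    rw [abs_of_nonneg (by linarith)] at h6
    rw [abs_of_nonpos (by linarith)] at h7
    have h8 : exc q₁ q₂ (P j) ≤ 1228 * Y.θ := by
      unfold exc
      rw [dist_comm q₁ (P j)]
      linarith
    obtain ⟨s, hs, hs'⟩ := near_axis Y hq₁ hq₂ h8
    have hs'' : dist (P j) s ≤ 615 * Y.θ := by linarith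
    refine ⟨⟨s, hs, hs''⟩, ?_⟩
    have h9 : dist (c j • s) s ≤ 2327 * Y.θ := by
      have h10 := dist_triangle4 (c j • s) (c j • P j) (P j) s
      rw [dist_smul, dist_comm s (P j), dist_comm (c j • P j) (P j)] at h10
      have h11 := hZ.disp j
      linarith
    have hrefl := hZ.refl j
    rcases le_total (dist (P 0) (P j) - s₁) (s₂ - dist (P 0) (P j)) with h10 | h10
    · obtain ⟨g1, g2, g3⟩ := refl_pos (by linarith) hZ.ex hj3 hj5 hrefl e1
      have g4 := cl q₁ (c j • q₁) (by linarith) g3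
      have g5 := cl (c j • q₁) q₂ g3 (by linarith)
      rw [abs_of_nonpos (by linarith)] at g4
      have g6 : |dist (P 0) (c j • q₁) - dist (P 0) q₂| ≤
          s₂ - dist (P 0) (c j • q₁) + 2624 * Y.θ := by
        rw [abs_le]; constructor <;> linarith
      have g7 : exc q₁ q₂ (c j • q₁) ≤ 4652 * Y.θ := by
        unfold exc
        linarith
      obtain ⟨t, ht, ht'⟩ := near_axis Y hq₁ hq₂ g7
      refine stab_axis Y hq₁ hs ht hs (ρ := 2327 * Y.θ) (by linarith) h9 ?_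
      have g8 := dist_triangle (P 0) q₁ (P j)
      have g9 := dist_triangle q₁ s (P j)
      rw [dist_comm s (P j)] at g9
      linarith
    · obtain ⟨g1, g2, g3⟩ := refl_pos (by linarith) hZ.ex hj3 hj5 hrefl e2
      have g4 := cl (c j • q₂) q₂ g3 (by linarith)
      have g5 := cl q₁ (c j • q₂) (by linarith) g3
      rw [abs_of_nonpos (by linarith)] at g4
      have g6 : |dist (P 0) q₁ - dist (P 0) (c j • q₂)| ≤
          dist (P 0) (c j • q₂) - s₁ + 2624 * Y.θ := by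
        rw [abs_le]; constructor <;> linarith
      have g7 : exc q₁ q₂ (c j • q₂) ≤ 4652 * Y.θ := by
        unfold exc
        linarith
      obtain ⟨t, ht, ht'⟩ := near_axis Y hq₁ hq₂ g7
      refine stab_axis Y hq₂ hs ht hs (ρ := 2327 * Y.θ) (by linarith) h9 ?_
      have g8 := dist_triangle (P 0) (P j) q₂
      have g9 := dist_triangle (P j) s q₂
      rw [dist_comm s q₂] at g9
      linarith
  -- existence and uniqueness of the middle index
  have uniq : ∀ i j, 3 ≤ i → i < j → j ≤ 5 → s₁ + 6000 * Y.θ ≤ dist (P 0) (P i) →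
      dist (P 0) (P i) ≤ s₂ - 6000 * Y.θ → s₁ + 6000 * Y.θ ≤ dist (P 0) (P j) →
      dist (P 0) (P j) ≤ s₂ - 6000 * Y.θ → False := by
    intro i j hi hij hj h4 h5 h6 h7
    have h8 := (mid_axis i hi (by omega) h4 h5).2
    have h9 := (mid_axis j (by omega) hj h6 h7).2
    have h10 : u ^ ((j - i : ℕ) : ℤ) • A = A := by
      rw [zpow_natCast, ← hZ.mul i j hij.le, mul_smul, h8, h9]
    exact hun (R.root u A _ (by omega) hu h10 hu2)
  -- the final contradiction
  have fin : ∀ i, 2 ≤ i → i + 2 ≤ 6 → s₁ + 6000 * Y.θ ≤ dist (P 0) (P (i + 1)) →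
      dist (P 0) (P (i + 1)) ≤ s₂ - 6000 * Y.θ → dist (P 0) (P i) - 6000 * Y.θ ≤ s₁ →
      s₂ ≤ dist (P 0) (P (i + 2)) + 6000 * Y.θ → False := by
    intro i hi hi6 h4 h5 h6 h7
    obtain ⟨⟨s, hs, hs'⟩, hcA⟩ := mid_axis (i + 1) (by omega) (by omega) h4 h5
    have k1 := tstep i
    have k2 := tstep (i + 1)
    have hr' := (R.G A).inv_mem hr
    have hr1' : r⁻¹ ≠ 1 := fun h => hr1 (inv_eq_one.1 h)
    have disp' : ∀ ρ ∈ R.G A, ρ ≠ 1 → R.M - 1230 * Y.θ ≤ dist (P (i + 1)) (ρ • P (i + 1)) := by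
      intro ρ hρ hρ1
      have g1 := R.spin A ρ hρ hρ1 s hs
      have g2 := dist_triangle4 s (P (i + 1)) (ρ • P (i + 1)) (ρ • s)
      rw [dist_smul, dist_comm s (P (i + 1))] at g2
      linarith
    have a1 := d1 (i + 1) (by omega)
    have a2 := d2 (i + 1) (by omega)
    rw [abs_of_nonneg (by linarith)] at a1
    rw [abs_of_nonpos (by linarith)] at a2
    rcases le_total (dist (P 0) (P (i + 1)) - s₁) (s₂ - dist (P 0) (P (i + 1))) with h8 | h8
    · have b1 := d2 (i + 2) (by omega)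
      have b2 : |dist (P 0) (P (i + 2)) - s₂| ≤
          dist (P 0) (P (i + 2)) - s₂ + 12000 * Y.θ := by
        rw [abs_le]; constructor <;> linarith
      have b3 := dist_triangle4 (P (i + 2)) q₂ (r • q₁) (r • P (i + 1))
      rw [dist_smul, dist_comm q₂ (r • q₁), dist_comm q₁] at b3
      have b4 := hZ.up (i + 1)
      rw [dist_comm] at b4
      refine reduce hmin (hZ.bad (i + 1)) (R.G_le A hr)
        (twist_order R (by linarith) (hZ.bad (i + 1)).ha hcA hr) (hZ.disp (i + 1))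
        (hZ.disp (i + 2)) (A₁ := 14000 * Y.θ) ?_ ?_ ?_
      · change dist (P (i + 2)) (P (i + 1)) ≤ _ at b4
        linarith
      · change dist (P 0) (P (i + 2)) ≤ _ at k2
        linarith
      · have := disp' r hr hr1
        linarith
    · have b1 := d1 i (by omega)
      have b2 : |dist (P 0) (P i) - s₁| ≤ s₁ - dist (P 0) (P i) + 12000 * Y.θ := by
        rw [abs_le]; constructor <;> linarith
      have b3 : dist (P i) (r⁻¹ • P (i + 1)) ≤
          dist (P i) q₁ + 51 * Y.θ + dist (P (i + 1)) q₂ := by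
        have g1 : dist q₁ (r⁻¹ • P (i + 1)) = dist (r • q₁) (P (i + 1)) := by
          rw [← dist_smul r, smul_inv_smul]
        have g2 := dist_triangle (P i) q₁ (r⁻¹ • P (i + 1))
        have g3 := dist_triangle (r • q₁) q₂ (P (i + 1))
        rw [dist_comm q₂ (P (i + 1))] at g3
        linarith
      have b4 := hZ.up i
      refine reduce hmin (hZ.bad i).symm (R.G_le A hr')
        (twist_order R (by linarith) (hZ.bad i).hb hcA hr') (hZ.disp (i + 1))
        (hZ.disp i) (A₁ := 14000 * Y.θ) ?_ ?_ ?_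
      · linarith
      · linarith
      · have := disp' r⁻¹ hr' hr1'
        linarith
  have t23 := tlow 2
  have t34 := tlow 3
  have t45 := tlow 4
  have t56 := tlow 5
  norm_num at t23 t34 t45 t56
  -- case analysis
  by_cases m3 : s₁ + 6000 * Y.θ ≤ dist (P 0) (P 3) ∧ dist (P 0) (P 3) ≤ s₂ - 6000 * Y.θ
  · by_cases m4 : s₁ + 6000 * Y.θ ≤ dist (P 0) (P 4) ∧ dist (P 0) (P 4) ≤ s₂ - 6000 * Y.θ
    · exact uniq 3 4 (by norm_num) (by norm_num) (by norm_num) m3.1 m3.2 m4.1 m4.2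
    · refine fin 2 (by norm_num) (by norm_num) m3.1 m3.2 (by linarith) ?_
      by_contra hcon
      exact m4 ⟨by linarith [m3.1], by linarith [not_le.1 hcon]⟩
  · by_cases m4 : s₁ + 6000 * Y.θ ≤ dist (P 0) (P 4) ∧ dist (P 0) (P 4) ≤ s₂ - 6000 * Y.θ
    · by_cases m5 : s₁ + 6000 * Y.θ ≤ dist (P 0) (P 5) ∧ dist (P 0) (P 5) ≤ s₂ - 6000 * Y.θ
      · exact uniq 4 5 (by norm_num) (by norm_num) (by norm_num) m4.1 m4.2 m5.1 m5.2
      · refine fin 3 (by norm_num) (by norm_num) m4.1 m4.2 ?_ ?_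
        · by_contra hcon
          exact m3 ⟨by linarith [not_le.1 hcon], by linarith [m4.2]⟩
        · by_contra hcon
          exact m5 ⟨by linarith [m4.1], by linarith [not_le.1 hcon]⟩
    · by_cases m5 : s₁ + 6000 * Y.θ ≤ dist (P 0) (P 5) ∧ dist (P 0) (P 5) ≤ s₂ - 6000 * Y.θ
      · refine fin 4 (by norm_num) (by norm_num) m5.1 m5.2 ?_ (by linarith)
        by_contra hcon
        exact m4 ⟨by linarith [not_le.1 hcon], by linarith [m5.2]⟩
      · -- no middle index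
        rcases lt_or_ge s₂ (dist (P 0) (P 3) + 6000 * Y.θ) with h | h
        · exact side 2 (by norm_num) (by linarith) h.le
        have g3 : dist (P 0) (P 3) - 6000 * Y.θ ≤ s₁ := by
          by_contra hcon
          exact m3 ⟨by linarith [not_le.1 hcon], by linarith⟩
        rcases lt_or_ge s₂ (dist (P 0) (P 4) + 6000 * Y.θ) with h' | h'
        · exact side 3 (by norm_num) (by linarith) h'.le
        have g4 : dist (P 0) (P 4) - 6000 * Y.θ ≤ s₁ := by
          by_contra hcon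
          exact m4 ⟨by linarith [not_le.1 hcon], by linarith⟩
        rcases lt_or_ge s₂ (dist (P 0) (P 5) + 6000 * Y.θ) with h'' | h''
        · exact side 4 (by norm_num) (by linarith) h''.le
        have g5 : dist (P 0) (P 5) - 6000 * Y.θ ≤ s₁ := by
          by_contra hcon
          exact m5 ⟨by linarith [not_le.1 hcon], by linarith⟩
        exact side 5 (by norm_num) (by linarith) (by linarith)

end core

section final

variable {Γ : Type*} [Group Γ] {W : WNorm Γ} {𝒜 : Type*} [MulAction Γ 𝒜]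

theorem t4_of (Y : Sys Γ W 𝒜) (hΓ : KGrp Γ) (hT : ∃ M₀ : ℝ, ∀ R : Spn Y, M₀ ≤ R.M → ∀ u : Γ,
    ¬ IsOfFinOrder u → (∃ x : Pt W, dist x (u • x) ≤ 820 * Y.θ) → ∀ k : ℕ, 0 < k →
      u ^ k ∈ R.N → ∃ A : 𝒜, u • A = A) :
    ∃ M₀ : ℝ, ∀ R : Spn Y, M₀ ≤ R.M → ∀ a b : Γ, orderOf a = 2 → orderOf b = 2 →
      (a * b) ^ 2 ∈ R.N → a * b ∈ R.N := by
  classical
  have hδ := Y.hδ
  have hθ := Y.hθ
  obtain ⟨M₁, hM₁⟩ := hT
  refine ⟨max M₁ (100000 * Y.θ), fun R hR a b ha hb hsq => ?_⟩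
  have hR1 : M₁ ≤ R.M := (le_max_left _ _).trans hR
  have hR2 : 100000 * Y.θ ≤ R.M := (le_max_right _ _).trans hR
  by_contra hnin
  -- a minimal bad quadruple
  have hex : ∃ d : ℕ, ∃ (a b : Γ) (p q : Pt W), Bad R.N a b ∧ dist p (a • p) ≤ 100 * Y.θ ∧
      dist q (b • q) ≤ 100 * Y.θ ∧ nd p q = d := by
    obtain ⟨p, hp⟩ := disp_of_fin Y.hyp Y.hδ a
      (by rw [← orderOf_pos_iff, ha]; norm_num)
    obtain ⟨q, hq⟩ := disp_of_fin Y.hyp Y.hδ b
      (by rw [← orderOf_pos_iff, hb]; norm_num)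
    exact ⟨_, a, b, p, q, ⟨ha, hb, hsq, hnin⟩, by linarith, by linarith, rfl⟩
  obtain ⟨a, b, p, q, hab, hp, hq, hd⟩ := Nat.find_spec hex
  have hmin : MinBad Y R.N (dist p q) := by
    intro a' b' p' q' hab' hp' hq'
    have := Nat.find_min' hex ⟨a', b', p', q', hab', hp', hq', rfl⟩
    rw [dist_eq_nd, dist_eq_nd, hd]
    exact_mod_cast this
  have hu2 : (b * a) ^ 2 ∈ R.N := hab.symm.sq
  have hun : b * a ∉ R.N := hab.symm.nin
  have hu : ¬ IsOfFinOrder (b * a) := by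
    intro hf
    have h1 : (b * a) ^ 2 = 1 := by
      by_contra h2
      exact N_inf R (by linarith) hu2 h2 hf.pow
    have h3 : Commute b a := by
      rw [commute_iff_eq]
      have h4 : (b * a) * (b * a) = 1 := by rw [← pow_two]; exact h1
      have h5 := eq_inv_of_mul_eq_one_left h4
      rw [mul_inv_rev, ord_two_inv hab.ha, ord_two_inv hab.hb] at h5
      exact h5
    have h6 := hΓ.inv b a hab.hb hab.ha h3
    apply hun
    rw [h6, ord_two_mul hab.ha]
    exact R.N.one_mem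
  rcases le_total (310 * Y.θ) (dist p q) with hD | hD
  · obtain ⟨c, P, hZ⟩ := zig_exists hab hp hq hmin hD
    exact t4_core R hR2 hZ hmin hD hu hu2 hun
  · have h1 := dist_triangle4 p q (b • q) (b • p)
    have h2 := dist_triangle p (b • p) ((b * a) • p)
    rw [dist_smul, dist_comm q p] at h1
    rw [mul_smul, dist_smul] at h2
    obtain ⟨A, hA⟩ := hM₁ R hR1 (b * a) hu ⟨p, by rw [mul_smul]; linarith⟩ 2 (by norm_num) hu2
    exact hun (R.root (b * a) A 1 (by norm_num) hu (by rw [zpow_one]; exact hA) hu2)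

theorem t4 (Y : Sys Γ W 𝒜) (hΓ : KGrp Γ) :
    ∃ M₀ : ℝ, ∀ R : Spn Y, M₀ ≤ R.M → ∀ a b : Γ, orderOf a = 2 → orderOf b = 2 →
      (a * b) ^ 2 ∈ R.N → a * b ∈ R.N :=
  t4_of Y hΓ (t1_short_unif Y (820 * Y.θ))

end final

end Pool.Agent.TH68
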