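import Pool.Agent.TH68.Rotm
import Pool.Agent.TH68.T1
import Pool.Agent.TH68.T23
import Pool.Agent.TH68.T4
import Pool.Agent.TH68.T7

set_option autoImplicit false
set_option linter.unusedSectionVars false

/-! Killing a large prime power of a root. -/

namespace Pool.Agent.TH68

open Pool.Agent.Helper97.Hyp

section basic

variable {Γ : Type*} [Group Γ]

lemma GHyp_mono {X : Type*} [PseudoMetricSpace X] {δ δ' : ℝ} (h : GHyp X δ) (hd : δ ≤ δ') :
    GHyp X δ' := fun x y z w => (h x y z w).trans (by linarith)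

/-- closest translates -/
lemma exists_red {W : WNorm Γ} (N : Subgroup Γ) (p q : Pt W) :
    ∃ n ∈ N, ∀ n' ∈ N, dist p (n • q) ≤ dist p (n' • q) := by
  have h1 : ∃ k : ℕ, ∃ n ∈ N, nd p (n • q) = k := ⟨_, 1, one_mem _, rfl⟩
  classical
  obtain ⟨n, hn, hk⟩ := Nat.find_spec h1
  refine ⟨n, hn, fun n' hn' => ?_⟩
  rw [dist_eq_nd, dist_eq_nd, hk]
  exact_mod_cast Nat.find_min' h1 ⟨n', hn', rfl⟩

end basic

section quot

variable {Γ : Type*} [Group Γ] {N : Subgroup Γ} [N.Normal]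

lemma mk_eq_iff {a b : Γ} : (a : Γ ⧸ N) = b ↔ a⁻¹ * b ∈ N := QuotientGroup.eq

lemma mk_eq_one {a : Γ} : (a : Γ ⧸ N) = 1 ↔ a ∈ N := QuotientGroup.eq_one_iff a

lemma mk_mul_left {n a : Γ} (hn : n ∈ N) : ((n * a : Γ) : Γ ⧸ N) = a := by
  rw [QuotientGroup.mk_mul, mk_eq_one.mpr hn, one_mul]

lemma ord_mk_of_prime {v : Γ} (h : v = 1 ∨ (orderOf v).Prime) :
    (v : Γ ⧸ N) = 1 ∨ (orderOf (v : Γ ⧸ N)).Prime ∧ orderOf (v : Γ ⧸ N) = orderOf v := by
  rcases h with rfl | h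
  · left; rfl
  · have h1 : orderOf (v : Γ ⧸ N) ∣ orderOf v := orderOf_map_dvd (QuotientGroup.mk' N) v
    rcases (Nat.dvd_prime h).mp h1 with h2 | h2
    · left; exact orderOf_eq_one_iff.mp h2
    · right; rw [h2]; exact ⟨h, rfl⟩

end quot

namespace RD

variable {Γ : Type*} [Group Γ] {W : WNorm Γ} (D : RD Γ W)

/-- the key consequence of T23 -/
lemma lift_comm {N : Subgroup Γ} [N.Normal] {C : ℝ}
    (h23 : ∀ (y y' : Γ) (p q : Pt W), y' * y⁻¹ ∈ N → y ≠ y' →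
      dist p (y • p) ≤ C → dist q (y' • q) ≤ C → (∀ n ∈ N, dist p q ≤ dist p (n • q)) →
      orderOf y' = 2) {y z : Γ} (hy : ∃ p : Pt W, dist p (y • p) ≤ C) (hy2 : orderOf y ≠ 2)
    (hc : Commute (z : Γ ⧸ N) (y : Γ ⧸ N)) : ∃ n ∈ N, Commute (n * z) y := by
  obtain ⟨p, hp⟩ := hy
  obtain ⟨n, hn, hmin⟩ := exists_red N p (z • p)
  refine ⟨n, hn, ?_⟩
  by_contra hne
  have h1 : orderOf ((n * z) * y * (n * z)⁻¹) = orderOf y := by
    rw [← MulAut.conj_apply, MulEquiv.orderOf_eq]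
  apply hy2
  rw [← h1]
  apply h23 y ((n * z) * y * (n * z)⁻¹) p ((n * z) • p)
  · rw [← mk_eq_one (N := N)]
    have h2 : ((n * z * y * (n * z)⁻¹ * y⁻¹ : Γ) : Γ ⧸ N) =
        (z : Γ ⧸ N) * y * (z : Γ ⧸ N)⁻¹ * (y : Γ ⧸ N)⁻¹ := by
      have h3 : ((n * z : Γ) : Γ ⧸ N) = z := mk_mul_left hn
      rw [QuotientGroup.mk_mul, QuotientGroup.mk_mul, QuotientGroup.mk_mul, QuotientGroup.mk_inv,
        QuotientGroup.mk_inv, h3]
    rw [h2, hc.eq]
    group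
  · intro h
    apply hne
    have h4 : y * (n * z) = n * z * y := by
      conv_lhs => rw [h]
      group
    exact h4.symm
  · exact hp
  · have h5 : (n * z * y * (n * z)⁻¹) • (n * z) • p = (n * z) • y • p := by
      rw [smul_smul, smul_smul]; congr 1; group
    rw [h5, dist_smul]
    exact hp
  · intro n' hn'
    have := hmin (n' * n) (mul_mem hn' hn)
    rw [smul_smul, smul_smul] at this
    rw [smul_smul, ← mul_assoc]
    exact this

/-- lifts of elements of finite order -/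
lemma lift_ord {N : Subgroup Γ} [N.Normal]
    (hord : ∀ x : Γ, IsOfFinOrder x → x = 1 ∨ (orderOf x).Prime)
    (h1 : ∀ u : Γ, ∀ k : ℕ, 0 < k → u ^ k ∈ N →
      ∃ n ∈ N, IsOfFinOrder (n * u) ∨ ∃ A : Γ ⧸ D.E, (n * u) • A = A)
    {x : Γ ⧸ N} (hx : IsOfFinOrder x) : ∃ v : Γ, (v : Γ ⧸ N) = x ∧
      ((v = 1 ∨ (orderOf v).Prime) ∨ ∃ (h : Γ) (t : ℤ), v = h * D.g ^ t * h⁻¹) := by
  obtain ⟨u, rfl⟩ := QuotientGroup.mk_surjective x
  obtain ⟨k, hk, hk1⟩ := hx.exists_pow_eq_one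
  rw [← QuotientGroup.mk_pow, mk_eq_one] at hk1
  obtain ⟨n, hn, h2⟩ := h1 u k hk hk1
  refine ⟨n * u, mk_mul_left hn, ?_⟩
  rcases h2 with h2 | ⟨A, hA⟩
  · exact Or.inl (hord _ h2)
  · rcases D.stab_or hA with ⟨t, ht⟩ | ⟨h3, -⟩
    · exact Or.inr ⟨A.out, t, ht⟩
    · left; right; rw [h3]; exact Nat.prime_two

lemma pow_mem' {m : ℕ} {N : Subgroup Γ} (hN : N = D.nk m) : D.g ^ (m : ℤ) ∈ N := by
  rw [hN, zpow_natCast]; exact D.pow_mem_nk

/-- the quotient is in the class -/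
lemma kgrp {m : ℕ} (hm : m.Prime) (hm2 : m ≠ 2) {N : Subgroup Γ} [hNn : N.Normal]
    (hN : N = D.nk m) (hΓ : KGrp Γ) (hhyp : HypGroup (Γ ⧸ N)) {C : ℝ}
    (hC : dist D.o (D.g • D.o) ≤ C) (hC' : 100 * D.δ ≤ C)
    (h1 : ∀ u : Γ, ∀ k : ℕ, 0 < k → u ^ k ∈ N →
      ∃ n ∈ N, IsOfFinOrder (n * u) ∨ ∃ A : Γ ⧸ D.E, (n * u) • A = A)
    (h23 : ∀ (y y' : Γ) (p q : Pt W), y' * y⁻¹ ∈ N → y ≠ y' →
      dist p (y • p) ≤ C → dist q (y' • q) ≤ C → (∀ n ∈ N, dist p q ≤ dist p (n • q)) →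
      orderOf y' = 2)
    (h4 : ∀ a b : Γ, orderOf a = 2 → orderOf b = 2 → (a * b) ^ 2 ∈ N → a * b ∈ N) :
    KGrp (Γ ⧸ N) where
  hyp := hhyp
  ord x hx := by
    obtain ⟨v, rfl, hv⟩ := D.lift_ord hΓ.ord h1 hx
    rcases hv with hv | ⟨h, t, rfl⟩
    · rcases ord_mk_of_prime (N := N) hv with h5 | h5
      · exact Or.inl h5
      · exact Or.inr h5.1
    · have h5 : ((h * D.g ^ t * h⁻¹ : Γ) : Γ ⧸ N) ^ m = 1 := by
        rw [← QuotientGroup.mk_pow, mk_eq_one, conj_pow]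
        apply hNn.conj_mem
        rw [← zpow_natCast, ← zpow_mul, mul_comm, zpow_mul]
        exact Subgroup.zpow_mem _ (D.pow_mem' hN) _
      have h6 := orderOf_dvd_of_pow_eq_one h5
      rcases (Nat.dvd_prime hm).mp h6 with h7 | h7
      · left; exact orderOf_eq_one_iff.mp h7
      · right; rw [h7]; exact hm
  cent x hx hx2 y hxy := by
    have hxf : IsOfFinOrder x := by
      rw [← orderOf_pos_iff]; exact hx.pos
    have hx1 : x ≠ 1 := by
      rintro rfl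
      rw [orderOf_one] at hx
      exact Nat.not_prime_one hx
    obtain ⟨v, rfl, hv⟩ := D.lift_ord hΓ.ord h1 hxf
    obtain ⟨z, rfl⟩ := QuotientGroup.mk_surjective y
    rcases hv with hv | ⟨h, t, rfl⟩
    · rcases ord_mk_of_prime (N := N) hv with h5 | ⟨-, h6⟩
      · exact absurd h5 hx1
      rcases hv with rfl | hv
      · exact absurd rfl hx1
      have hv2 : orderOf v ≠ 2 := by rw [← h6]; exact hx2
      have hvf : IsOfFinOrder v := by
        rw [← orderOf_pos_iff]; exact hv.pos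
      obtain ⟨p, hp⟩ := disp_of_fin D.lox.hyp D.hδ v hvf
      obtain ⟨n, hn, hc⟩ := lift_comm (W := W) h23 ⟨p, hp.trans hC'⟩ hv2 hxy.symm
      obtain ⟨s, hs⟩ := hΓ.cent v hv hv2 _ hc.symm
      refine ⟨s, ?_⟩
      have hs' : v ^ s = n * z := hs
      simp only
      rw [← QuotientGroup.mk_zpow, hs', mk_mul_left hn]
    · have hmt : ¬ (m : ℤ) ∣ t := by
        rintro ⟨c, rfl⟩
        apply hx1
        rw [mk_eq_one, zpow_mul]
        exact hNn.conj_mem _ (Subgroup.zpow_mem _ (D.pow_mem' hN) _) _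
      obtain ⟨a, b, hab⟩ : IsCoprime t (m : ℤ) := by
        apply IsCoprime.symm
        rw [(Nat.prime_iff_prime_int.mp hm).coprime_iff_not_dvd]
        exact hmt
      have hmg : (D.g : Γ ⧸ N) = ((D.g ^ t : Γ) : Γ ⧸ N) ^ a := by
        rw [← QuotientGroup.mk_zpow, mk_eq_iff]
        have h7 : D.g⁻¹ * (D.g ^ t) ^ a = (D.g ^ (m : ℤ)) ^ (-b) := by
          rw [← zpow_mul, ← zpow_mul, ← zpow_neg_one, ← zpow_add]
          congr 1
          linarith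
        rw [h7]
        exact Subgroup.zpow_mem _ (D.pow_mem' hN) _
      have hc : Commute ((h⁻¹ * z * h : Γ) : Γ ⧸ N) (D.g : Γ ⧸ N) := by
        rw [hmg]
        apply Commute.zpow_right
        have h8 := hxy.eq
        rw [← QuotientGroup.mk_mul, ← QuotientGroup.mk_mul] at h8
        unfold Commute SemiconjBy
        have e1 : ((h⁻¹ * z * h : Γ) : Γ ⧸ N) * ((D.g ^ t : Γ) : Γ ⧸ N) =
            (h⁻¹ : Γ) * ((z * (h * D.g ^ t * h⁻¹) : Γ) : Γ ⧸ N) * (h : Γ) := by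
          rw [← QuotientGroup.mk_mul, ← QuotientGroup.mk_mul, ← QuotientGroup.mk_mul]
          congr 1; group
        have e2 : ((D.g ^ t : Γ) : Γ ⧸ N) * ((h⁻¹ * z * h : Γ) : Γ ⧸ N) =
            (h⁻¹ : Γ) * (((h * D.g ^ t * h⁻¹) * z : Γ) : Γ ⧸ N) * (h : Γ) := by
          rw [← QuotientGroup.mk_mul, ← QuotientGroup.mk_mul, ← QuotientGroup.mk_mul]
          congr 1; group
        rw [e1, e2, h8]
      have hg2 : orderOf D.g ≠ 2 := by
        intro h9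
        apply D.root.inf
        rw [← orderOf_pos_iff, h9]
        norm_num
      obtain ⟨n, hn, hc'⟩ := lift_comm (W := W) h23 ⟨D.o, hC⟩ hg2 hc
      obtain ⟨s, hs⟩ := D.root.cent (n * (h⁻¹ * z * h)) 1 one_ne_zero (by rw [zpow_one]; exact hc')
      have hs' : D.g ^ s = n * (h⁻¹ * z * h) := hs
      refine ⟨a * s, ?_⟩
      simp only
      have e3 : ((h * D.g ^ t * h⁻¹ : Γ) : Γ ⧸ N) ^ a = (h : Γ) * (D.g : Γ ⧸ N) * (h⁻¹ : Γ) := by
        rw [hmg, ← QuotientGroup.mk_zpow, conj_zpow, QuotientGroup.mk_mul, QuotientGroup.mk_mul,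
          QuotientGroup.mk_zpow]
      have e4 : ((h : Γ) * (D.g : Γ ⧸ N) * (h⁻¹ : Γ) : Γ ⧸ N) ^ s = z := by
        rw [← QuotientGroup.mk_mul, ← QuotientGroup.mk_mul, ← QuotientGroup.mk_zpow, conj_zpow,
          hs', QuotientGroup.mk_mul, QuotientGroup.mk_mul, mk_mul_left hn,
          ← QuotientGroup.mk_mul, ← QuotientGroup.mk_mul]
        congr 1; group
      rw [zpow_mul, e3, e4]
  inv a b ha hb hab := by
    have key : ∀ x : Γ ⧸ N, orderOf x = 2 → ∃ v : Γ, (v : Γ ⧸ N) = x ∧ orderOf v = 2 := by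
      intro x hx
      have hxf : IsOfFinOrder x := by
        rw [← orderOf_pos_iff, hx]; norm_num
      have hx1 : x ≠ 1 := by
        rintro rfl
        rw [orderOf_one] at hx
        omega
      obtain ⟨v, rfl, hv⟩ := D.lift_ord hΓ.ord h1 hxf
      refine ⟨v, rfl, ?_⟩
      rcases hv with hv | ⟨h, t, rfl⟩
      · rcases ord_mk_of_prime (N := N) hv with h5 | h5
        · exact absurd h5 hx1
        · rw [← h5.2, hx]
      · exfalso
        have h5 : ((h * D.g ^ t * h⁻¹ : Γ) : Γ ⧸ N) ^ m = 1 := by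
          rw [← QuotientGroup.mk_pow, mk_eq_one, conj_pow]
          apply hNn.conj_mem
          rw [← zpow_natCast, ← zpow_mul, mul_comm, zpow_mul]
          exact Subgroup.zpow_mem _ (D.pow_mem' hN) _
        have h6 := orderOf_dvd_of_pow_eq_one h5
        rw [hx] at h6
        exact hm2 ((Nat.prime_dvd_prime_iff_eq Nat.prime_two hm).mp h6).symm
    obtain ⟨v, rfl, hv⟩ := key a ha
    obtain ⟨w, rfl, hw⟩ := key b hb
    have h5 : (v * w) ^ 2 ∈ N := by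
      rw [← mk_eq_one, QuotientGroup.mk_pow, QuotientGroup.mk_mul, hab.mul_pow, ← ha,
        pow_orderOf_eq_one, ha, ← hb, pow_orderOf_eq_one, one_mul]
    have h6 := h4 v w hv hw h5
    rw [mk_eq_iff]
    have h7 : v⁻¹ = v := by
      rw [inv_eq_iff_mul_eq_one, ← pow_two, ← hv, pow_orderOf_eq_one]
    rw [h7]
    exact h6

end RD

/-- the step theorem -/
theorem step {Γ : Type*} [Group Γ] (hΓ : KGrp Γ) {g : Γ} (hg : Root g) {B : Set Γ}
    (hB : B.Finite) {F : Set Γ} (hF : F.Finite) (hFi : ∀ f ∈ F, ¬ IsOfFinOrder f)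
    (hFc : ∀ f ∈ F, ∀ (h : Γ) (t : ℤ), f ≠ h * g ^ t * h⁻¹) :
    ∃ m₀ : ℕ, ∀ m : ℕ, m₀ ≤ m → m.Prime →
      KGrp (Γ ⧸ Subgroup.normalClosure {g ^ m}) ∧
      (∀ a ∈ B, ∀ b ∈ B, a⁻¹ * b ∈ Subgroup.normalClosure {g ^ m} → a = b) ∧
      ∀ f ∈ F, ∀ k : ℕ, 0 < k → f ^ k ∉ Subgroup.normalClosure {g ^ m} := by
  classical
  obtain ⟨W, δ', hδ'⟩ := hΓ.hyp
  set δ := max δ' 1 with hδdef
  have hδ : 1 ≤ δ := le_max_right _ _
  have hyp : GHyp (Pt W) δ := GHyp_mono hδ' (le_max_left _ _)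
  obtain ⟨J, hJ⟩ := lox_of_inf hyp hδ
  obtain ⟨k, hk1, -, o, ho⟩ := hJ g hg.inf
  let D : RD Γ W := ⟨δ, hδ, o, g, k, hk1, ho, hg⟩
  set C := max (dist D.o (D.g • D.o)) (100 * D.δ) with hCdef
  obtain ⟨M1, hM1⟩ := t1 D.sys
  obtain ⟨M2, hM2⟩ := t23 D.sys C
  obtain ⟨M3, hM3⟩ := t4 D.sys hΓ
  have hfM : ∀ f : Γ, ∃ M₀ : ℝ, f ∈ F → ∀ R : Spn D.sys, M₀ ≤ R.M → ∀ k : ℕ, 0 < k →
      f ^ k ∈ R.N → ∃ A : Γ ⧸ D.E, f • A = A := by
    intro f
    by_cases hf : f ∈ F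
    · obtain ⟨M₀, hM₀⟩ := t1_short D.sys (hFi f hf)
      exact ⟨M₀, fun _ => hM₀⟩
    · exact ⟨0, fun h => absurd h hf⟩
  choose Mf hMf using hfM
  obtain ⟨MF, hMF⟩ : ∃ MF : ℝ, ∀ f ∈ F, Mf f ≤ MF := by
    obtain ⟨MF, h⟩ := (hF.image Mf).bddAbove
    exact ⟨MF, fun f hf => h ⟨f, hf, rfl⟩⟩
  obtain ⟨MB, hMB⟩ : ∃ MB : ℝ, ∀ a ∈ B, ∀ b ∈ B, dist D.o ((a⁻¹ * b) • D.o) ≤ MB := by
    obtain ⟨MB, h⟩ := ((hB.prod hB).image (fun p : Γ × Γ =>
      dist D.o ((p.1⁻¹ * p.2) • D.o))).bddAbove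
    exact ⟨MB, fun a ha b hb => h ⟨(a, b), ⟨ha, hb⟩, rfl⟩⟩
  set K := max (max (max M1 M2) (max M3 MF)) (max (max (MB + 51 * D.θ + 1) (2000 * D.θ))
    (dist D.o (D.g • D.o) + 51 * D.θ + 1)) with hK
  obtain ⟨m₀, hm₀⟩ := D.low_tendsto K
  refine ⟨max m₀ 3, ?_⟩
  intro m hm hmp
  have hm3 : 3 ≤ m := le_trans (le_max_right _ _) hm
  have hlow := hm₀ m (le_trans (le_max_left _ _) hm)
  have hθ : 1 ≤ D.θ := le_trans D.sys.hδ D.sys.hθ
  have k1 : M1 ≤ D.low m := le_trans (le_trans (le_trans (le_max_left _ _) (le_max_left _ _))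
    (le_max_left _ _)) hlow
  have k2 : M2 ≤ D.low m := le_trans (le_trans (le_trans (le_max_right _ _) (le_max_left _ _))
    (le_max_left _ _)) hlow
  have k3 : M3 ≤ D.low m := le_trans (le_trans (le_trans (le_max_left _ _) (le_max_right _ _))
    (le_max_left _ _)) hlow
  have k4 : MF ≤ D.low m := le_trans (le_trans (le_trans (le_max_right _ _) (le_max_right _ _))
    (le_max_left _ _)) hlow
  have k5 : MB + 51 * D.θ + 1 ≤ D.low m := le_trans (le_trans (le_trans (le_max_left _ _)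
    (le_max_left _ _)) (le_max_right _ _)) hlow
  have k6 : 2000 * D.θ ≤ D.low m := le_trans (le_trans (le_trans (le_max_right _ _)
    (le_max_left _ _)) (le_max_right _ _)) hlow
  have k7 : dist D.o (D.g • D.o) + 51 * D.θ + 1 ≤ D.low m :=
    le_trans (le_trans (le_max_right _ _) (le_max_right _ _)) hlow
  set R : Spn D.sys := D.spn hmp (by omega) (by linarith) (by linarith) with hR
  have hRM : R.M = D.low m := rfl
  have hRN : R.N = D.nk m := rfl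
  have hnk : Subgroup.normalClosure {g ^ m} = D.nk m := D.nk_eq.symm
  have hfar : ∀ n ∈ D.nk m, n ≠ 1 → ∀ x : Pt W, D.low m - 51 * D.θ ≤ dist x (n • x) :=
    fun n hn hn1 x => D.nk_far (by linarith) hn hn1 x
  refine ⟨?_, ?_, ?_⟩
  · apply D.kgrp hmp (by omega) hnk hΓ _ (le_max_left _ _) (le_max_right _ _)
    · intro u k hk hu
      rw [hnk] at hu ⊢
      exact hM1 R k1 u k hk hu
    · intro y y' p q
      rw [hnk]
      exact hM2 R k2 y y' p q
    · intro a b ha hb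
      rw [hnk]
      exact hM3 R k3 a b ha hb
    · have h7 := t7 D.sys R k6
      have key : ∀ (N : Subgroup Γ) [N.Normal], N = R.N → HypGroup (Γ ⧸ N) := by
        intro N _ hN
        subst hN
        exact h7
      exact key _ hnk
  · intro a ha b hb hab
    rw [hnk] at hab
    by_contra hne
    have h1 := hfar _ hab (fun h => hne (inv_mul_eq_one.mp h)) D.o
    have h2 := hMB a ha b hb
    linarith
  · intro f hf k hk hfk
    rw [hnk] at hfk
    obtain ⟨A, hA⟩ := hMf f hf R ((hMF f hf).trans k4) k hk hfk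
    rcases D.stab_or hA with ⟨t, ht⟩ | ⟨h2, -⟩
    · exact hFc f hf _ t ht
    · apply hFi f hf
      rw [← orderOf_pos_iff, h2]
      norm_num

end Pool.Agent.TH68
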