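import Pool.Agent.TH68.Tool
import Pool.Agent.Helper97.Hyp.Axis

set_option autoImplicit false
set_option linter.unusedSectionVars false

/-! Systems of axes and spinning families in a hyperbolic group. -/

namespace Pool.Agent.TH68

open Pool.Agent.Helper97.Hyp

/-- an equivariant family of coarse lines with bounded mutual projections -/
structure Sys (Γ : Type*) [Group Γ] (W : WNorm Γ) (𝒜 : Type*) [MulAction Γ 𝒜] where
  δ : ℝ
  θ : ℝ
  hyp : GHyp (Pt W) δ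
  hδ : 1 ≤ δ
  hθ : δ ≤ θ
  S : 𝒜 → Set (Pt W)
  Sne : ∀ A, (S A).Nonempty
  smul_mem : ∀ (γ : Γ) (A : 𝒜) (x : Pt W), x ∈ S A → γ • x ∈ S (γ • A)
  proj : ∀ (A : 𝒜) (x : Pt W), ∃ q, IsProj θ (S A) x q
  small : ∀ A B : 𝒜, A ≠ B → ∀ p ∈ S B, ∀ q ∈ S B, pd (S A) p q ≤ θ

/-- a spinning family on a system of axes; `N` is the normal subgroup which is killed, `G A` the
rotation subgroup of the axis `A`, and `M` the least displacement of a rotation on its axis -/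
structure Spn {Γ : Type*} [Group Γ] {W : WNorm Γ} {𝒜 : Type*} [MulAction Γ 𝒜]
    (Y : Sys Γ W 𝒜) where
  M : ℝ
  N : Subgroup Γ
  normal : N.Normal
  G : 𝒜 → Subgroup Γ
  G_le : ∀ A, G A ≤ N
  fix : ∀ A, ∀ r ∈ G A, r • A = A
  spin : ∀ A, ∀ r ∈ G A, r ≠ 1 → ∀ q ∈ Y.S A, M ≤ dist q (r • q)
  /-- the windmill property -/
  wind : ∀ n ∈ N, n ≠ 1 → ∀ x : Pt W,
    ∃ A, ∃ r ∈ G A, r ≠ 1 ∧ pd (Y.S A) (r • x) (n • x) ≤ 50 * Y.θ
  /-- rotations are cobounded on the axis -/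
  cob : ∃ R : ℝ, ∀ A, ∀ p ∈ Y.S A, ∀ q ∈ Y.S A, ∃ r ∈ G A, dist p (r • q) ≤ R
  /-- involutions preserving an axis are flips -/
  flip : ∀ A (e : Γ), e • A = A → orderOf e = 2 → ∀ r ∈ G A, e * r * e⁻¹ = r⁻¹
  /-- other elements preserving an axis are translations -/
  disp : ∀ A (e : Γ), e • A = A → orderOf e ≠ 2 → ∀ p ∈ Y.S A, ∀ q ∈ Y.S A,
    dist p (e • p) = dist q (e • q)
  /-- square roots of elements of `N` which are commensurable to rotations -/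
  root : ∀ (u : Γ) (A : 𝒜) (k : ℤ), k ≠ 0 → ¬ IsOfFinOrder u → u ^ k • A = A → u ^ 2 ∈ N → u ∈ N

attribute [instance] Spn.normal

end Pool.Agent.TH68
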