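import Mathlib

set_option autoImplicit false

/-! Groups saturated with conditions on an involution: the definition. -/

namespace Pool.Agent.TH68

/-- the set of elements of finite order of a subgroup -/
def periodicPart {G : Type*} [Group G] (H : Subgroup G) : Set G := {x | x ∈ H ∧ IsOfFinOrder x}

/-- the union of the conjugates of `H` by elements of `P` -/
def conjUnion {G : Type*} [Group G] (P H : Subgroup G) : Set G :=
  {x | ∃ g ∈ P, g * x * g⁻¹ ∈ H}

/-- the subgroup `P` is a Frobenius group with kernel `F` and complement `H` -/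
structure IsFrob {G : Type*} [Group G] (P F H : Subgroup G) : Prop where
  le : H ≤ P
  nontriv : H ≠ ⊥
  proper : H ≠ P
  mal : ∀ g ∈ P, g ∉ H → ∀ x, x ∈ H → g * x * g⁻¹ ∈ H → x = 1
  ker : ∀ x, x ∈ F ↔ (x ∈ P ∧ x ∉ conjUnion P H) ∨ x = 1
  normal : ∀ g ∈ P, ∀ x ∈ F, g * x * g⁻¹ ∈ F
  prod : ∀ x ∈ P, ∃ f ∈ F, ∃ h ∈ H, x = f * h
  inter : F ⊓ H = ⊥

/-- the group `G` is a `T₀`-group with respect to `i` -/
structure IsT0 (G : Type*) [Group G] (i : G) : Prop where
  inv : orderOf i = 2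
  /-- condition 1 -/
  fin : ∀ j k : G, orderOf j = 2 → orderOf k = 2 → IsConj i j → IsConj i k →
    IsOfFinOrder (j * k)
  /-- condition 2 -/
  two : ∀ P : Subgroup G, (∀ x ∈ P, ∃ n : ℕ, orderOf x = 2 ^ n) →
    IsCyclic P ∨ ∃ n : ℕ, 1 ≤ n ∧ Nonempty (P ≃* QuaternionGroup (2 ^ n))
  /-- condition 3 -/
  inf : (Subgroup.centralizer {i} : Set G).Infinite
  ne : Subgroup.centralizer {i} ≠ ⊤
  per : (periodicPart (Subgroup.centralizer {i})).Finite
  /-- condition 4 -/
  norm : ∀ K : Subgroup G, (K : Set G).Finite → K ≠ ⊥ → (∀ x, x ∈ K ↔ i⁻¹ * x * i ∈ K) →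
    Subgroup.normalizer (K : Set G) ≤ Subgroup.centralizer {i} ∨
      ∃ P F H : Subgroup G, (P : Set G) = periodicPart (Subgroup.normalizer (K : Set G)) ∧
        IsFrob P F H ∧ (∀ x ∈ F, ∀ y ∈ F, x * y = y * x) ∧ (H : Set G).Finite ∧
        Even (Nat.card H)
  /-- condition 5 -/
  five : ∀ c : G, c ∉ Subgroup.centralizer {i} → orderOf (c * i) = 2 →
    ∃ s ∈ Subgroup.centralizer {i}, (Subgroup.closure {c, s⁻¹ * c * s} : Set G).Infinite

end Pool.Agent.TH68
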